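import Mathlib

/-! The alternating group on a subset, seen inside the permutations of the ambient type. -/

namespace Pool.Agent.MP_88b4a2_lc

open Equiv Equiv.Perm

variable {V : Type} [Fintype V] [DecidableEq V]

/-- Even permutations fixing every point outside `β`. -/
def AltOn (β : Set V) : Subgroup (Perm V) where
  carrier := {σ | (∀ x, x ∉ β → σ x = x) ∧ sign σ = 1}
  one_mem' := ⟨fun _ _ => rfl, by simp⟩
  mul_mem' := by
    rintro a b ⟨ha, ha'⟩ ⟨hb, hb'⟩
    exact ⟨fun x hx => by simp [hb x hx, ha x hx], by simp [ha', hb']⟩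
  inv_mem' := by
    rintro a ⟨ha, ha'⟩
    refine ⟨fun x hx => ?_, by simp [ha']⟩
    rw [Perm.inv_eq_iff_eq]; exact (ha x hx).symm

theorem mem_AltOn {β : Set V} {σ : Perm V} :
    σ ∈ AltOn β ↔ (∀ x, x ∉ β → σ x = x) ∧ sign σ = 1 := Iff.rfl

omit [Fintype V] [DecidableEq V] in
theorem mem_iff_of_fix {β : Set V} {σ : Perm V} (h : ∀ x, x ∉ β → σ x = x) (x : V) :
    σ x ∈ β ↔ x ∈ β := by
  constructor
  · intro hx
    by_contra hx'
    rw [h x hx'] at hx; exact hx' hx
  · intro hx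
    by_contra hx'
    have := h _ hx'
    rw [σ.injective this] at hx'; exact hx' hx

theorem AltOn.mem_iff {β : Set V} {σ : Perm V} (h : σ ∈ AltOn β) (x : V) : σ x ∈ β ↔ x ∈ β :=
  mem_iff_of_fix h.1 x

open Classical in
/-- Identification with the alternating group of the subtype. -/
noncomputable def altEquiv (β : Set V) : alternatingGroup β ≃* AltOn β :=
  MulEquiv.ofBijective
    (((Perm.ofSubtype (p := fun x => x ∈ β)).comp (alternatingGroup β).subtype).codRestrict
      (AltOn β) (fun σ => ⟨fun x hx => Perm.ofSubtype_apply_of_not_mem _ hx, by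
        have h := Perm.sign_ofSubtype (p := fun x => x ∈ β) σ.1
        have h2 : sign σ.1 = 1 := Perm.mem_alternatingGroup.mp σ.2
        simp only [MonoidHom.coe_comp, Subgroup.coe_subtype, Function.comp_apply]
        rw [h]; convert h2⟩))
    (by
      constructor
      · intro a b h
        have h1 := congrArg Subtype.val h
        exact Subtype.ext (Perm.ofSubtype_injective h1)
      · rintro ⟨σ, hσ⟩
        have h1 : ∀ x, σ x ∈ β ↔ x ∈ β := AltOn.mem_iff hσ
        have h2 : ∀ x, σ x ≠ x → x ∈ β := fun x hx => by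
          by_contra hc; exact hx (hσ.1 x hc)
        refine ⟨⟨σ.subtypePerm h1, ?_⟩, Subtype.ext (Perm.ofSubtype_subtypePerm h1 h2)⟩
        rw [Perm.mem_alternatingGroup]
        have := Perm.sign_subtypePerm σ (p := fun x => x ∈ β) h1 h2
        rw [← hσ.2, ← this])

theorem altOn_simple {β : Set V} (h : 5 ≤ β.ncard) : IsSimpleGroup (AltOn β) := by
  classical
  have : IsSimpleGroup (alternatingGroup β) := alternatingGroup.isSimpleGroup (by
    rw [Nat.card_coe_set_eq]; exact h)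
  exact (altEquiv β).symm.isSimpleGroup

theorem altOn_card {β : Set V} (h : 2 ≤ β.ncard) :
    2 * Nat.card (AltOn β) = β.ncard.factorial := by
  classical
  have hn : Nontrivial β := by
    rw [← Finite.one_lt_card_iff_nontrivial, Nat.card_coe_set_eq]; omega
  rw [← Nat.card_congr (altEquiv β).toEquiv, two_mul_nat_card_alternatingGroup, Nat.card_perm,
    Nat.card_coe_set_eq]

theorem altOn_index {β : Set V} (h : 5 ≤ β.ncard) (T : Subgroup (AltOn β)) (hT : T ≠ ⊤) :
    β.ncard ≤ T.index := by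
  classical
  have hs := altOn_simple h
  have hcore : T.normalCore = ⊥ := by
    rcases hs.eq_bot_or_eq_top_of_normal T.normalCore inferInstance with h1 | h1
    · exact h1
    · exact absurd (top_le_iff.mp (h1 ▸ T.normalCore_le)) hT
  have hinj : Function.Injective (MulAction.toPermHom (AltOn β) (AltOn β ⧸ T)) := by
    rw [← MonoidHom.ker_eq_bot_iff, ← Subgroup.normalCore_eq_ker, hcore]
  have h1 := Nat.card_le_card_of_injective _ hinj
  rw [Nat.card_perm, ← Subgroup.index] at h1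
  have h2 := altOn_card (β := β) (by omega)
  by_contra hlt
  push Not at hlt
  obtain ⟨m, hm⟩ : ∃ m, β.ncard = m + 1 := ⟨β.ncard - 1, by omega⟩
  have h3 : T.index.factorial ≤ m.factorial := Nat.factorial_le (by omega)
  rw [hm, Nat.factorial_succ] at h2
  have h4 := Nat.factorial_pos m
  nlinarith

theorem altOn_full {β : Set V} (h : 5 ≤ β.ncard) (T : Subgroup (Perm V)) (hT : T ≤ AltOn β)
    (hn : ∀ σ ∈ AltOn β, ∀ τ ∈ T, σ * τ * σ⁻¹ ∈ T) (hne : ∃ τ ∈ T, τ ≠ 1) : AltOn β ≤ T := by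
  have hs := altOn_simple h
  have hN : (T.subgroupOf (AltOn β)).Normal := ⟨fun τ hτ σ => hn σ σ.2 τ hτ⟩
  rcases hs.eq_bot_or_eq_top_of_normal _ hN with h1 | h1
  · obtain ⟨τ, hτ, hτ1⟩ := hne
    have : (⟨τ, hT hτ⟩ : AltOn β) ∈ T.subgroupOf (AltOn β) := hτ
    rw [h1, Subgroup.mem_bot] at this
    exact absurd (congrArg Subtype.val this) hτ1
  · exact Subgroup.subgroupOf_eq_top.mp h1

omit [Fintype V] [DecidableEq V] in
theorem exists_not_mem_of_ncard {β : Set V} (F : Finset V) (h : F.card < β.ncard) :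
    ∃ a ∈ β, a ∉ F := by
  by_contra hc
  push Not at hc
  have : β ⊆ (F : Set V) := fun a ha => hc a ha
  have := Set.ncard_le_ncard this F.finite_toSet
  rw [Set.ncard_coe_finset] at this
  omega

theorem swap_mul_swap_mem {β : Set V} {a b c : V} (ha : a ∈ β) (hb : b ∈ β) (hc : c ∈ β)
    (hab : a ≠ b) (hac : a ≠ c) : swap a b * swap a c ∈ AltOn β := by
  refine ⟨fun x hx => ?_, by simp [sign_swap hab, sign_swap hac]⟩
  have h1 : x ≠ a := fun h => hx (h ▸ ha)
  have h2 : x ≠ b := fun h => hx (h ▸ hb)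
  have h3 : x ≠ c := fun h => hx (h ▸ hc)
  simp [swap_apply_of_ne_of_ne h1 h2, swap_apply_of_ne_of_ne h1 h3]

/-- An even permutation of `β` sending `u` to `v` and fixing a third point `z`. -/
theorem exists_map_fix {β : Set V} (h : 4 ≤ β.ncard) {u v z : V} (hu : u ∈ β) (hv : v ∈ β)
    (hzu : z ≠ u) (hzv : z ≠ v) : ∃ σ ∈ AltOn β, σ u = v ∧ σ z = z := by
  by_cases huv : u = v
  · exact ⟨1, (AltOn β).one_mem, huv, rfl⟩
  obtain ⟨a, ha, ha'⟩ := exists_not_mem_of_ncard (β := β) {u, v, z}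
    (lt_of_le_of_lt Finset.card_le_three (by omega))
  simp only [Finset.mem_insert, Finset.mem_singleton, not_or] at ha'
  obtain ⟨h1, h2, h3⟩ := ha'
  refine ⟨swap u a * swap u v, swap_mul_swap_mem hu ha hv (Ne.symm h1) huv, ?_, ?_⟩
  · simp [swap_apply_of_ne_of_ne (Ne.symm huv) (Ne.symm h2)]
  · simp [swap_apply_of_ne_of_ne hzu hzv, swap_apply_of_ne_of_ne hzu (Ne.symm h3)]

theorem exists_map {β : Set V} (h : 4 ≤ β.ncard) {u v : V} (hu : u ∈ β) (hv : v ∈ β) :
    ∃ σ ∈ AltOn β, σ u = v := by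
  obtain ⟨a, -, ha'⟩ := exists_not_mem_of_ncard (β := β) {u, v}
    (lt_of_le_of_lt Finset.card_le_two (by omega))
  simp only [Finset.mem_insert, Finset.mem_singleton, not_or] at ha'
  obtain ⟨σ, h1, h2, -⟩ := exists_map_fix h hu hv ha'.1 ha'.2
  exact ⟨σ, h1, h2⟩

theorem exists_move_fix {β : Set V} (h : 4 ≤ β.ncard) {u z : V} (hu : u ∈ β) (hzu : z ≠ u) :
    ∃ σ ∈ AltOn β, σ u ≠ u ∧ σ z = z := by
  obtain ⟨a, ha, ha'⟩ := exists_not_mem_of_ncard (β := β) {u, z}
    (lt_of_le_of_lt Finset.card_le_two (by omega))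
  simp only [Finset.mem_insert, Finset.mem_singleton, not_or] at ha'
  obtain ⟨σ, h1, h2, h3⟩ := exists_map_fix h hu ha hzu (Ne.symm ha'.2)
  exact ⟨σ, h1, h2 ▸ ha'.1, h3⟩

theorem AltOn.conj {β : Set V} {σ : Perm V} (h : σ ∈ AltOn β) (τ : Perm V) :
    τ * σ * τ⁻¹ ∈ AltOn (τ '' β) := by
  refine ⟨fun x hx => ?_, by simp [h.2]⟩
  have : τ⁻¹ x ∉ β := fun hc => hx ⟨_, hc, by simp⟩
  rw [Perm.mul_apply, Perm.mul_apply, h.1 _ this]; simp

end Pool.Agent.MP_88b4a2_lc
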