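import Pool.Agent.MP_88b4a2_lc.Ind

/-! Two alternating actions with the same kernel are equivalent. -/

namespace Pool.Agent.MP_88b4a2_lc

open Equiv Equiv.Perm MulAction

/-- Primitive groups not containing the alternating group have rigid colourings. -/
def PrimHyp (q : ℕ) : Prop :=
  ∀ (B : Type) [Fintype B] [DecidableEq B] (G : Subgroup (Perm B)),
    IsPreprimitive G B → ¬ alternatingGroup B ≤ G →
    ∃ M : B → ℕ, (∀ x, M x < q) ∧ ∀ g ∈ G, (∀ x, M (g x) = M x) → g = 1

variable {V : Type} [Fintype V] [DecidableEq V]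

theorem altOn_univ (B : Type) [Fintype B] [DecidableEq B] :
    AltOn (Set.univ : Set B) = alternatingGroup B := by
  ext σ; simp [mem_AltOn, Perm.mem_alternatingGroup]

theorem alt_moves {B : Type} [Fintype B] [DecidableEq B] (h : 4 ≤ Fintype.card B) (y : B) :
    ∃ σ ∈ alternatingGroup B, σ y ≠ y := by
  have h4 : 4 ≤ (Set.univ : Set B).ncard := by
    rw [Set.ncard_univ, Nat.card_eq_fintype_card]; exact h
  obtain ⟨w, -, hw'⟩ := exists_not_mem_of_ncard (β := (Set.univ : Set B)) {y} (by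
    rw [Finset.card_singleton]; omega)
  obtain ⟨σ, hσ, h1⟩ := exists_map h4 (Set.mem_univ y) (Set.mem_univ w)
  exact ⟨σ, altOn_univ B ▸ hσ, by rw [h1]; simpa using hw'⟩

theorem card_alt (B : Type) [Fintype B] [DecidableEq B] (h : 2 ≤ Fintype.card B) :
    2 * Nat.card (alternatingGroup B) = (Fintype.card B).factorial := by
  have := altOn_card (β := (Set.univ : Set B)) (by
    rw [Set.ncard_univ, Nat.card_eq_fintype_card]; exact h)
  rwa [altOn_univ, Set.ncard_univ, Nat.card_eq_fintype_card (α := B)] at this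

theorem fixed_of_index {q : ℕ} (hP : PrimHyp q) {B : Type} [Fintype B] [DecidableEq B]
    (H : Subgroup (Perm B)) (m : ℕ) (hB : Fintype.card B = m + 1) (hm : 5 ≤ m)
    (hcard : 2 * Nat.card H = m.factorial) (hq : 2 * q ^ (m + 1) < m.factorial)
    (hidx : ∀ T : Subgroup H, T ≠ ⊤ → m ≤ T.index) : ∃ y : B, ∀ h ∈ H, h y = y := by
  classical
  by_contra hc
  push Not at hc
  have hst : ∀ y : B, stabilizer H y ≠ ⊤ := fun y h => by
    obtain ⟨g, hg, h1⟩ := hc y
    have : (⟨g, hg⟩ : H) ∈ stabilizer H y := h ▸ Subgroup.mem_top _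
    exact h1 this
  have horb : ∀ y : B, m ≤ (orbit H y).ncard := fun y => by
    rw [← MulAction.index_stabilizer]; exact hidx _ (hst y)
  have htr : IsPretransitive H B := ⟨fun y y' => by
    by_contra hne
    have hdis : _root_.Disjoint (orbit H y) (orbit H y') := by
      rw [Set.disjoint_left]
      rintro _ ⟨a, rfl⟩ ⟨b, hb⟩
      exact hne ⟨b⁻¹ * a, by rw [mul_smul, inv_smul_eq_iff]; exact hb.symm⟩
    have h1 := Set.ncard_union_eq hdis
    have h2 := Set.ncard_le_ncard (Set.subset_univ (orbit H y ∪ orbit H y'))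
    rw [Set.ncard_univ, Nat.card_eq_fintype_card] at h2
    have := horb y
    have := horb y'
    omega⟩
  have hnt : Nontrivial B := Fintype.one_lt_card_iff_nontrivial.mp (by omega)
  obtain ⟨y⟩ : Nonempty B := inferInstance
  have hco : IsCoatom (stabilizer H y) := by
    refine ⟨hst y, fun T hT => ?_⟩
    by_contra hT'
    have h1 := hidx T hT'
    have h2 := Subgroup.relIndex_mul_index hT.le
    rw [MulAction.index_stabilizer_of_transitive, Nat.card_eq_fintype_card, hB] at h2
    have h3 : (stabilizer H y).relIndex T ≠ 1 := fun h =>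
      hT.not_ge (Subgroup.relIndex_eq_one.mp h)
    have h4 : (stabilizer H y).relIndex T ≠ 0 := fun h => by rw [h] at h2; omega
    have h5 : 2 ≤ (stabilizer H y).relIndex T := by omega
    nlinarith
  have hprim := (isCoatom_stabilizer_iff_preprimitive H y).mp hco
  have hng : ¬ alternatingGroup B ≤ H := fun h => by
    have h1 := Subgroup.card_le_of_le h
    have h2 := card_alt B (by omega)
    rw [hB, Nat.factorial_succ] at h2
    have := Nat.factorial_pos m
    nlinarith
  obtain ⟨M, hM, hrig⟩ := hP B H hprim hng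
  have hinj : Function.Injective (fun h : H => fun x : B => (⟨M (h.1 x), hM _⟩ : Fin q)) := by
    intro a b hab
    have : a.1 * b.1⁻¹ = 1 := hrig _ (H.mul_mem a.2 (H.inv_mem b.2)) fun x => by
      have := congrArg Fin.val (congrFun hab (b.1⁻¹ x))
      simpa using this
    exact Subtype.ext (mul_inv_eq_one.mp this)
  have h1 := Nat.card_le_card_of_injective _ hinj
  rw [Nat.card_fun, Nat.card_eq_fintype_card (α := B), hB, Nat.card_fin] at h1
  omega

theorem partner' {q : ℕ} (hP : PrimHyp q) {β : Set V} {B : Type} [Fintype B] [DecidableEq B]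
    (φ : AltOn β →* Perm B) (hsurj : alternatingGroup B ≤ φ.range) (hB : 5 ≤ Fintype.card B)
    (h6 : 6 ≤ β.ncard) (hq : 2 * q ^ β.ncard < (β.ncard - 1).factorial) :
    Fintype.card B = β.ncard ∧ ∀ x ∈ β, ∃ y : B, ∀ σ : AltOn β, σ.1 x = x ↔ φ σ y = y := by
  classical
  have hs := altOn_simple (β := β) (by omega)
  have hmove : ∀ y : B, ∃ σ, φ σ y ≠ y := fun y => by
    obtain ⟨τ, hτ, h1⟩ := alt_moves (by omega) y
    obtain ⟨σ, rfl⟩ := hsurj hτ
    exact ⟨σ, h1⟩
  have hnt : Nontrivial B := Fintype.one_lt_card_iff_nontrivial.mp (by omega)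
  have hinj : Function.Injective φ := by
    rw [← MonoidHom.ker_eq_bot_iff]
    rcases hs.eq_bot_or_eq_top_of_normal φ.ker inferInstance with h | h
    · exact h
    · obtain ⟨y⟩ : Nonempty B := inferInstance
      obtain ⟨σ, hσ⟩ := hmove y
      have : σ ∈ φ.ker := h ▸ Subgroup.mem_top _
      rw [MonoidHom.mem_ker] at this
      rw [this] at hσ; exact absurd rfl hσ
  let _ : MulAction (AltOn β) B := MulAction.compHom B φ
  have hsm : ∀ (σ : AltOn β) (y : B), σ • y = φ σ y := fun _ _ => rfl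
  have hst : ∀ y : B, β.ncard ≤ (stabilizer (AltOn β) y).index := fun y =>
    altOn_index (by omega) _ fun h => by
      obtain ⟨σ, hσ⟩ := hmove y
      have : σ ∈ stabilizer (AltOn β) y := h ▸ Subgroup.mem_top _
      exact hσ this
  have hcard : Fintype.card B = β.ncard := by
    apply le_antisymm
    · have h1 := Subgroup.card_le_of_le hsurj
      have h2 : Nat.card φ.range = Nat.card (AltOn β) :=
        (Nat.card_congr (MonoidHom.ofInjective hinj).toEquiv).symm
      have h3 := card_alt B (by omega)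
      have h4 := altOn_card (β := β) (by omega)
      by_contra hlt
      have := (Nat.factorial_lt (n := β.ncard) (m := Fintype.card B) (by omega)).mpr (by omega)
      omega
    · obtain ⟨y⟩ : Nonempty B := inferInstance
      have h1 := hst y
      rw [MulAction.index_stabilizer] at h1
      have h2 := Set.ncard_le_ncard (Set.subset_univ (orbit (AltOn β) y))
      rw [Set.ncard_univ, Nat.card_eq_fintype_card] at h2
      omega
  refine ⟨hcard, fun x hx => ?_⟩
  have hle : AltOn (β \ {x}) ≤ AltOn β := fun σ hσ =>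
    ⟨fun z hz => hσ.1 z fun h => hz h.1, hσ.2⟩
  have hn : (β \ {x}).ncard = β.ncard - 1 := Set.ncard_sdiff_singleton_of_mem hx
  let ψ : AltOn (β \ {x}) →* Perm B := φ.comp (Subgroup.inclusion hle)
  have hψ : Function.Injective ψ := hinj.comp (Subgroup.inclusion_injective hle)
  obtain ⟨y, hy⟩ := fixed_of_index hP ψ.range (β.ncard - 1) (by omega) (by omega)
    (by rw [← Nat.card_congr (MonoidHom.ofInjective hψ).toEquiv, altOn_card (by omega), hn])
    (by rwa [Nat.sub_add_cancel (by omega)])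
    (fun T hT => by
      have h1 := altOn_index (β := β \ {x}) (by omega)
        (T.comap (MonoidHom.ofInjective hψ).toMonoidHom) (fun h => hT (by
          rw [eq_top_iff]
          intro t _
          obtain ⟨s, rfl⟩ := (MonoidHom.ofInjective hψ).surjective t
          have : s ∈ T.comap (MonoidHom.ofInjective hψ).toMonoidHom := h ▸ Subgroup.mem_top _
          exact this))
      rw [Subgroup.index_comap_of_surjective T (f := (MonoidHom.ofInjective hψ).toMonoidHom)
        (MonoidHom.ofInjective hψ).surjective] at h1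
      omega)
  have hSy : stabilizer (AltOn β) x ≤ stabilizer (AltOn β) y := by
    intro σ hσ
    have hσ' : σ.1 x = x := hσ
    have hmem : σ.1 ∈ AltOn (β \ {x}) := ⟨fun z hz => by
      by_cases hz' : z = x
      · rw [hz', hσ']
      · exact σ.2.1 z fun h => hz ⟨h, hz'⟩, σ.2.2⟩
    exact hy _ ⟨⟨σ.1, hmem⟩, rfl⟩
  have hidx : (stabilizer (AltOn β) x).index ≤ β.ncard := by
    rw [MulAction.index_stabilizer]
    refine Set.ncard_le_ncard ?_
    rintro _ ⟨σ, rfl⟩
    exact (AltOn.mem_iff σ.2 x).mpr hx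
  have heq : stabilizer (AltOn β) y ≤ stabilizer (AltOn β) x := by
    have h2 := Subgroup.relIndex_mul_index hSy
    have h3 := hst y
    have h4 : (stabilizer (AltOn β) x).index ≠ 0 := Subgroup.index_ne_zero_of_finite
    apply Subgroup.relIndex_eq_one.mp
    have h5 : (stabilizer (AltOn β) x).relIndex (stabilizer (AltOn β) y) ≠ 0 := fun h => by
      rw [h] at h2; omega
    by_contra h7
    have h8 : 2 ≤ (stabilizer (AltOn β) x).relIndex (stabilizer (AltOn β) y) := by omega
    nlinarith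
  exact ⟨y, fun σ => ⟨fun h => hSy h, fun h => heq h⟩⟩

variable {G : Type} [Group G] [MulAction G V]

theorem partner {q : ℕ} (hP : PrimHyp q) {P : Subgroup G} {β β' : Set V}
    (hInd : Ind P β β) (hEv : ∀ k ∈ P, ∃ σ ∈ AltOn β, Rz β k σ) (hInd' : Ind P β' β')
    (hinv' : ∀ k ∈ P, ∀ x ∈ β', k • x ∈ β')
    (hker : ∀ k ∈ P, (∀ x ∈ β, k • x = x) → ∀ y ∈ β', k • y = y)
    (h5 : 5 ≤ β'.ncard) (h6 : 6 ≤ β.ncard) (hq : 2 * q ^ β.ncard < (β.ncard - 1).factorial) :
    β'.ncard = β.ncard ∧ ∀ x ∈ β, ∃ y ∈ β', ∀ k ∈ P, k • x = x ↔ k • y = y := by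
  classical
  have hinv : ∀ k ∈ P, ∀ x ∈ β, k • x ∈ β := fun k hk x hx => by
    obtain ⟨σ, hσ, h⟩ := hEv k hk
    rw [h x hx]; exact (AltOn.mem_iff hσ x).mpr hx
  have hiff : ∀ k ∈ P, ∀ x, (MulAction.toPerm k : Perm V) x ∈ β' ↔ x ∈ β' := fun k hk x =>
    ⟨fun h => by
      have := hinv' _ (P.inv_mem hk) _ h
      simpa using this, hinv' k hk x⟩
  have hsame : ∀ k ∈ P, ∀ k' ∈ P, ∀ σ, Rz β k σ → Rz β k' σ → ∀ y ∈ β', k • y = k' • y := by
    intro k hk k' hk' σ h1 h2 y hy
    have := hker (k'⁻¹ * k) (P.mul_mem (P.inv_mem hk') hk) (fun x hx => by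
      rw [mul_smul, h1 x hx, ← h2 x hx, inv_smul_smul]) y hy
    rw [mul_smul, inv_smul_eq_iff] at this
    exact this
  choose κ hκ hκ' using hInd
  let φ : AltOn β →* Perm β' := MonoidHom.mk'
    (fun σ => (MulAction.toPerm (κ σ.1 σ.2) : Perm V).subtypePerm (hiff _ (hκ _ _)))
    (fun σ τ => by
      ext y
      have := hsame _ (hκ _ (σ * τ).2) _ (P.mul_mem (hκ _ σ.2) (hκ _ τ.2)) _ (hκ' _ (σ * τ).2)
        ((hκ' _ σ.2).mul (hκ' _ τ.2) (hinv _ (hκ _ τ.2))) y.1 y.2
      simpa [mul_smul] using this)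
  have hφ : ∀ k ∈ P, ∀ σ (hσ : σ ∈ AltOn β), Rz β k σ → ∀ y : β', (φ ⟨σ, hσ⟩ y).1 = k • y.1 :=
    fun k hk σ hσ h y => hsame _ (hκ _ hσ) _ hk _ (hκ' _ hσ) h y.1 y.2
  have hc : Fintype.card β' = β'.ncard := by
    rw [← Nat.card_eq_fintype_card, Nat.card_coe_set_eq]
  obtain ⟨h1, h2⟩ := partner' hP φ (by
    intro τ hτ
    obtain ⟨k, hk, h3⟩ := hInd' _ (altEquiv β' ⟨τ, by convert hτ⟩).2
    obtain ⟨σ, hσ, h4⟩ := hEv k hk
    refine ⟨⟨σ, hσ⟩, ?_⟩
    ext y
    rw [hφ k hk σ hσ h4 y, h3 y.1 y.2]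
    exact Perm.ofSubtype_apply_coe τ y) (by omega) h6 hq
  refine ⟨by omega, fun x hx => ?_⟩
  obtain ⟨y, hy⟩ := h2 x hx
  refine ⟨y.1, y.2, fun k hk => ?_⟩
  obtain ⟨σ, hσ, h4⟩ := hEv k hk
  rw [h4 x hx, ← hφ k hk σ hσ h4 y]
  exact (hy ⟨σ, hσ⟩).trans Subtype.ext_iff

end Pool.Agent.MP_88b4a2_lc
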