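import Pool.Agent.MP_88b4a2_lc.Tame
import Pool.Agent.MP_88b4a2_lc.Partner

/-! Block systems on one orbit and colourings making blocks rigid. -/

namespace Pool.Agent.MP_88b4a2_lc

open Equiv Equiv.Perm MulAction

variable {V : Type} {G : Type} [Group G] [MulAction G V]

theorem mem_orb {L : Subgroup G} {x₀ x : V} : x ∈ orbit L x₀ ↔ ∃ g ∈ L, g • x₀ = x :=
  ⟨fun ⟨g, hg⟩ => ⟨g.1, g.2, hg⟩, fun ⟨g, h1, h2⟩ => ⟨⟨g, h1⟩, h2⟩⟩

theorem orb_inv {L : Subgroup G} {x₀ : V} : ∀ g ∈ L, ∀ x ∈ orbit L x₀, g • x ∈ orbit L x₀ := by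
  intro g hg x hx
  obtain ⟨h, h1, rfl⟩ := mem_orb.mp hx
  exact mem_orb.mpr ⟨g * h, L.mul_mem hg h1, mul_smul _ _ _⟩

theorem orb_mono {L L' : Subgroup G} (h : L ≤ L') (x₀ : V) : orbit L x₀ ⊆ orbit L' x₀ :=
  fun _ hx => by
    obtain ⟨g, h1, h2⟩ := mem_orb.mp hx
    exact mem_orb.mpr ⟨g, h h1, h2⟩

/-- The block system of `L` on the orbit of `x₀`. -/
def rel (x₀ : V) (L : Subgroup G) (x y : V) : Prop :=
  x = y ∨ ∃ g h : G, x = g • x₀ ∧ y = h • x₀ ∧ g⁻¹ * h ∈ L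

variable {x₀ : V} {L : Subgroup G}

theorem rel_iff (hA : stabilizer G x₀ ≤ L) (g h : G) :
    rel x₀ L (g • x₀) (h • x₀) ↔ g⁻¹ * h ∈ L := by
  have key : ∀ a b : G, a • x₀ = b • x₀ → a⁻¹ * b ∈ L := fun a b hab => hA (by
    rw [mem_stabilizer_iff, mul_smul, ← hab, inv_smul_smul])
  refine ⟨?_, fun h1 => Or.inr ⟨g, h, rfl, rfl, h1⟩⟩
  rintro (h1 | ⟨a, b, h1, h2, h3⟩)
  · exact key _ _ h1
  · have := L.mul_mem (L.mul_mem (key _ _ h1) h3) (key _ _ h2.symm)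
    simpa [mul_assoc] using this

theorem rel_iff' (hA : stabilizer G x₀ ≤ L) (g : G) (y : V) :
    rel x₀ L (g • x₀) y ↔ ∃ l ∈ L, y = (g * l) • x₀ := by
  refine ⟨fun h => ?_, ?_⟩
  · have : ∃ b : G, y = b • x₀ := by
      rcases h with h | ⟨a, b, -, h, -⟩
      · exact ⟨g, h.symm⟩
      · exact ⟨b, h⟩
    obtain ⟨b, rfl⟩ := this
    exact ⟨g⁻¹ * b, (rel_iff hA g b).mp h, by simp⟩
  · rintro ⟨l, hl, rfl⟩
    exact (rel_iff hA _ _).mpr (by simpa using hl)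

theorem rel_cong (hA : stabilizer G x₀ ≤ L) : IsCong G (rel x₀ L) where
  refl := fun _ => Or.inl rfl
  symm := by
    rintro x y (h | ⟨g, h, h1, h2, h3⟩)
    · exact Or.inl h.symm
    · exact Or.inr ⟨h, g, h2, h1, by simpa using L.inv_mem h3⟩
  trans := by
    rintro x y z (rfl | ⟨g, h, rfl, rfl, h3⟩) h4
    · exact h4
    · obtain ⟨l, hl, rfl⟩ := (rel_iff' hA _ _).mp h4
      exact (rel_iff hA _ _).mpr (by simpa [mul_assoc] using L.mul_mem h3 hl)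
  smul := by
    rintro k x y (rfl | ⟨g, h, rfl, rfl, h3⟩)
    · exact Or.inl rfl
    · exact Or.inr ⟨k * g, k * h, (mul_smul _ _ _).symm, (mul_smul _ _ _).symm, by
        simpa [mul_assoc] using h3⟩

theorem rel_class (hA : stabilizer G x₀ ≤ L) (g : G) :
    {y | rel x₀ L (g • x₀) y} = (fun x => g • x) '' orbit L x₀ := by
  ext y
  rw [Set.mem_ofPred_eq, rel_iff' hA]
  constructor
  · rintro ⟨l, hl, rfl⟩; exact ⟨l • x₀, mem_orb.mpr ⟨l, hl, rfl⟩, (mul_smul _ _ _).symm⟩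
  · rintro ⟨x, hx, rfl⟩
    obtain ⟨l, hl, rfl⟩ := mem_orb.mp hx
    exact ⟨l, hl, (mul_smul _ _ _).symm⟩

theorem rel_class_one (hA : stabilizer G x₀ ≤ L) : {y | rel x₀ L x₀ y} = orbit L x₀ := by
  have := rel_class hA 1
  simpa using this

theorem rel_ncard (hA : stabilizer G x₀ ≤ L) (g : G) :
    {y | rel x₀ L (g • x₀) y}.ncard = (orbit L x₀).ncard := by
  rw [rel_class hA, Set.ncard_image_of_injective _ (MulAction.injective g)]

open Classical in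
/-- The coset of `L` attached to a point of the orbit. -/
noncomputable def cos (x₀ : V) (L : Subgroup G) (x : V) : G ⧸ L :=
  if h : ∃ g : G, g • x₀ = x then (h.choose : G ⧸ L) else ((1 : G) : G ⧸ L)

theorem cos_smul (hA : stabilizer G x₀ ≤ L) (g : G) : cos x₀ L (g • x₀) = (g : G ⧸ L) := by
  have h : ∃ g' : G, g' • x₀ = g • x₀ := ⟨g, rfl⟩
  rw [cos, dif_pos h, QuotientGroup.eq, ← rel_iff hA, h.choose_spec]
  exact Or.inl rfl

theorem transport {q : ℕ} {L₁ L₂ : Subgroup G} (h1 : stabilizer G x₀ < L₁) (h2 : L₁ ≤ L₂)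
    (M : V → ℕ) (hM : ∀ x, M x < q)
    (hrig : ∀ g ∈ L₂, (∀ x ∈ orbit L₂ x₀, M (g • x) = M x) →
      ∀ x ∈ orbit L₂ x₀, rel x₀ L₁ x (g • x) → g • x = x) : R1 V G q := by
  classical
  have hA := h1.le
  have hr := rel_cong hA
  obtain ⟨l₀, hl₀, hl₀'⟩ := SetLike.exists_of_lt h1
  let M₁ : V → ℕ := fun x => if x ∈ orbit G x₀ then M ((cos x₀ L₂ x).out⁻¹ • x) else 0
  refine ⟨rel x₀ L₁, M₁, hr, ⟨x₀, l₀ • x₀, ?_, fun h => hl₀' h.symm⟩, fun x => ?_,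
    fun x hx => ?_, fun g hg x hx => ?_⟩
  · exact Or.inr ⟨1, l₀, by simp, rfl, by simpa using hl₀⟩
  · simp only [M₁]; split_ifs
    · exact hM _
    · exact lt_of_le_of_lt (Nat.zero_le _) (hM x)
  · simp only [M₁]
    rw [if_neg]
    rintro ⟨g, rfl⟩
    have := hx ((g * l₀) • x₀) ((rel_iff hA _ _).mpr (by simpa using hl₀))
    rw [mul_smul] at this
    exact hl₀' (smul_left_cancel g this)
  · by_cases hx' : x ∈ orbit G x₀
    · obtain ⟨h, rfl⟩ := hx'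
      simp only at hx ⊢
      set τ := (h : G ⧸ L₂).out with hτ
      have e1 : τ⁻¹ * h ∈ L₂ := by
        rw [← QuotientGroup.eq, hτ, QuotientGroup.out_eq']
      have e2 : h⁻¹ * (g * h) ∈ L₂ := h2 ((rel_iff hA _ _).mp (by rwa [mul_smul]))
      have e3 : τ⁻¹ * g * τ ∈ L₂ := by
        have := L₂.mul_mem (L₂.mul_mem e1 e2) (L₂.inv_mem e1)
        simpa [mul_assoc] using this
      have e4 : ∀ y ∈ orbit L₂ x₀, M₁ (τ • y) = M y := by
        intro y hy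
        obtain ⟨l, hl, rfl⟩ := mem_orb.mp hy
        have : cos x₀ L₂ (τ • l • x₀) = (h : G ⧸ L₂) := by
          rw [← mul_smul, cos_smul (hA.trans h2), QuotientGroup.eq]
          simpa [mul_assoc] using L₂.mul_mem (L₂.inv_mem hl) e1
        simp only [M₁]
        rw [if_pos ⟨τ * l, mul_smul _ _ _⟩, this, ← hτ, inv_smul_smul]
      have := hrig _ e3 (fun y hy => by
        rw [← e4 _ (orb_inv _ e3 y hy), ← e4 y hy, ← hg (τ • y)]
        simp [mul_smul]) (τ⁻¹ • h • x₀) (mem_orb.mpr ⟨_, e1, mul_smul _ _ _⟩) (by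
        have := hr.smul τ⁻¹ hx
        simpa [mul_smul] using this)
      simpa [mul_smul] using this
    · rcases hx with hx | ⟨a, b, rfl, -⟩
      · exact hx.symm
      · exact absurd ⟨a, rfl⟩ hx'

theorem count_label [Finite V] [Finite G] {La Lb : Subgroup G} (hA : stabilizer G x₀ ≤ La)
    (hab : La ≤ Lb) (h : (orbit Lb ((1 : G) : G ⧸ La)).ncard ≤ (orbit La x₀).ncard + 1) :
    ∃ M : V → ℕ, (∀ x, M x < 2) ∧ ∀ g ∈ Lb, (∀ x ∈ orbit Lb x₀, M (g • x) = M x) →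
      ∀ x ∈ orbit Lb x₀, rel x₀ La x (g • x) := by
  classical
  have hr := rel_cong hA
  obtain ⟨ω, hω1, -, hω3⟩ := exists_omega (r := rel x₀ La) ⟨hr.refl, hr.symm, hr.trans⟩
  obtain ⟨ν, hν1, hν2, -⟩ := exists_omega (r := fun a b : G ⧸ La =>
    a ∈ orbit Lb ((1 : G) : G ⧸ La) ↔ b ∈ orbit Lb ((1 : G) : G ⧸ La))
    ⟨fun _ => Iff.rfl, Iff.symm, Iff.trans⟩
  have hmem : ∀ g ∈ Lb, (g : G ⧸ La) ∈ orbit Lb ((1 : G) : G ⧸ La) := fun g hg =>
    mem_orb.mpr ⟨g, hg, by simp⟩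
  let M : V → ℕ := fun x => if ω x < ν (cos x₀ La x) then 1 else 0
  have hcount : ∀ g ∈ Lb, {y | rel x₀ La (g • x₀) y ∧ M y = 1}.ncard = ν g := by
    intro g hg
    have e1 : ν g ≤ (orbit La x₀).ncard := by
      have := hν2 g
      simp only [hmem g hg, true_iff, Set.ofPred_mem_eq] at this
      omega
    have e2 : ∀ y, rel x₀ La (g • x₀) y → cos x₀ La y = g := fun y hy => by
      obtain ⟨l, hl, rfl⟩ := (rel_iff' hA _ _).mp hy
      rw [cos_smul hA, QuotientGroup.eq]; simpa using hl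
    rw [← Set.ncard_Iio_nat (ν g), ← Set.InjOn.ncard_image (f := ω)
      (fun x hx y hy hxy => hω1 _ _ (hr.trans (hr.symm hx.1) hy.1) hxy)]
    congr 1
    ext n
    constructor
    · rintro ⟨y, ⟨h1, h2⟩, rfl⟩
      simp only [M, e2 y h1] at h2
      by_contra hc
      rw [if_neg (show ¬ ω y < ν g from hc)] at h2; exact absurd h2 (by decide)
    · intro hn
      obtain ⟨y, h1, rfl⟩ := hω3 (g • x₀) n (by rw [rel_ncard hA]; exact lt_of_lt_of_le hn e1)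
      exact ⟨y, ⟨h1, by simp only [M, e2 y h1]; exact if_pos hn⟩, rfl⟩
  refine ⟨M, fun x => by simp only [M]; split_ifs <;> decide, fun g hg hM x hx => ?_⟩
  obtain ⟨h, hh, rfl⟩ := mem_orb.mp hx
  rw [← mul_smul, rel_iff hA, ← QuotientGroup.eq]
  refine hν1 _ _ (by simp [hmem _ hh, hmem _ (Lb.mul_mem hg hh)]) ?_
  rw [← hcount _ hh, ← hcount _ (Lb.mul_mem hg hh),
    ← Set.ncard_image_of_injective _ (MulAction.injective g)]
  have hin : ∀ y, rel x₀ La (h • x₀) y → y ∈ orbit Lb x₀ := fun y hy => by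
    obtain ⟨l, hl, rfl⟩ := (rel_iff' hA _ _).mp hy
    exact mem_orb.mpr ⟨_, Lb.mul_mem hh (hab hl), rfl⟩
  congr 1
  ext y
  constructor
  · rintro ⟨z, ⟨h1, h2⟩, rfl⟩
    exact ⟨by rw [mul_smul]; exact hr.smul g h1, by rw [hM z (hin z h1), h2]⟩
  · rintro ⟨h1, h2⟩
    have h3 := hr.smul g⁻¹ h1
    rw [mul_smul, inv_smul_smul] at h3
    exact ⟨g⁻¹ • y, ⟨h3, by rw [← hM _ (hin _ h3), smul_inv_smul, h2]⟩, smul_inv_smul _ _⟩

theorem grid' [Finite V] [Finite G] {q : ℕ} (hq : 2 ≤ q) {L₁ L₂ L₃ : Subgroup G}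
    (h1 : stabilizer G x₀ ≤ L₁) (h2 : stabilizer G x₀ < L₂) (h13 : L₁ ≤ L₃) (h23 : L₂ ≤ L₃)
    (hinf : L₁ ⊓ L₂ ≤ stabilizer G x₀) (hprod : ∀ g ∈ L₃, ∃ b ∈ L₂, ∃ a ∈ L₁, g = b * a)
    (hle : (orbit L₂ x₀).ncard ≤ (orbit L₁ x₀).ncard) : R1 V G q := by
  obtain ⟨M, hM, hrig⟩ := count_label (Lb := L₃) h1 h13 (by
    refine le_trans (le_trans (Set.ncard_le_ncard (t := cos x₀ L₁ '' orbit L₂ x₀) ?_)
      (Set.ncard_image_le)) (by omega)
    intro c hc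
    obtain ⟨g, hg, rfl⟩ := mem_orb.mp hc
    obtain ⟨b, hb, a, ha, rfl⟩ := hprod g hg
    refine ⟨b • x₀, mem_orb.mpr ⟨b, hb, rfl⟩, ?_⟩
    rw [cos_smul h1]
    simp [ha])
  refine transport h2 h23 M (fun x => lt_of_lt_of_le (hM x) hq) fun g hg hgM x hx hx' => ?_
  have h3 := hrig g hg hgM x hx
  obtain ⟨h, hh, rfl⟩ := mem_orb.mp hx
  rw [← mul_smul] at h3 hx'
  have := hinf ⟨(rel_iff h1 _ _).mp h3, (rel_iff h2.le _ _).mp hx'⟩
  rw [mem_stabilizer_iff, mul_smul, inv_smul_eq_iff, mul_smul] at this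
  exact this

theorem grid [Finite V] [Finite G] {q : ℕ} (hq : 2 ≤ q) {L₁ L₂ L₃ : Subgroup G}
    (h1 : stabilizer G x₀ < L₁) (h2 : stabilizer G x₀ < L₂) (h13 : L₁ ≤ L₃) (h23 : L₂ ≤ L₃)
    (hinf : L₁ ⊓ L₂ ≤ stabilizer G x₀) (hprod : ∀ g ∈ L₃, ∃ b ∈ L₂, ∃ a ∈ L₁, g = b * a) :
    R1 V G q := by
  rcases le_total (orbit L₂ x₀).ncard (orbit L₁ x₀).ncard with h | h
  · exact grid' hq h1.le h2 h13 h23 hinf hprod h
  · refine grid' hq h2.le h1 h23 h13 (by rwa [inf_comm]) (fun g hg => ?_) h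
    obtain ⟨b, hb, a, ha, h3⟩ := hprod _ (L₃.inv_mem hg)
    exact ⟨a⁻¹, L₁.inv_mem ha, b⁻¹, L₂.inv_mem hb, by rw [← mul_inv_rev, ← h3, inv_inv]⟩

theorem prim_dich [Fintype V] [DecidableEq V] {q₀ q K : ℕ} (hP : PrimHyp q₀) (hq : q₀ ≤ q)
    (hK : K ≤ q) (y : V) (L : Subgroup G) (h : stabilizer G y ⋖ L) :
    (∃ M : V → ℕ, (∀ x, M x < q) ∧ ∀ g ∈ L, (∀ x ∈ orbit L y, M (g • x) = M x) →
      ∀ x ∈ orbit L y, g • x = x) ∨ (K < (orbit L y).ncard ∧ Ind L (orbit L y) (orbit L y)) := by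
  classical
  have hy : y ∈ orbit L y := mem_orbit_self y
  have fin : (∃ M : orbit L y → ℕ, (∀ x, M x < q) ∧ ∀ g : L, (∀ x, M (g • x) = M x) →
      ∀ x : orbit L y, g • x = x) → ∃ M : V → ℕ, (∀ x, M x < q) ∧ ∀ g ∈ L,
      (∀ x ∈ orbit L y, M (g • x) = M x) → ∀ x ∈ orbit L y, g • x = x := by
    rintro ⟨M, h1, h2⟩
    refine ⟨fun x => if h : x ∈ orbit L y then M ⟨x, h⟩ else M ⟨y, hy⟩, fun x => ?_,
      fun g hg hM x hx => congrArg Subtype.val (h2 ⟨g, hg⟩ (fun z => ?_) ⟨x, hx⟩)⟩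
    · beta_reduce; split_ifs <;> exact h1 _
    · have := hM z.1 z.2
      beta_reduce at this
      rw [dif_pos z.2, dif_pos (orb_inv g hg _ z.2)] at this
      exact this
  by_cases hc : (orbit L y).ncard ≤ K
  · refine Or.inl (fin ⟨fun x => (Finite.equivFin _ x : ℕ), fun x => ?_, fun g hg x => ?_⟩)
    · exact lt_of_lt_of_le (Finite.equivFin _ x).2
        ((Nat.card_coe_set_eq _).le.trans (hc.trans hK))
    · exact (Finite.equivFin _).injective (Fin.ext (hg x))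
  obtain ⟨l₀, hl₀, hl₀'⟩ := SetLike.exists_of_lt h.lt
  have hnt : Nontrivial (orbit L y) := ⟨⟨⟨y, hy⟩, ⟨l₀ • y, orb_inv _ hl₀ _ hy⟩,
    fun hh => hl₀' (congrArg Subtype.val hh).symm⟩⟩
  have hmem : ∀ g : L, g ∈ stabilizer L (⟨y, hy⟩ : orbit L y) ↔ g.1 ∈ stabilizer G y :=
    fun g => Subtype.ext_iff
  have hco : IsCoatom (stabilizer L (⟨y, hy⟩ : orbit L y)) := by
    refine ⟨fun hh => hl₀' ((hmem ⟨l₀, hl₀⟩).mp (hh ▸ Subgroup.mem_top _)), fun T hT => ?_⟩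
    obtain ⟨t, ht, ht'⟩ := SetLike.exists_of_lt hT
    rcases h.eq_or_eq (c := T.map L.subtype) (fun g hg =>
      ⟨⟨g, h.le hg⟩, hT.le ((hmem _).mpr hg), rfl⟩) (Subgroup.map_subtype_le T) with h1 | h1
    · exact absurd ((hmem t).mpr (h1 ▸ ⟨t, ht, rfl⟩)) ht'
    · rw [eq_top_iff]
      intro g _
      obtain ⟨s, hs, h2⟩ : g.1 ∈ T.map L.subtype := by rw [h1]; exact g.2
      rwa [← Subtype.ext h2]
  have hprim := (isCoatom_stabilizer_iff_preprimitive L _).mp hco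
  let φ := MulAction.toPermHom L (orbit L y)
  have hprim' : IsPreprimitive φ.range (orbit L y) :=
    IsPreprimitive.of_surjective (φ := φ.rangeRestrict)
      (f := ⟨id, fun _ _ => rfl⟩) Function.surjective_id
  by_cases hA : alternatingGroup (orbit L y) ≤ φ.range
  · refine Or.inr ⟨by omega, fun σ hσ => ?_⟩
    obtain ⟨τ, hτ⟩ := (altEquiv (orbit L y)).surjective ⟨σ, hσ⟩
    obtain ⟨g, hg⟩ := hA (by convert τ.2 : τ.1 ∈ _)
    refine ⟨g.1, g.2, fun x hx => ?_⟩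
    have h1 : σ = Perm.ofSubtype τ.1 := (congrArg Subtype.val hτ).symm
    rw [h1, ← hg]
    exact (Perm.ofSubtype_apply_coe (φ g) ⟨x, hx⟩).symm
  · obtain ⟨M, h1, h2⟩ := hP _ _ hprim' hA
    refine Or.inl (fin ⟨M, fun x => lt_of_lt_of_le (h1 x) hq, fun g hg x => ?_⟩)
    exact congrArg (fun π : Perm (orbit L y) => π x) (h2 (φ g) ⟨g, rfl⟩ hg)

end Pool.Agent.MP_88b4a2_lc
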