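import Mathlib

/-! Counting lemma: if the sum over non-identity elements of `Q ^ (-|supp g|)` is below one,
some colouring with `Q ^ 3` colours is fixed by no non-identity element. -/

namespace Pool.Agent.MP_88b4a2_lc

open Equiv Finset

/-- A large subset of the support that is moved off itself. -/
theorem exists_indep {B : Type} [Fintype B] [DecidableEq B] (g : Perm B) :
    ∃ T : Finset B, (∀ x ∈ T, g x ∉ T) ∧ g.support.card ≤ 3 * T.card := by
  classical
  obtain ⟨T, hT, hmax⟩ := Finset.exists_max_image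
    ((univ : Finset (Finset B)).filter (fun T => ∀ x ∈ T, g x ∉ T)) Finset.card ⟨∅, by simp⟩
  have hT' : ∀ x ∈ T, g x ∉ T := by simpa using hT
  refine ⟨T, hT', ?_⟩
  have hsub : g.support ⊆ T ∪ T.image g ∪ T.image g.symm := by
    intro z hz
    by_contra hcon
    simp only [mem_union, mem_image, not_or, not_exists, not_and] at hcon
    obtain ⟨⟨h1, h2⟩, h3⟩ := hcon
    have hz' : g z ≠ z := by simpa using hz
    have := hmax (insert z T) (by
      simp only [mem_filter, mem_univ, true_and, mem_insert, not_or]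
      rintro x (rfl | hx)
      · refine ⟨hz', fun h => h3 _ h (by simp)⟩
      · exact ⟨fun h => h2 _ hx h, hT' x hx⟩)
    rw [card_insert_of_notMem h1] at this
    omega
  calc g.support.card ≤ (T ∪ T.image g ∪ T.image g.symm).card := card_le_card hsub
    _ ≤ T.card + (T.image g).card + (T.image g.symm).card :=
        (card_union_le _ _).trans (by gcongr; exact card_union_le _ _)
    _ ≤ 3 * T.card := by
        have h1 := card_image_le (s := T) (f := g)
        have h2 := card_image_le (s := T) (f := g.symm)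
        omega

theorem card_fixed_le {B : Type} [Fintype B] [DecidableEq B] (g : Perm B) (Q : ℕ) (hQ : 0 < Q) :
    (univ.filter (fun M : B → Fin (Q ^ 3) => ∀ x, M (g x) = M x)).card * Q ^ g.support.card
      ≤ (Q ^ 3) ^ Fintype.card B := by
  classical
  obtain ⟨T, hT, hcard⟩ := exists_indep g
  have hinj : (univ.filter (fun M : B → Fin (Q ^ 3) => ∀ x, M (g x) = M x)).card
      ≤ (univ : Finset ({x // x ∉ T} → Fin (Q ^ 3))).card := by
    refine card_le_card_of_injOn (fun M x => M x.1) (by simp) ?_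
    intro M hM M' hM' h
    have hM1 : ∀ x, M (g x) = M x := by simpa using hM
    have hM2 : ∀ x, M' (g x) = M' x := by simpa using hM'
    funext x
    by_cases hx : x ∈ T
    · rw [← hM1 x, ← hM2 x]
      exact congrFun h ⟨g x, hT x hx⟩
    · exact congrFun h ⟨x, hx⟩
  have hc : Fintype.card {x // x ∉ T} = Fintype.card B - T.card := by
    rw [Fintype.card_subtype_compl]; simp
  simp only [card_univ, Fintype.card_fun, Fintype.card_fin, hc] at hinj
  have hle : T.card ≤ Fintype.card B := card_le_univ T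
  calc _ ≤ (Q ^ 3) ^ (Fintype.card B - T.card) * Q ^ (3 * T.card) :=
        Nat.mul_le_mul hinj (Nat.pow_le_pow_right hQ hcard)
    _ = (Q ^ 3) ^ Fintype.card B := by
        rw [pow_mul, ← pow_add, Nat.sub_add_cancel hle]

open Classical in
theorem rigid_of_sum {B : Type} [Fintype B] [DecidableEq B] (G : Subgroup (Perm B)) (Q : ℕ)
    (hQ : 0 < Q)
    (h : ∑ g ∈ univ.filter (fun g : Perm B => g ∈ G ∧ g ≠ 1), ((Q : ℝ) ^ g.support.card)⁻¹ < 1) :
    ∃ M : B → ℕ, (∀ x, M x < Q ^ 3) ∧ ∀ g ∈ G, (∀ x, M (g x) = M x) → g = 1 := by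
  by_contra hcon
  push Not at hcon
  have hcover : (univ : Finset (B → Fin (Q ^ 3))) ⊆
      (univ.filter (fun g : Perm B => g ∈ G ∧ g ≠ 1)).biUnion
        (fun g => univ.filter (fun M : B → Fin (Q ^ 3) => ∀ x, M (g x) = M x)) := by
    intro M _
    obtain ⟨g, hg, h1, h2⟩ := hcon (fun x => (M x : ℕ)) (fun x => (M x).2)
    simp only [mem_biUnion, mem_filter, mem_univ, true_and]
    exact ⟨g, ⟨hg, h2⟩, fun x => Fin.ext (h1 x)⟩
  have h1 := (card_le_card hcover).trans card_biUnion_le
  simp only [card_univ, Fintype.card_fun, Fintype.card_fin] at h1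
  have hQ' : (0 : ℝ) < Q := by exact_mod_cast hQ
  have hN : (0 : ℝ) < ((Q : ℝ) ^ 3) ^ Fintype.card B := by positivity
  have h2 : (((Q : ℝ) ^ 3) ^ Fintype.card B) ≤
      ∑ g ∈ univ.filter (fun g : Perm B => g ∈ G ∧ g ≠ 1),
        ((Q : ℝ) ^ 3) ^ Fintype.card B * ((Q : ℝ) ^ g.support.card)⁻¹ := by
    have h3 : ((((Q ^ 3) ^ Fintype.card B : ℕ)) : ℝ) ≤ _ := Nat.cast_le.mpr h1
    push_cast at h3
    refine h3.trans (sum_le_sum fun g _ => ?_)
    have h4 : (((univ.filter (fun M : B → Fin (Q ^ 3) => ∀ x, M (g x) = M x)).card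
        * Q ^ g.support.card : ℕ) : ℝ) ≤ (((Q ^ 3) ^ Fintype.card B : ℕ) : ℝ) :=
      Nat.cast_le.mpr (card_fixed_le g Q hQ)
    push_cast at h4
    rw [← div_eq_mul_inv, le_div_iff₀ (by positivity)]
    exact h4
  rw [← mul_sum] at h2
  nlinarith

end Pool.Agent.MP_88b4a2_lc
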