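import Mathlib

/-! The bijective pebble game on two groups. -/

namespace Pool.Agent.MP_88b4a2_lc

/-- The pebbled pairs form a map preserving and reflecting equality and products. -/
def IsoOnPebbles {G K : Type} [Group G] [Group K] {n : ℕ} (p : Fin n → Option (G × K)) : Prop :=
  (∀ i j a b, p i = some a → p j = some b → (a.1 = b.1 ↔ a.2 = b.2)) ∧
  ∀ i j l a b c, p i = some a → p j = some b → p l = some c →
    (a.1 * b.1 = c.1 ↔ a.2 * b.2 = c.2)

/-- Spoiler can force a win within `r` rounds from position `p`. -/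
def WinsIn {G K : Type} [Group G] [Group K] {n : ℕ} : ℕ → (Fin n → Option (G × K)) → Prop
  | 0, p => ¬ IsoOnPebbles p
  | r + 1, p => ¬ IsoOnPebbles p ∨
      ∃ i : Fin n, ∀ f : G ≃ K, ∃ g : G, WinsIn r (Function.update p i (some (g, f g)))

end Pool.Agent.MP_88b4a2_lc
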