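import Pool.Agent.MP_88b4a2_lc.Blocks

/-! Elements acting evenly on blocks, and the dichotomy between independence and partners. -/

namespace Pool.Agent.MP_88b4a2_lc

open Equiv Equiv.Perm MulAction

variable {V : Type} [Fintype V] [DecidableEq V] {G : Type} [Group G] [MulAction G V]

theorem Ind.conj {A B : Subgroup G} {β D : Set V} (h : Ind A β D) (g : G)
    (hB : ∀ a ∈ A, g * a * g⁻¹ ∈ B) : Ind B ((fun x => g • x) '' β) ((fun x => g • x) '' D) := by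
  intro σ hσ
  have h1 := AltOn.conj hσ (MulAction.toPerm g : Perm V)⁻¹
  have h2 : ((MulAction.toPerm g : Perm V)⁻¹ : Perm V) '' ((fun x => g • x) '' β) = β := by
    rw [Set.image_image]
    have : ∀ x : V, ((MulAction.toPerm g : Perm V)⁻¹ : Perm V) (g • x) = x := fun x =>
      (MulAction.toPerm g : Perm V).symm_apply_apply x
    simp [this]
  rw [h2] at h1
  obtain ⟨a, ha, h3⟩ := h _ h1
  refine ⟨_, hB a ha, ?_⟩
  rintro _ ⟨x, hx, rfl⟩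
  rw [mul_smul, inv_smul_smul, mul_smul, h3 x hx]
  exact (MulAction.toPerm g : Perm V).apply_symm_apply _

variable (G) in
/-- Elements acting on `β` as an even permutation of `β`. -/
def Ev (β : Set V) : Subgroup G where
  carrier := {k | ∃ σ ∈ AltOn β, Rz β k σ}
  one_mem' := ⟨1, (AltOn β).one_mem, fun x _ => by simp⟩
  mul_mem' := by
    rintro a b ⟨σ, hσ, h1⟩ ⟨τ, hτ, h2⟩
    exact ⟨σ * τ, (AltOn β).mul_mem hσ hτ, h1.mul h2 fun x hx => by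
      rw [h2 x hx]; exact (AltOn.mem_iff hτ x).mpr hx⟩
  inv_mem' := by
    rintro a ⟨σ, hσ, h1⟩
    refine ⟨σ⁻¹, (AltOn β).inv_mem hσ, fun x hx => ?_⟩
    have h2 := (AltOn.mem_iff ((AltOn β).inv_mem hσ) x).mpr hx
    rw [inv_smul_eq_iff, h1 _ h2]; simp

theorem Ev.inv {β : Set V} {k : G} (h : k ∈ Ev G β) : ∀ x ∈ β, k • x ∈ β := by
  obtain ⟨σ, hσ, h1⟩ := h
  intro x hx
  rw [h1 x hx]; exact (AltOn.mem_iff hσ x).mpr hx

theorem Ev.conj {β : Set V} {k : G} (h : k ∈ Ev G β) (g : G) :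
    g * k * g⁻¹ ∈ Ev G ((fun x => g • x) '' β) := by
  obtain ⟨σ, hσ, h1⟩ := h
  refine ⟨_, AltOn.conj hσ (MulAction.toPerm g), ?_⟩
  rintro _ ⟨x, hx, rfl⟩
  have : ((MulAction.toPerm g : Perm V)⁻¹ : Perm V) (g • x) = x :=
    (MulAction.toPerm g : Perm V).symm_apply_apply x
  rw [mul_smul, inv_smul_smul, mul_smul, h1 x hx, Perm.mul_apply, Perm.mul_apply, this]
  rfl

theorem Ev.comm {β : Set V} {A : Subgroup G} (hA : ∀ g ∈ A, ∀ x ∈ β, g • x ∈ β) {a b : G}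
    (ha : a ∈ A) (hb : b ∈ A) : a * b * a⁻¹ * b⁻¹ ∈ Ev G β := by
  classical
  have key : ∀ a ∈ A, ∃ σ : Perm V, (∀ x, x ∉ β → σ x = x) ∧ Rz β a σ := by
    intro a ha
    have h1 : ∀ x, (MulAction.toPerm a : Perm V) x ∈ β ↔ x ∈ β := fun x =>
      ⟨fun h => by simpa using hA _ (A.inv_mem ha) _ h, hA a ha x⟩
    exact ⟨Perm.ofSubtype ((MulAction.toPerm a : Perm V).subtypePerm h1),
      fun x hx => Perm.ofSubtype_apply_of_not_mem _ hx,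
      fun x hx => by rw [Perm.ofSubtype_apply_of_mem _ hx]; rfl⟩
  obtain ⟨σ, h1, h2⟩ := key a ha
  obtain ⟨τ, h3, h4⟩ := key b hb
  refine ⟨_, ⟨fun x hx => ?_, ?_⟩, Rz.comm hA ha hb h2 h4⟩
  · have e1 : σ⁻¹ x = x := by rw [Perm.inv_eq_iff_eq, h1 x hx]
    have e2 : τ⁻¹ x = x := by rw [Perm.inv_eq_iff_eq, h3 x hx]
    simp only [Perm.mul_apply, e1, e2, h1 x hx, h3 x hx]
  · simp only [map_mul, map_inv]
    rw [mul_comm (sign σ) (sign τ)]; group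

theorem Ind.comm {A : Subgroup G} {β D : Set V} (h : Ind A β D) (h4 : 4 ≤ β.ncard) (hβ : β ⊆ D)
    (hD : ∀ g ∈ A, ∀ x ∈ D, g • x ∈ D) :
    ∃ a ∈ A, ∃ b ∈ A, ∃ z ∈ β, (a * b * a⁻¹ * b⁻¹) • z ≠ z := by
  obtain ⟨z, hz, -⟩ := exists_not_mem_of_ncard (β := β) ∅ (by simp; omega)
  obtain ⟨w, hw, hw'⟩ := exists_not_mem_of_ncard (β := β) {z} (by simp; omega)
  obtain ⟨σ, hσ, h3⟩ := exists_map h4 hz hw
  have hwz : z ≠ w := by simpa [eq_comm] using hw'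
  obtain ⟨σ', hσ', h5, h6⟩ := exists_move_fix h4 hw hwz
  obtain ⟨a, ha, h7⟩ := h σ hσ
  obtain ⟨a', ha', h7'⟩ := h σ' hσ'
  refine ⟨a', ha', a, ha, w, hw, ?_⟩
  rw [Rz.comm hD ha' ha h7' h7 w (hβ hw)]
  have h9 : σ'⁻¹ z = z := by rw [Perm.inv_eq_iff_eq]; exact h6.symm
  have h10 : σ⁻¹ w = z := by rw [Perm.inv_eq_iff_eq]; exact h3.symm
  simp only [Perm.mul_apply, h9, h10, h3]
  exact h5

theorem Ind.sep {A : Subgroup G} {β D : Set V} (h : Ind A β D) (h4 : 4 ≤ β.ncard) (hβ : β ⊆ D)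
    {u v : V} (hu : u ∈ β) (hv : v ∈ D) (huv : ∀ k ∈ A, k • v = v → k • u = u) : v = u := by
  by_contra hne
  obtain ⟨σ, hσ, h1, h2⟩ := exists_move_fix h4 hu hne
  obtain ⟨k, hk, h3⟩ := h σ hσ
  exact h1 (by rw [← h3 u (hβ hu)]; exact huv k hk (by rw [h3 v hv, h2]))

theorem Ind.trans' {A : Subgroup G} {β D : Set V} (h : Ind A β D) (h4 : 4 ≤ β.ncard) (hβ : β ⊆ D)
    {u v : V} (hu : u ∈ β) (hv : v ∈ β) : ∃ k ∈ A, k • u = v := by
  obtain ⟨σ, hσ, h1⟩ := exists_map h4 hu hv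
  obtain ⟨k, hk, h3⟩ := h σ hσ
  exact ⟨k, hk, by rw [h3 u (hβ hu), h1]⟩

omit [Fintype V] [DecidableEq V] in
theorem IsCong.class_smul {r : V → V → Prop} (hr : IsCong G r) (g : G) (x : V) :
    {y | r (g • x) y} = (fun x => g • x) '' {y | r x y} := by
  ext y
  constructor
  · intro hy
    have := hr.smul g⁻¹ hy
    rw [inv_smul_smul] at this
    exact ⟨_, this, smul_inv_smul _ _⟩
  · rintro ⟨z, hz, rfl⟩; exact hr.smul g hz

/-- Elements of `N` acting evenly on the class of every point of `S`. -/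
def EvSub (r : V → V → Prop) (N : Subgroup G) (S : Set V) : Subgroup G where
  carrier := {k | k ∈ N ∧ ∀ x ∈ S, k ∈ Ev G {y | r x y}}
  one_mem' := ⟨N.one_mem, fun _ _ => (Ev G _).one_mem⟩
  mul_mem' := fun ha hb =>
    ⟨N.mul_mem ha.1 hb.1, fun x hx => (Ev G _).mul_mem (ha.2 x hx) (hb.2 x hx)⟩
  inv_mem' := fun ha => ⟨N.inv_mem ha.1, fun x hx => (Ev G _).inv_mem (ha.2 x hx)⟩

theorem EvSub_normal {r : V → V → Prop} (hr : IsCong G r) {L N : Subgroup G} {S : Set V}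
    (hn : ∀ a ∈ L, ∀ b ∈ N, a * b * a⁻¹ ∈ N) (hS : ∀ g ∈ L, ∀ x ∈ S, g • x ∈ S) :
    ∀ a ∈ L, ∀ b ∈ EvSub r N S, a * b * a⁻¹ ∈ EvSub r N S := by
  intro a ha b hb
  refine ⟨hn a ha b hb.1, fun x hx => ?_⟩
  have := Ev.conj (hb.2 _ (hS _ (L.inv_mem ha) x hx)) a
  rwa [← hr.class_smul, smul_inv_smul] at this

theorem ev_ind {r : V → V → Prop} (hr : IsCong G r) {N : Subgroup G} {S β D : Set V}
    (hN : ∀ k ∈ N, ∀ x ∈ S, r x (k • x)) (hS : ∀ g ∈ N, ∀ x ∈ S, g • x ∈ S)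
    (h5 : 5 ≤ β.ncard) (hInd : Ind N β D) (hβ : β ⊆ D) (hD : ∀ g ∈ N, ∀ x ∈ D, g • x ∈ D)
    (hβ' : ∀ g ∈ N, ∀ x ∈ β, g • x ∈ β) : Ind (EvSub r N S) β D := by
  obtain ⟨a, ha, b, hb, z, hz, h1⟩ := hInd.comm (by omega) hβ hD
  have h2 : a * b * a⁻¹ * b⁻¹ ∈ N :=
    N.mul_mem (N.mul_mem (N.mul_mem ha hb) (N.inv_mem ha)) (N.inv_mem hb)
  exact hInd.sub h5 (fun k hk => hk.1) (EvSub_normal hr
    (fun a ha b hb => N.mul_mem (N.mul_mem ha hb) (N.inv_mem ha)) hS) hD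
    ⟨h2, fun x hx => Ev.comm (A := N)
      (fun g hg y hy => hr.trans (hN g hg x hx) (hr.smul g hy)) ha hb⟩ hz h1 (Or.inl (hβ' _ h2))

theorem dich {q₀ K : ℕ} (hP : PrimHyp q₀) (hK : ∀ m, K < m → 2 * q₀ ^ m < (m - 1).factorial)
    (h5 : 5 ≤ K) {r : V → V → Prop} {P : Subgroup G} {S : Set V}
    (hev : ∀ k ∈ P, ∀ x ∈ S, k ∈ Ev G {y | r x y}) {z : V} (hz : z ∈ S)
    (h5z : 5 ≤ {y | r z y}.ncard) (hz' : Ind P {y | r z y} {y | r z y})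
    (hS : ∀ x ∈ S, (∀ k ∈ P, ∀ y, r x y → k • y = y) ∨
      (K < {y | r x y}.ncard ∧ Ind P {y | r x y} {y | r x y})) :
    Ind (Fx P {y | ∃ x ∈ S, ¬ r z x ∧ r x y}) {y | r z y} {y | r z y} ∨
      ∃ x ∈ S, ¬ r z x ∧ ∃ u v, r z u ∧ r x v ∧ (∃ k ∈ P, k • v ≠ v) ∧
        ∀ k ∈ P, k • v = v ↔ k • u = u := by
  classical
  by_cases h : ∀ x ∈ S, ¬ r z x → ∃ k ∈ P, (∀ y ∈ {y | r x y}, k • y = y) ∧
      ∃ w ∈ {y | r z y}, k • w ≠ w
  · left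
    have := scott h5z hz' (fun g hg => Ev.inv (hev g hg z hz)) (fun x => {y | r x y})
      (Finset.univ.filter fun x => x ∈ S ∧ ¬ r z x)
      (fun x hx g hg => Ev.inv (hev g hg x (by simp at hx; exact hx.1)))
      (fun x hx => by simp at hx; exact h x hx.1 hx.2)
    convert this using 2
    ext y; simp [and_assoc]
  · right
    push Not at h
    obtain ⟨x, hx, hzx, h1⟩ := h
    refine ⟨x, hx, hzx, ?_⟩
    rcases hS x hx with h2 | ⟨h2, h3⟩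
    · exfalso
      obtain ⟨a, ha, b, hb, w, hw, h3⟩ := hz'.comm (by omega) subset_rfl
        (fun g hg => Ev.inv (hev g hg z hz))
      have h4 : a * b * a⁻¹ * b⁻¹ ∈ P :=
        P.mul_mem (P.mul_mem (P.mul_mem ha hb) (P.inv_mem ha)) (P.inv_mem hb)
      exact h3 (h1 _ h4 (h2 _ h4) w hw)
    · obtain ⟨-, h4⟩ := partner hP h3 (fun k hk => hev k hk x hx) hz'
        (fun g hg => Ev.inv (hev g hg z hz)) h1 h5z (by omega) (hK _ h2)
      obtain ⟨v, hv, -⟩ := exists_not_mem_of_ncard (β := {y | r x y}) ∅ (by simp; omega)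
      obtain ⟨w, hw, hw'⟩ := exists_not_mem_of_ncard (β := {y | r x y}) {v} (by simp; omega)
      obtain ⟨k, hk, h6⟩ := h3.trans' (by omega) subset_rfl hv hw
      obtain ⟨u, hu, h7⟩ := h4 v hv
      exact ⟨u, v, hu, hv, ⟨k, hk, by rw [h6]; simpa using hw'⟩, h7⟩

theorem triv_of_small [Finite G] {X : Type} [MulAction G X] {P : Subgroup G} {O : Set V}
    {D : Set X} (hfin : D.Finite) (h5 : 5 ≤ O.ncard) (hInd : Ind P O O) (hev : P ≤ Ev G O)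
    (hD : ∀ k ∈ P, ∀ x ∈ D, k • x ∈ D) (hker : ∀ k ∈ P, (∀ c ∈ O, k • c = c) → ∀ x ∈ D, k • x = x)
    (hlt : D.ncard < O.ncard) : ∀ k ∈ P, ∀ x ∈ D, k • x = x := by
  intro k hk x hx
  have huniq : ∀ (g : G) (σ τ : AltOn O), Rz O g σ.1 → Rz O g τ.1 → σ = τ := by
    intro g σ τ h1 h2
    ext c
    by_cases hc : c ∈ O
    · rw [← h1 c hc, ← h2 c hc]
    · rw [σ.2.1 c hc, τ.2.1 c hc]
  have hex : ∀ g : P, ∃ σ : AltOn O, Rz O g.1 σ.1 := fun g => by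
    obtain ⟨σ, h1, h2⟩ := hev g.2
    exact ⟨⟨σ, h1⟩, h2⟩
  choose ψ₀ hψ using hex
  let ψ : P →* AltOn O := MonoidHom.mk' ψ₀ fun a b =>
    huniq _ _ _ (hψ (a * b)) ((hψ a).mul (hψ b) (Ev.inv (hev b.2)))
  have hsurj : Function.Surjective ψ := fun σ => by
    obtain ⟨g, hg, h1⟩ := hInd σ.1 σ.2
    exact ⟨⟨g, hg⟩, huniq _ _ _ (hψ _) h1⟩
  have h1 : (stabilizer P x).index ≤ D.ncard := by
    rw [MulAction.index_stabilizer]
    refine Set.ncard_le_ncard ?_ hfin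
    rintro _ ⟨g, rfl⟩
    exact hD g.1 g.2 x hx
  have h2 := Nat.le_of_dvd (Nat.pos_of_ne_zero Subgroup.index_ne_zero_of_finite)
    (Subgroup.index_map_dvd (stabilizer P x) hsurj)
  have h3 : (stabilizer P x).map ψ = ⊤ := by
    by_contra hc
    have := altOn_index h5 _ hc
    omega
  obtain ⟨k', hk', h4⟩ : ψ ⟨k, hk⟩ ∈ (stabilizer P x).map ψ := h3 ▸ Subgroup.mem_top _
  have h6 := hker (k'.1⁻¹ * k) (P.mul_mem (P.inv_mem k'.2) hk) (fun c hc => by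
    have h7 : ψ₀ k' = ψ₀ ⟨k, hk⟩ := h4
    rw [mul_smul, inv_smul_eq_iff, hψ k' c hc, h7]
    exact hψ ⟨k, hk⟩ c hc) x hx
  rw [mul_smul, inv_smul_eq_iff] at h6
  exact h6.trans hk'

end Pool.Agent.MP_88b4a2_lc
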