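import Mathlib

/-! A bijection preserving fibre sizes descends to a bijection of the bases. -/

namespace Pool.Agent.MP_88b4a2_lc

open Finset

theorem sum_inv_fibre {X Y : Type} [Fintype X] [Fintype Y] [DecidableEq Y] (p : X → Y)
    (hp : Function.Surjective p) (S : Finset Y) :
    ∑ x ∈ univ.filter (fun x => p x ∈ S), (({y | p y = p x} : Set X).ncard : ℚ)⁻¹ = S.card := by
  classical
  rw [← Finset.sum_fiberwise_of_maps_to (s := univ.filter (fun x => p x ∈ S)) (t := S) (g := p)
    (fun x hx => by simpa using hx), card_eq_sum_ones, Nat.cast_sum]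
  refine sum_congr rfl fun y hy => ?_
  have h1 : (univ.filter (fun x => p x ∈ S)).filter (fun x => p x = y)
      = univ.filter (fun x => p x = y) := by
    ext x; simp only [mem_filter, mem_univ, true_and]
    exact ⟨fun h => h.2, fun h => ⟨h ▸ hy, h⟩⟩
  have h2 : ({x | p x = y} : Set X).ncard = (univ.filter (fun x => p x = y)).card := by
    rw [← Set.ncard_coe_finset]; congr 1; ext x; simp
  have h3 : (univ.filter (fun x => p x = y)).card ≠ 0 := by
    obtain ⟨x, hx⟩ := hp y
    exact card_ne_zero.mpr ⟨x, by simp [hx]⟩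
  rw [h1, sum_congr rfl (g := fun _ => ((univ.filter (fun x => p x = y)).card : ℚ)⁻¹)
    (fun x hx => by rw [(mem_filter.mp hx).2, h2]), sum_const, nsmul_eq_mul]
  rw [mul_inv_cancel₀ (by exact_mod_cast h3)]; simp

theorem hall_fibre {X X' Y Y' : Type} [Finite X] [Finite X'] [Finite Y] [Finite Y']
    (p : X → Y) (p' : X' → Y') (hp : Function.Surjective p) (hp' : Function.Surjective p')
    (b : X ≃ X')
    (h : ∀ x, ({y | p y = p x} : Set X).ncard = ({y | p' y = p' (b x)} : Set X').ncard) :
    ∃ c : Y ≃ Y', ∀ y, ∃ x, p x = y ∧ p' (b x) = c y := by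
  classical
  have := Fintype.ofFinite X
  have := Fintype.ofFinite X'
  have := Fintype.ofFinite Y
  have := Fintype.ofFinite Y'
  let t : Y → Finset Y' := fun y => (univ.filter (fun x => p x = y)).image (fun x => p' (b x))
  have key : ∀ (S : Finset Y) (S' : Finset Y'), (∀ x, p x ∈ S → p' (b x) ∈ S') →
      S.card ≤ S'.card := by
    intro S S' hS
    have h1 := sum_inv_fibre p hp S
    have h2 := sum_inv_fibre p' hp' S'
    have h3 : ∑ x ∈ univ.filter (fun x => p x ∈ S), (({y | p y = p x} : Set X).ncard : ℚ)⁻¹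
        = ∑ x' ∈ (univ.filter (fun x => p x ∈ S)).map b.toEmbedding,
          (({y | p' y = p' x'} : Set X').ncard : ℚ)⁻¹ := by
      rw [sum_map]; exact sum_congr rfl fun x _ => by rw [h x]; rfl
    have h4 : ∑ x' ∈ (univ.filter (fun x => p x ∈ S)).map b.toEmbedding,
          (({y | p' y = p' x'} : Set X').ncard : ℚ)⁻¹ ≤
        ∑ x ∈ univ.filter (fun x => p' x ∈ S'), (({y | p' y = p' x} : Set X').ncard : ℚ)⁻¹ := by
      refine sum_le_sum_of_subset_of_nonneg ?_ (fun _ _ _ => by positivity)
      intro x' hx'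
      obtain ⟨x, hx, rfl⟩ := mem_map.mp hx'
      simpa using hS x (by simpa using hx)
    have : (S.card : ℚ) ≤ S'.card := by rw [← h1, ← h2, h3]; exact h4
    exact_mod_cast this
  obtain ⟨f, hf, hft⟩ := (Finset.all_card_le_biUnion_card_iff_exists_injective t).mp (fun S =>
    key S _ fun x hx => mem_biUnion.mpr ⟨p x, hx, mem_image.mpr ⟨x, by simp, rfl⟩⟩)
  have hcard : Fintype.card Y = Fintype.card Y' := by
    have h1 := sum_inv_fibre p hp univ
    have h2 := sum_inv_fibre p' hp' univ
    simp only [mem_univ, filter_true, card_univ] at h1 h2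
    have h3 := Fintype.sum_equiv b (fun x => (({y | p y = p x} : Set X).ncard : ℚ)⁻¹)
      (fun x => (({y | p' y = p' x} : Set X').ncard : ℚ)⁻¹) (fun x => by rw [h x])
    have : (Fintype.card Y : ℚ) = Fintype.card Y' := by rw [← h1, ← h2, h3]
    exact_mod_cast this
  refine ⟨Equiv.ofBijective f ((Fintype.bijective_iff_injective_and_card f).mpr ⟨hf, hcard⟩),
    fun y => ?_⟩
  obtain ⟨x, hx, h1⟩ := mem_image.mp (hft y)
  exact ⟨x, by simpa using hx, h1⟩

/-- A numbering of the points inside each class of an equivalence relation. -/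
theorem exists_omega {V : Type} [Finite V] {r : V → V → Prop} (hr : Equivalence r) :
    ∃ ω : V → ℕ, (∀ x y, r x y → ω x = ω y → x = y) ∧ (∀ x, ω x < {y | r x y}.ncard) ∧
      ∀ x n, n < {y | r x y}.ncard → ∃ y, r x y ∧ ω y = n := by
  classical
  let s : Setoid V := ⟨r, hr⟩
  let F : ∀ c : Quotient s, {y // Quotient.mk s y = c} ≃ Fin (Nat.card {y // Quotient.mk s y = c}) :=
    fun c => Finite.equivFin _
  let ω : V → ℕ := fun x => (F (Quotient.mk s x) ⟨x, rfl⟩).val
  have hω : ∀ c y (h : Quotient.mk s y = c), ω y = (F c ⟨y, h⟩).val := by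
    rintro c y rfl; rfl
  have hc : ∀ x, Nat.card {y // Quotient.mk s y = Quotient.mk s x} = {y | r x y}.ncard := by
    intro x
    rw [← Nat.card_coe_set_eq]
    exact Nat.card_congr (Equiv.subtypeEquivRight fun y =>
      ⟨fun h => hr.symm (Quotient.exact h), fun h => Quotient.sound (hr.symm h)⟩)
  refine ⟨ω, fun x y hxy h => ?_, fun x => ?_, fun x n hn => ?_⟩
  · have h1 : Quotient.mk s y = Quotient.mk s x := Quotient.sound (hr.symm hxy)
    rw [hω _ x rfl, hω _ y h1] at h
    exact congrArg Subtype.val ((F _).injective (Fin.ext h))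
  · rw [← hc]; exact (F _ _).2
  · rw [← hc] at hn
    obtain ⟨⟨y, hy⟩, h⟩ := (F (Quotient.mk s x)).surjective ⟨n, hn⟩
    exact ⟨y, hr.symm (Quotient.exact hy), by rw [hω _ y hy, h]⟩

end Pool.Agent.MP_88b4a2_lc
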