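import Pool.Agent.MP_88b4a2_lc.Alt

/-! Groups inducing the alternating group on a block. -/

namespace Pool.Agent.MP_88b4a2_lc

open Equiv Equiv.Perm

variable {V : Type} [Fintype V] [DecidableEq V] {G : Type} [Group G] [MulAction G V]

/-- `g` acts on `D` as `σ`. -/
def Rz (D : Set V) (g : G) (σ : Perm V) : Prop := ∀ x ∈ D, g • x = σ x

/-- Every even permutation of `β` is induced on `D` by an element of `A`. -/
def Ind (A : Subgroup G) (β D : Set V) : Prop := ∀ σ ∈ AltOn β, ∃ g ∈ A, Rz D g σ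

omit [Fintype V] [DecidableEq V] in
theorem Rz.mul {D : Set V} {g h : G} {σ τ : Perm V} (hg : Rz D g σ) (hh : Rz D h τ)
    (hD : ∀ x ∈ D, h • x ∈ D) : Rz D (g * h) (σ * τ) := fun x hx => by
  rw [mul_smul, hg _ (hD x hx), hh x hx, Perm.mul_apply]

omit [Fintype V] [DecidableEq V] in
theorem Rz.inv {D : Set V} {g : G} {σ : Perm V} (hg : Rz D g σ)
    (hD : ∀ x ∈ D, g⁻¹ • x ∈ D) : Rz D g⁻¹ σ⁻¹ := fun x hx => by
  have := hg _ (hD x hx)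
  rw [smul_inv_smul] at this
  rw [eq_comm, Perm.inv_eq_iff_eq]; exact this

omit [Fintype V] [DecidableEq V] in
theorem Rz.comm {D : Set V} {A : Subgroup G} (hD : ∀ g ∈ A, ∀ x ∈ D, g • x ∈ D) {g h : G}
    {σ τ : Perm V} (hgA : g ∈ A) (hhA : h ∈ A) (hg : Rz D g σ) (hh : Rz D h τ) :
    Rz D (g * h * g⁻¹ * h⁻¹) (σ * τ * σ⁻¹ * τ⁻¹) :=
  (((hg.mul hh (hD _ hhA)).mul (hg.inv (hD _ (A.inv_mem hgA))) (hD _ (A.inv_mem hgA))).mul
    (hh.inv (hD _ (A.inv_mem hhA))) (hD _ (A.inv_mem hhA)))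

theorem Ind.mono {A B : Subgroup G} {β D D' : Set V} (h : Ind A β D) (hAB : A ≤ B)
    (hD : D' ⊆ D) : Ind B β D' := fun σ hσ => by
  obtain ⟨g, hg, h1⟩ := h σ hσ
  exact ⟨g, hAB hg, fun x hx => h1 x (hD hx)⟩

theorem Ind.of_rz {A B : Subgroup G} {β D : Set V} (h5 : 5 ≤ β.ncard) (hA : Ind A β D)
    (hBA : B ≤ A) (hn : ∀ a ∈ A, ∀ b ∈ B, a * b * a⁻¹ ∈ B) (hD : ∀ g ∈ A, ∀ x ∈ D, g • x ∈ D)
    {b : G} (hb : b ∈ B) {τ : Perm V} (hτ : τ ∈ AltOn β) (hτ1 : τ ≠ 1) (hbτ : Rz D b τ) :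
    Ind B β D := by
  let T : Subgroup (Perm V) :=
    { carrier := {σ | σ ∈ AltOn β ∧ ∃ g ∈ B, Rz D g σ}
      one_mem' := ⟨(AltOn β).one_mem, 1, B.one_mem, fun x _ => by simp⟩
      mul_mem' := by
        rintro σ τ ⟨h1, g, hg, h2⟩ ⟨h3, h, hh, h4⟩
        exact ⟨(AltOn β).mul_mem h1 h3, g * h, B.mul_mem hg hh, h2.mul h4 (hD _ (hBA hh))⟩
      inv_mem' := by
        rintro σ ⟨h1, g, hg, h2⟩
        exact ⟨(AltOn β).inv_mem h1, g⁻¹, B.inv_mem hg, h2.inv (hD _ (hBA (B.inv_mem hg)))⟩ }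
  have := altOn_full h5 T (fun σ hσ => hσ.1) (by
    rintro σ hσ ρ ⟨h1, g, hg, h2⟩
    obtain ⟨a, ha, h3⟩ := hA σ hσ
    refine ⟨(AltOn β).mul_mem ((AltOn β).mul_mem hσ h1) ((AltOn β).inv_mem hσ), a * g * a⁻¹,
      hn a ha g hg, ?_⟩
    exact (h3.mul h2 (hD _ (hBA hg))).mul (h3.inv (hD _ (A.inv_mem ha))) (hD _ (A.inv_mem ha)))
    ⟨τ, ⟨hτ, b, hb, hbτ⟩, hτ1⟩
  exact fun σ hσ => (this hσ).2

theorem Ind.sub {A B : Subgroup G} {β D : Set V} (h5 : 5 ≤ β.ncard) (hA : Ind A β D)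
    (hBA : B ≤ A) (hn : ∀ a ∈ A, ∀ b ∈ B, a * b * a⁻¹ ∈ B) (hD : ∀ g ∈ A, ∀ x ∈ D, g • x ∈ D)
    {b : G} (hb : b ∈ B) {z : V} (hz : z ∈ β) (hbz : b • z ≠ z)
    (hblk : (∀ x ∈ β, b • x ∈ β) ∨ ∀ x ∈ β, b • x ∉ β) : Ind B β D := by
  have hcomm : ∀ a ∈ A, ∀ c ∈ B, a * c * a⁻¹ * c⁻¹ ∈ B := fun a ha c hc =>
    B.mul_mem (hn a ha c hc) (B.inv_mem hc)
  set τ : Perm V := MulAction.toPerm b with hτ
  have hbτ : Rz D b τ := fun x _ => rfl
  have hτx : ∀ x, τ x = b • x := fun x => rfl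
  rcases hblk with h | h
  · have himg : τ '' β = β := by
      refine Set.eq_of_subset_of_ncard_le ?_ ?_ (Set.toFinite _)
      · rintro _ ⟨x, hx, rfl⟩; exact h x hx
      · rw [Set.ncard_image_of_injective _ τ.injective]
    obtain ⟨σ, hσ, h1, h2⟩ := exists_move_fix (β := β) (by omega) (h z hz) hbz.symm
    obtain ⟨a, ha, h3⟩ := hA σ hσ
    have h4 := AltOn.conj ((AltOn β).inv_mem hσ) τ
    rw [himg] at h4
    refine hA.of_rz h5 hBA hn hD (hcomm a ha b hb) (τ := σ * τ * σ⁻¹ * τ⁻¹) ?_ ?_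
      (Rz.comm hD ha (hBA hb) h3 hbτ)
    · have := (AltOn β).mul_mem hσ h4
      simpa only [mul_assoc] using this
    · intro hc
      have h5' := congrArg (fun ρ : Perm V => ρ (τ z)) hc
      have h6 : σ⁻¹ z = z := by rw [Perm.inv_eq_iff_eq]; exact h2.symm
      have h7 : τ⁻¹ (τ z) = z := by simp
      simp only [Perm.mul_apply, h7, h6, Perm.one_apply] at h5'
      exact h1 h5'
  · obtain ⟨w, hw, hw'⟩ := exists_not_mem_of_ncard (β := β) {z} (by simp; omega)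
    obtain ⟨σ, hσ, h1⟩ := exists_map (β := β) (by omega) hz hw
    have hwz : z ≠ w := by simpa [eq_comm] using hw'
    obtain ⟨σ', hσ', h2, h3⟩ := exists_move_fix (β := β) (by omega) hw hwz
    obtain ⟨a, ha, h4⟩ := hA σ hσ
    obtain ⟨a', ha', h4'⟩ := hA σ' hσ'
    have h6 := AltOn.conj ((AltOn β).inv_mem hσ) τ
    set ς := τ * σ⁻¹ * τ⁻¹ with hς
    have hdis : ∀ ρ ∈ AltOn β, Commute ρ ς := fun ρ hρ => by
      refine Perm.Disjoint.commute fun x => ?_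
      by_cases hx : x ∈ β
      · right
        refine h6.1 x ?_
        rintro ⟨y, hy, rfl⟩
        exact h y hy hx
      · left; exact hρ.1 x hx
    have h7 := Rz.comm hD ha' (hBA (hcomm a ha b hb)) h4' (Rz.comm hD ha (hBA hb) h4 hbτ)
    have h8 : σ' * (σ * τ * σ⁻¹ * τ⁻¹) * σ'⁻¹ * (σ * τ * σ⁻¹ * τ⁻¹)⁻¹ = σ' * σ * σ'⁻¹ * σ⁻¹ := by
      have e1 : σ * τ * σ⁻¹ * τ⁻¹ = σ * ς := by simp only [hς, mul_assoc]
      have e2 := (hdis _ ((AltOn β).inv_mem hσ')).eq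
      rw [e1, mul_inv_rev]
      calc σ' * (σ * ς) * σ'⁻¹ * (ς⁻¹ * σ⁻¹) = σ' * σ * (ς * σ'⁻¹) * ς⁻¹ * σ⁻¹ := by group
        _ = σ' * σ * (σ'⁻¹ * ς) * ς⁻¹ * σ⁻¹ := by rw [e2]
        _ = _ := by group
    rw [h8] at h7
    refine hA.of_rz h5 hBA hn hD (hcomm a' ha' _ (hcomm a ha b hb)) ?_ ?_ h7
    · exact (AltOn β).mul_mem ((AltOn β).mul_mem ((AltOn β).mul_mem hσ' hσ)
        ((AltOn β).inv_mem hσ')) ((AltOn β).inv_mem hσ)
    · intro hc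
      have h5' := congrArg (fun ρ : Perm V => ρ w) hc
      have h9 : σ'⁻¹ z = z := by rw [Perm.inv_eq_iff_eq]; exact h3.symm
      have h10 : σ⁻¹ w = z := by rw [Perm.inv_eq_iff_eq]; exact h1.symm
      simp only [Perm.mul_apply, h9, h10, h1, Perm.one_apply] at h5'
      exact h2 h5'

/-- Elements of `P` fixing `S` pointwise. -/
def Fx (P : Subgroup G) (S : Set V) : Subgroup G where
  carrier := {k | k ∈ P ∧ ∀ x ∈ S, k • x = x}
  one_mem' := ⟨P.one_mem, fun x _ => one_smul _ x⟩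
  mul_mem' := by
    rintro a b ⟨ha, ha'⟩ ⟨hb, hb'⟩
    exact ⟨P.mul_mem ha hb, fun x hx => by rw [mul_smul, hb' x hx, ha' x hx]⟩
  inv_mem' := by
    rintro a ⟨ha, ha'⟩
    exact ⟨P.inv_mem ha, fun x hx => by rw [inv_smul_eq_iff, ha' x hx]⟩

omit [Fintype V] [DecidableEq V] in
theorem Fx_normal {P : Subgroup G} {S : Set V} (hS : ∀ g ∈ P, ∀ x ∈ S, g • x ∈ S) :
    ∀ a ∈ P, ∀ b ∈ Fx P S, a * b * a⁻¹ ∈ Fx P S := by
  rintro a ha b ⟨hb, hb'⟩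
  refine ⟨P.mul_mem (P.mul_mem ha hb) (P.inv_mem ha), fun x hx => ?_⟩
  rw [mul_smul, mul_smul, hb' _ (hS _ (P.inv_mem ha) x hx), smul_inv_smul]

theorem scott_two {P : Subgroup G} {β S T : Set V} (h5 : 5 ≤ β.ncard) (hP : Ind P β β)
    (hβ : ∀ g ∈ P, ∀ x ∈ β, g • x ∈ β) (hS : ∀ g ∈ P, ∀ x ∈ S, g • x ∈ S)
    (hT : ∀ g ∈ P, ∀ x ∈ T, g • x ∈ T) (h1 : Ind (Fx P S) β β) (h2 : Ind (Fx P T) β β) :
    Ind (Fx P (S ∪ T)) β β := by
  obtain ⟨z, hz, -⟩ := exists_not_mem_of_ncard (β := β) ∅ (by simp; omega)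
  obtain ⟨w, hw, hw'⟩ := exists_not_mem_of_ncard (β := β) {z} (by simp; omega)
  obtain ⟨σ, hσ, h3⟩ := exists_map (β := β) (by omega) hz hw
  have hwz : z ≠ w := by simpa [eq_comm] using hw'
  obtain ⟨σ', hσ', h4, h6⟩ := exists_move_fix (β := β) (by omega) hw hwz
  obtain ⟨a, ha, h7⟩ := h1 σ hσ
  obtain ⟨a', ha', h7'⟩ := h2 σ' hσ'
  have h8 := Rz.comm hβ ha'.1 ha.1 h7' h7
  have hmem : a' * a * a'⁻¹ * a⁻¹ ∈ Fx P (S ∪ T) := by
    have e1 : a' * a * a'⁻¹ * a⁻¹ ∈ Fx P S :=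
      (Fx P S).mul_mem (Fx_normal hS a' ha'.1 a ha) ((Fx P S).inv_mem ha)
    have e2 : a' * (a * a'⁻¹ * a⁻¹) ∈ Fx P T :=
      (Fx P T).mul_mem ha' (Fx_normal hT a ha.1 _ ((Fx P T).inv_mem ha'))
    refine ⟨e1.1, ?_⟩
    rintro x (hx | hx)
    · exact e1.2 x hx
    · have := e2.2 x hx
      simpa only [mul_assoc] using this
  refine hP.sub h5 (fun k hk => hk.1) (Fx_normal ?_) hβ hmem hw ?_ (Or.inl (hβ _ hmem.1))
  · rintro g hg x (hx | hx)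
    · exact Or.inl (hS g hg x hx)
    · exact Or.inr (hT g hg x hx)
  · rw [h8 w hw]
    have h9 : σ'⁻¹ z = z := by rw [Perm.inv_eq_iff_eq]; exact h6.symm
    have h10 : σ⁻¹ w = z := by rw [Perm.inv_eq_iff_eq]; exact h3.symm
    simp only [Perm.mul_apply, h9, h10, h3]
    exact h4

/-- Scott-type lemma. -/
theorem scott {P : Subgroup G} {β : Set V} (h5 : 5 ≤ β.ncard) (hP : Ind P β β)
    (hβ : ∀ g ∈ P, ∀ x ∈ β, g • x ∈ β) (C : V → Set V) (E : Finset V)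
    (hC : ∀ y ∈ E, ∀ g ∈ P, ∀ x ∈ C y, g • x ∈ C y)
    (hker : ∀ y ∈ E, ∃ k ∈ P, (∀ x ∈ C y, k • x = x) ∧ ∃ z ∈ β, k • z ≠ z) :
    Ind (Fx P (⋃ y ∈ E, C y)) β β := by
  induction E using Finset.induction_on with
  | empty => exact hP.mono (fun k hk => ⟨hk, by simp⟩) subset_rfl
  | insert y E hy ih =>
    have ih' := ih (fun y hy => hC y (Finset.mem_insert_of_mem hy))
      (fun y hy => hker y (Finset.mem_insert_of_mem hy))
    obtain ⟨k, hk, h1, z, hz, h2⟩ := hker y (Finset.mem_insert_self _ _)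
    have hCy := hC y (Finset.mem_insert_self _ _)
    have h3 : Ind (Fx P (C y)) β β :=
      hP.sub h5 (fun k hk => hk.1) (Fx_normal hCy) hβ (b := k) ⟨hk, h1⟩ hz h2 (Or.inl (hβ _ hk))
    rw [Finset.set_biUnion_insert]
    refine scott_two h5 hP hβ hCy ?_ h3 ih'
    intro g hg x hx
    simp only [Set.mem_iUnion] at hx ⊢
    obtain ⟨y', hy', hx⟩ := hx
    exact ⟨y', hy', hC y' (Finset.mem_insert_of_mem hy') g hg x hx⟩

/-- An invariant equivalence relation. -/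
structure IsCong (G : Type) [Group G] [MulAction G V] (r : V → V → Prop) : Prop where
  refl : ∀ x, r x x
  symm : ∀ {x y}, r x y → r y x
  trans : ∀ {x y z}, r x y → r y z → r x z
  smul : ∀ (g : G) {x y}, r x y → r (g • x) (g • y)

/-- Elements of `P` fixing the class of each point of `S`. -/
def ClsFx {r : V → V → Prop} (hr : IsCong G r) (P : Subgroup G) (S : Set V) : Subgroup G where
  carrier := {k | k ∈ P ∧ ∀ x ∈ S, r x (k • x)}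
  one_mem' := ⟨P.one_mem, fun x _ => by rw [one_smul]; exact hr.refl x⟩
  mul_mem' := by
    rintro a b ⟨ha, ha'⟩ ⟨hb, hb'⟩
    exact ⟨P.mul_mem ha hb, fun x hx => by
      rw [mul_smul]; exact hr.trans (ha' x hx) (hr.smul a (hb' x hx))⟩
  inv_mem' := by
    rintro a ⟨ha, ha'⟩
    refine ⟨P.inv_mem ha, fun x hx => ?_⟩
    have := hr.smul a⁻¹ (ha' x hx)
    rw [inv_smul_smul] at this
    exact hr.symm this

omit [Fintype V] [DecidableEq V] in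
theorem ClsFx_normal {r : V → V → Prop} (hr : IsCong G r) {P : Subgroup G} {S : Set V}
    (hS : ∀ g ∈ P, ∀ x ∈ S, g • x ∈ S) :
    ∀ a ∈ P, ∀ b ∈ ClsFx hr P S, a * b * a⁻¹ ∈ ClsFx hr P S := by
  rintro a ha b ⟨hb, hb'⟩
  refine ⟨P.mul_mem (P.mul_mem ha hb) (P.inv_mem ha), fun x hx => ?_⟩
  have := hr.smul a (hb' _ (hS _ (P.inv_mem ha) x hx))
  rwa [smul_inv_smul, ← mul_smul, ← mul_smul] at this

omit [Fintype V] [DecidableEq V] in
theorem IsCong.block {r : V → V → Prop} (hr : IsCong G r) (b : G) (z : V) :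
    (∀ x ∈ {y | r z y}, b • x ∈ {y | r z y}) ∨ ∀ x ∈ {y | r z y}, b • x ∉ {y | r z y} := by
  by_cases h : r z (b • z)
  · exact Or.inl fun x hx => hr.trans h (hr.smul b hx)
  · exact Or.inr fun x hx hc => h (hr.trans hc (hr.symm (hr.smul b hx)))

theorem chain_step {r : V → V → Prop} (hr : IsCong G r) {L P A : Subgroup G} {D : Set V}
    (hPL : P ≤ L) (hAP : A ≤ P) (hnP : ∀ a ∈ L, ∀ b ∈ P, a * b * a⁻¹ ∈ P)
    (hnA : ∀ a ∈ P, ∀ b ∈ A, a * b * a⁻¹ ∈ A) (hD : ∀ g ∈ L, ∀ x ∈ D, g • x ∈ D)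
    (hInd : ∀ x ∈ D, 5 ≤ {y | r x y}.ncard ∧ Ind L {y | r x y} D)
    {b : G} (hb : b ∈ A) {z : V} (hz : z ∈ D) (hbz : b • z ≠ z) :
    ∃ k ∈ A, (∀ x ∈ D, r x (k • x)) ∧ k • z ≠ z := by
  obtain ⟨h5, h1⟩ := hInd z hz
  have h2 := h1.sub h5 hPL hnP hD (hAP hb) (hr.refl z) hbz (hr.block b z)
  have h3 := h2.sub h5 hAP hnA (fun g hg => hD g (hPL hg)) hb (hr.refl z) hbz (hr.block b z)
  obtain ⟨w, hw, hw'⟩ := exists_not_mem_of_ncard (β := {y | r z y}) {z} (by simp; omega)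
  obtain ⟨σ, hσ, h4⟩ := exists_map (β := {y | r z y}) (by omega) (hr.refl z) hw
  obtain ⟨k, hk, h6⟩ := h3 σ hσ
  refine ⟨k, hk, fun x hx => ?_, ?_⟩
  · rw [h6 x hx]
    by_cases hx' : x ∈ {y | r z y}
    · exact hr.trans (hr.symm hx') ((AltOn.mem_iff hσ x).mpr hx')
    · rw [hσ.1 x hx']; exact hr.refl x
  · rw [h6 z hz, h4]; simpa using hw'

theorem chain {r : V → V → Prop} (hr : IsCong G r) {P : Subgroup G} (D : V → Set V)
    (L : V → Subgroup G) (E : Set V) (s : Finset V)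
    (hPL : ∀ a ∈ s, P ≤ L a) (hnP : ∀ a ∈ s, ∀ g ∈ L a, ∀ b ∈ P, g * b * g⁻¹ ∈ P)
    (hD : ∀ a ∈ s, ∀ g ∈ L a, ∀ x ∈ D a, g • x ∈ D a) (hE : ∀ a ∈ s, D a ⊆ E)
    (hInd : ∀ a ∈ s, ∀ x ∈ D a, 5 ≤ {y | r x y}.ncard ∧ Ind (L a) {y | r x y} (D a))
    (hb : ∃ b ∈ P, ∃ z ∈ E, b • z ≠ z) :
    ∃ k ∈ P, (∀ a ∈ s, ∀ x ∈ D a, r x (k • x)) ∧ ∃ z ∈ E, k • z ≠ z := by
  induction s using Finset.induction_on with
  | empty => obtain ⟨b, h1, h2⟩ := hb; exact ⟨b, h1, by simp, h2⟩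
  | insert a s ha ih =>
    have m1 := Finset.mem_insert_self a s
    obtain ⟨k, hk, h1, z, hz, h2⟩ := ih (fun a h => hPL a (Finset.mem_insert_of_mem h))
      (fun a h => hnP a (Finset.mem_insert_of_mem h))
      (fun a h => hD a (Finset.mem_insert_of_mem h))
      (fun a h => hE a (Finset.mem_insert_of_mem h))
      (fun a h => hInd a (Finset.mem_insert_of_mem h))
    by_cases h3 : ∀ x ∈ D a, k • x = x
    · refine ⟨k, hk, ?_, z, hz, h2⟩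
      intro a' ha' x hx
      rcases Finset.mem_insert.mp ha' with rfl | ha'
      · rw [h3 x hx]; exact hr.refl x
      · exact h1 a' ha' x hx
    · push Not at h3
      obtain ⟨x0, hx0, h3⟩ := h3
      have hS : ∀ g ∈ P, ∀ x ∈ (⋃ a ∈ s, D a), g • x ∈ (⋃ a ∈ s, D a) := by
        intro g hg x hx
        simp only [Set.mem_iUnion] at hx ⊢
        obtain ⟨a', ha', hx⟩ := hx
        have m2 := Finset.mem_insert_of_mem (b := a) ha'
        exact ⟨a', ha', hD a' m2 g (hPL a' m2 hg) x hx⟩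
      obtain ⟨k', hk', h4, h5⟩ := chain_step hr (A := ClsFx hr P (⋃ a ∈ s, D a)) (hPL a m1)
        (fun k hk => hk.1) (hnP a m1) (ClsFx_normal hr hS) (hD a m1) (hInd a m1) (b := k)
        ⟨hk, fun x hx => by
          simp only [Set.mem_iUnion] at hx
          obtain ⟨a', ha', hx⟩ := hx
          exact h1 a' ha' x hx⟩ hx0 h3
      refine ⟨k', hk'.1, ?_, x0, hE a m1 hx0, h5⟩
      intro a' ha' x hx
      rcases Finset.mem_insert.mp ha' with rfl | ha'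
      · exact h4 x hx
      · exact hk'.2 x (Set.mem_biUnion ha' hx)

end Pool.Agent.MP_88b4a2_lc
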