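import Mathlib

/-! An abstract back-and-forth system with point, set and vector moves. -/

namespace Pool.Agent.MP_88b4a2_lc

/-- Positions are lists of moves `ω : Ω`; `W` are the positions good for Duplicator;
`Pt ω j j'` says that the move `ω` marks the pair of points `j`, `j'`. -/
structure Sys (J J' Ω : Type) (κ : ℕ) where
  W : List Ω → Prop
  Pt : Ω → J → J' → Prop
  m : J → ℕ
  m' : J' → ℕ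
  Λ : ℕ → AddSubgroup (J → ℤ)
  Λ' : ℕ → AddSubgroup (J' → ℤ)
  m_pos : ∀ j, 0 < m j
  Λ_mono : Monotone Λ
  mem_Λ : ∀ i v, (∀ j, (m j : ℤ) ∣ v j) → v ∈ Λ i
  mem_Λ' : ∀ i v, (∀ j, (m' j : ℤ) ∣ v j) → v ∈ Λ' i
  mono : ∀ l l', l ⊆ l' → W l' → W l
  pt_m : ∀ ω j j', W [ω] → Pt ω j j' → m j = m' j'
  pt_eq : ∀ ω ω' j j' i i', W [ω, ω'] → Pt ω j j' → Pt ω' i i' → (j = i ↔ j' = i')
  extPt : ∀ l, W l → l.length ≤ κ → ∃ b : J ≃ J', ∀ j, ∃ ω, Pt ω j (b j) ∧ W (ω :: l)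
  extSet : ∀ l, W l → l.length ≤ κ → ∀ S : Set J, ∃ (S' : Set J') (ω : Ω), W (ω :: l) ∧
    ∀ ω' j j', W [ω, ω'] → Pt ω' j j' → (j ∈ S ↔ j' ∈ S')
  extVec : ∀ l, W l → l.length ≤ κ → ∀ a : J → ℤ, ∃ (a' : J' → ℤ) (ω : Ω), W (ω :: l) ∧
    (∀ i, a ∈ Λ i → a' ∈ Λ' i) ∧ ∀ ω' j j', W [ω, ω'] → Pt ω' j j' → a j ≡ a' j' [ZMOD m j]
  extVec' : ∀ l, W l → l.length ≤ κ → ∀ a' : J' → ℤ, ∃ (a : J → ℤ) (ω : Ω), W (ω :: l) ∧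
    (∀ i, a' ∈ Λ' i → a ∈ Λ i) ∧ ∀ ω' j j', W [ω, ω'] → Pt ω' j j' → a j ≡ a' j' [ZMOD m j]

/-- The abstract theorem for the bound `κ`. -/
def SysThm (κ : ℕ) : Prop :=
  ∀ (J J' Ω : Type) [Finite J] [Finite J'] (S : Sys J J' Ω κ), S.W [] →
    ∃ σ : J ≃ J', (∀ j, ∃ ω, S.Pt ω j (σ j) ∧ S.W [ω]) ∧
      ∀ i (v : J' → ℤ), (fun j => v (σ j)) ∈ S.Λ i ↔ v ∈ S.Λ' i

end Pool.Agent.MP_88b4a2_lc
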