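import Pool.Agent.MP_88b4a2_lc.Even

/-! The structure of one orbit when the first reduction does not apply. -/

namespace Pool.Agent.MP_88b4a2_lc

open Equiv Equiv.Perm MulAction

variable {V : Type} [Fintype V] [DecidableEq V] {G : Type} [Group G] [Finite G] [MulAction G V]

omit [Fintype V] [DecidableEq V] [Finite G] in
theorem sim_smul {L P : Subgroup G} (hn : ∀ a ∈ L, ∀ b ∈ P, a * b * a⁻¹ ∈ P) {g : G} (hg : g ∈ L)
    {a b : V} (h : ∀ k ∈ P, k • a = a ↔ k • b = b) :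
    ∀ k ∈ P, k • g • a = g • a ↔ k • g • b = g • b := by
  intro k hk
  have := h _ (hn _ (L.inv_mem hg) k hk)
  simpa only [inv_inv, mul_smul, inv_smul_eq_iff] using this

omit [Fintype V] [DecidableEq V] [Finite G] in
theorem rel_mem {x₀ : V} {L L' : Subgroup G} (hA : stabilizer G x₀ ≤ L) (h : L ≤ L') {x y : V}
    (hx : x ∈ orbit L' x₀) (hxy : rel x₀ L x y) : y ∈ orbit L' x₀ := by
  obtain ⟨g, hg, rfl⟩ := mem_orb.mp hx
  obtain ⟨l, hl, rfl⟩ := (rel_iff' hA _ _).mp hxy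
  exact mem_orb.mpr ⟨_, L'.mul_mem hg (h hl), rfl⟩

omit [Finite G] in
theorem ind_class {x₀ : V} {L₁ L₂ L' : Subgroup G} (hA : stabilizer G x₀ ≤ L₁) (h12 : L₁ ≤ L₂)
    (h2 : L₂ ≤ L') (hI : Ind L₂ (orbit L₁ x₀) (orbit L₂ x₀)) {a x : V} (ha : a ∈ orbit L' x₀)
    (hx : rel x₀ L₂ a x) :
    Ind (ClsFx (rel_cong (hA.trans h12)) L' {a}) {y | rel x₀ L₁ x y} {y | rel x₀ L₂ a y} := by
  have hr := rel_cong (hA.trans h12)
  obtain ⟨g, hg, rfl⟩ := mem_orb.mp (rel_mem (hA.trans h12) h2 ha hx)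
  have e : {y | rel x₀ L₂ a y} = {y | rel x₀ L₂ (g • x₀) y} :=
    Set.ext fun y => ⟨hr.trans (hr.symm hx), hr.trans hx⟩
  rw [e, rel_class hA, rel_class (hA.trans h12)]
  refine hI.conj g fun l hl => ⟨L'.mul_mem (L'.mul_mem hg (h2 hl)) (L'.inv_mem hg), ?_⟩
  rintro _ rfl
  refine hr.trans hx (hr.trans ?_ (hr.smul _ (hr.symm hx)))
  rw [← mul_smul, rel_iff (hA.trans h12)]
  simpa [mul_assoc] using hl

theorem case_nontriv {q₀ K q : ℕ} (hP : PrimHyp q₀)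
    (hK : ∀ m, K < m → 2 * q₀ ^ m < (m - 1).factorial) (h5 : 5 ≤ K) (hq : 2 ≤ q)
    {x₀ : V} {L₁ L' : Subgroup G} (hA : stabilizer G x₀ < L₁) (h1 : L₁ ≤ L')
    (hβ : K < (orbit L₁ x₀).ncard) (hI : Ind L₁ (orbit L₁ x₀) (orbit L₁ x₀))
    (hno : ¬ Ind L' (orbit L₁ x₀) (orbit L' x₀))
    (hk : ∃ k ∈ ClsFx (rel_cong hA.le) L' (orbit L' x₀), ∃ z ∈ orbit L' x₀, k • z ≠ z) :
    R1 V G q := by
  have hr := rel_cong hA.le
  set r := rel x₀ L₁ with hrdef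
  set N := ClsFx hr L' (orbit L' x₀) with hN
  have hNn : ∀ a ∈ L', ∀ b ∈ N, a * b * a⁻¹ ∈ N := ClsFx_normal hr orb_inv
  have hx₀ : x₀ ∈ orbit L' x₀ := mem_orbit_self x₀
  have hcard : ∀ x ∈ orbit L' x₀, K < {y | r x y}.ncard := fun x hx => by
    obtain ⟨g, -, rfl⟩ := mem_orb.mp hx
    rwa [rel_ncard hA.le]
  have hP' : ∀ x ∈ orbit L' x₀, Ind (EvSub r N (orbit L' x₀)) {y | r x y} {y | r x y} := by
    intro x hx
    have hinv : ∀ g ∈ ClsFx hr L' {x}, ∀ y ∈ {y | r x y}, g • y ∈ {y | r x y} :=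
      fun g hg y hy => hr.trans (hg.2 x rfl) (hr.smul g hy)
    have hle : N ≤ ClsFx hr L' {x} := fun k hk => ⟨hk.1, by rintro _ rfl; exact hk.2 _ hx⟩
    obtain ⟨k, hk, z, hz, h2⟩ := hk
    obtain ⟨g, hg, rfl⟩ := mem_orb.mp hz
    obtain ⟨h, hh, rfl⟩ := mem_orb.mp hx
    have h3 := hNn _ (L'.mul_mem hh (L'.inv_mem hg)) k hk
    have h4 := (ind_class hA.le le_rfl h1 hI hx (hr.refl _)).sub (h5.trans (hcard _ hx).le) hle
      (fun a ha => hNn a ha.1) hinv h3 (hr.refl _) (by simpa [mul_smul, inv_smul_eq_iff] using h2)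
      (Or.inl (hinv _ (hle h3)))
    exact ev_ind hr (fun k hk => hk.2) (fun g hg => orb_inv g hg.1) (by have := hcard _ hx; omega)
      h4 subset_rfl (fun g hg => hinv g (hle hg)) (fun g hg => hinv g (hle hg))
  set P := EvSub r N (orbit L' x₀) with hPdef
  have hPn : ∀ a ∈ L', ∀ b ∈ P, a * b * a⁻¹ ∈ P := EvSub_normal hr hNn orb_inv
  have hcl : {y | r x₀ y} = orbit L₁ x₀ := rel_class_one hA.le
  rcases dich hP hK h5 (r := r) (P := P) (S := orbit L' x₀) (fun k hk => hk.2) hx₀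
    (by have := hcard _ hx₀; omega) (hP' _ hx₀) (fun x hx => Or.inr ⟨hcard x hx, hP' x hx⟩)
    with h | ⟨x, hx, h2, u, v, hu, hv, -, huv⟩
  · refine absurd (fun σ hσ => ?_) hno
    obtain ⟨k, hk, h3⟩ := h σ (hcl ▸ hσ)
    refine ⟨k, hk.1.1.1, fun y hy => ?_⟩
    by_cases hy' : r x₀ y
    · exact h3 y hy'
    · rw [hk.2 y ⟨y, hy, hy', hr.refl y⟩, hσ.1 y (by rw [← hcl]; exact hy')]
  · have htr : ∀ g ∈ L', ∀ y, r (g • x₀) y → ∃ k ∈ P, k • g • x₀ = y := fun g hg y hy =>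
      (hP' _ (orb_inv g hg _ hx₀)).trans' (by have := hcard _ (orb_inv g hg _ hx₀); omega)
        subset_rfl (hr.refl _) hy
    let L₄ : Subgroup G :=
      { carrier := {g | g ∈ L' ∧ ∀ k ∈ P, k • x₀ = x₀ ↔ k • g • x₀ = g • x₀}
        one_mem' := ⟨L'.one_mem, by simp⟩
        mul_mem' := fun {a b} ha hb => ⟨L'.mul_mem ha.1 hb.1, fun k hk => by
          rw [ha.2 k hk, mul_smul]; exact sim_smul hPn ha.1 hb.2 k hk⟩
        inv_mem' := fun {a} ha => ⟨L'.inv_mem ha.1, fun k hk => by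
          have := sim_smul hPn (L'.inv_mem ha.1) ha.2 k hk
          rw [inv_smul_smul] at this; exact this.symm⟩ }
    let L₃ : Subgroup G :=
      { carrier := {g | g ∈ L' ∧ ∃ y, r x₀ y ∧ ∀ k ∈ P, k • y = y ↔ k • g • x₀ = g • x₀}
        one_mem' := ⟨L'.one_mem, x₀, hr.refl _, by simp⟩
        mul_mem' := by
          rintro a b ⟨ha, y, h3, h4⟩ ⟨hb, y', h6, h7⟩
          obtain ⟨k, hk, h8⟩ := htr a ha _ (hr.smul a h6)
          refine ⟨L'.mul_mem ha hb, k • y, hr.trans (hk.1.2 _ hx₀) (hr.smul k h3), fun k' hk' => ?_⟩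
          rw [sim_smul hPn hk.1.1 h4 k' hk', h8, mul_smul]
          exact sim_smul hPn ha h7 k' hk'
        inv_mem' := by
          rintro a ⟨ha, y, h3, h4⟩
          obtain ⟨k, hk, h8⟩ := htr _ (L'.inv_mem ha) _ (hr.smul a⁻¹ h3)
          have h9 := P.inv_mem hk
          refine ⟨L'.inv_mem ha, k⁻¹ • x₀, h9.1.2 _ hx₀, fun k' hk' => ?_⟩
          have := sim_smul hPn h9.1.1 (sim_smul hPn (L'.inv_mem ha) h4) k' hk'
          rw [← h8, inv_smul_smul, inv_smul_smul] at this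
          exact this.symm }
    obtain ⟨l, hl, rfl⟩ := mem_orb.mp (hcl ▸ hu : u ∈ orbit L₁ x₀)
    obtain ⟨h, hh, rfl⟩ := mem_orb.mp (rel_mem hA.le h1 hx hv)
    have hdiv : ∀ l ∈ L₁, ∀ g ∈ L', (∀ k ∈ P, k • l • x₀ = l • x₀ ↔ k • g • x₀ = g • x₀) →
        l⁻¹ * g ∈ L₄ := fun l hl g hg h3 =>
      ⟨L'.mul_mem (L'.inv_mem (h1 hl)) hg, fun k hk => by
        have := sim_smul hPn (L'.inv_mem (h1 hl)) h3 k hk
        rwa [inv_smul_smul, ← mul_smul l⁻¹ g] at this⟩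
    have hA4 : stabilizer G x₀ ≤ L₄ := fun g hg => ⟨h1 (hA.le hg), fun k _ => by rw [hg]⟩
    refine grid hq (L₁ := L₄) (L₂ := L₁) (L₃ := L₃) (lt_of_le_of_ne hA4 fun hc => ?_) hA
      (fun g hg => ⟨hg.1, x₀, hr.refl _, hg.2⟩)
      (fun g hg => ⟨h1 hg, g • x₀, by
        have : g • x₀ ∈ {y | r x₀ y} := by rw [hcl]; exact mem_orb.mpr ⟨g, hg, rfl⟩
        exact this, fun _ _ => Iff.rfl⟩) ?_ ?_
    · have h3 := hdiv l hl h hh fun k hk => (huv k hk).symm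
      rw [← hc, mem_stabilizer_iff, mul_smul, inv_smul_eq_iff] at h3
      exact h2 (hr.trans hu (h3 ▸ hr.symm hv))
    · rintro g ⟨hg4, hg1⟩
      refine (hP' _ hx₀).sep (by have := hcard _ hx₀; omega) subset_rfl (hr.refl _) ?_
        fun k hk => (hg4.2 k hk).mpr
      rw [hcl]; exact mem_orb.mpr ⟨g, hg1, rfl⟩
    · rintro g ⟨hg, y, h3, h4⟩
      obtain ⟨l', hl', rfl⟩ := mem_orb.mp (hcl ▸ h3 : y ∈ orbit L₁ x₀)
      exact ⟨l', hl', _, hdiv l' hl' g hg h4, by simp⟩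

theorem case_triv {q₀ K q : ℕ} (hP : PrimHyp q₀) (h5 : 5 ≤ K) (hq : q₀ ≤ q) (hKq : K ≤ q)
    {x₀ : V} {L₁ L₂ L' : Subgroup G} (hA : stabilizer G x₀ < L₁) (h12 : L₁ ≤ L₂) (h2 : L₂ ⋖ L')
    (hβ : K < (orbit L₁ x₀).ncard) (hI : Ind L₂ (orbit L₁ x₀) (orbit L₂ x₀))
    (hk : ∀ k ∈ ClsFx (rel_cong hA.le) L' (orbit L' x₀), ∀ z ∈ orbit L' x₀, k • z = z) :
    R1 V G q := by
  classical
  have hr := rel_cong hA.le
  have hA2 := hA.le.trans h12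
  have hr₂ := rel_cong hA2
  have hK₂ : ∀ g ∈ L', (∀ x ∈ orbit L' x₀, rel x₀ L₂ x (g • x)) →
      ∀ x ∈ orbit L' x₀, g • x = x := by
    intro g hg hg' x hx
    by_contra hne
    obtain ⟨k, hk1, hk2, z, hz, hk3⟩ := chain hr (P := ClsFx hr₂ L' (orbit L' x₀))
      (fun a => {y | rel x₀ L₂ a y}) (fun a => ClsFx hr₂ L' {a}) (orbit L' x₀)
      (Finset.univ.filter fun a => a ∈ orbit L' x₀)
      (fun a ha k hk => ⟨hk.1, by rintro _ rfl; exact hk.2 _ (by simpa using ha)⟩)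
      (fun a _ g hg => ClsFx_normal hr₂ orb_inv g hg.1)
      (fun a _ g hg y hy => hr₂.trans (hg.2 a rfl) (hr₂.smul g hy))
      (fun a ha y hy => rel_mem hA2 h2.le (by simpa using ha) hy)
      (fun a ha y hy => ⟨by
        obtain ⟨g, -, rfl⟩ := mem_orb.mp (rel_mem hA2 h2.le (by simpa using ha) hy)
        rw [rel_ncard hA.le]; omega, ind_class hA.le h12 h2.le hI (by simpa using ha) hy⟩)
      ⟨g, ⟨hg, hg'⟩, x, hx, hne⟩
    exact hk3 (hk k ⟨hk1.1, fun y hy => hk2 y (by simpa using hy) y (hr₂.refl y)⟩ z hz)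
  have hmem : ∀ g ∈ L', (g : G ⧸ L₂) ∈ orbit L' ((1 : G) : G ⧸ L₂) := fun g hg =>
    mem_orb.mpr ⟨g, hg, by simp⟩
  have hK₃ : ∀ g ∈ L', (∀ c ∈ orbit L' ((1 : G) : G ⧸ L₂), g • c = c) →
      ∀ x ∈ orbit L' x₀, g • x = x := fun g hg hg' => hK₂ g hg fun x hx => by
    obtain ⟨h, hh, rfl⟩ := mem_orb.mp hx
    rw [← mul_smul, rel_iff hA2, ← QuotientGroup.eq]
    exact (hg' _ (hmem h hh)).symm
  have := Fintype.ofFinite (G ⧸ L₂)
  rcases prim_dich hP hq hKq ((1 : G) : G ⧸ L₂) L' (by rwa [stabilizer_quotient]) with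
    ⟨M, hM, hrig⟩ | ⟨hn, hO⟩
  · refine transport hA (h12.trans h2.le) (fun x => M (cos x₀ L₂ x)) (fun x => hM _)
      fun g hg hgM x hx _ => hK₃ g hg (hrig g hg fun c hc => ?_) x hx
    obtain ⟨h, hh, rfl⟩ := mem_orb.mp hc
    have := hgM _ (mem_orb.mpr ⟨h, hh, rfl⟩)
    rw [← mul_smul, cos_smul hA2, cos_smul hA2] at this
    simpa using this
  by_cases hsm : (orbit L' ((1 : G) : G ⧸ L₂)).ncard ≤ (orbit L₂ x₀).ncard + 1
  · obtain ⟨M, hM, hrig⟩ := count_label hA2 h2.le hsm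
    exact transport hA (h12.trans h2.le) M (fun x => lt_of_lt_of_le (hM x) (by omega))
      fun g hg hgM x hx _ => hK₂ g hg (hrig g hg hgM) x hx
  exfalso
  have h1O : ((1 : G) : G ⧸ L₂) ∈ orbit L' ((1 : G) : G ⧸ L₂) := mem_orbit_self _
  have hOi : ∀ g ∈ L', ∀ c ∈ orbit L' ((1 : G) : G ⧸ L₂), g • c ∈ orbit L' ((1 : G) : G ⧸ L₂) :=
    orb_inv
  replace hn : K < (orbit L' ((1 : G) : G ⧸ L₂)).ncard := hn
  replace hO : Ind L' (orbit L' ((1 : G) : G ⧸ L₂)) (orbit L' ((1 : G) : G ⧸ L₂)) := hO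
  generalize orbit L' ((1 : G) : G ⧸ L₂) = O at *
  have hn' : (O \ {((1 : G) : G ⧸ L₂)}).ncard + 1 = O.ncard :=
    Set.ncard_sdiff_singleton_add_one h1O
  have hst : ∀ g : G, g ∈ L₂ ↔ g • ((1 : G) : G ⧸ L₂) = ((1 : G) : G ⧸ L₂) := fun g => by
    rw [← mem_stabilizer_iff, stabilizer_quotient]
  have h3 := triv_of_small (P := L₂ ⊓ Ev G (O \ {((1 : G) : G ⧸ L₂)}))
    (O := O \ {((1 : G) : G ⧸ L₂)}) (D := orbit L₂ x₀) (Set.toFinite _) (by omega)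
    (fun σ hσ => by
      obtain ⟨k, hk1, hk2⟩ := hO σ ⟨fun c hc => hσ.1 c fun h => hc h.1, hσ.2⟩
      have e : Rz (O \ {((1 : G) : G ⧸ L₂)}) k σ := fun c hc => hk2 c hc.1
      exact ⟨k, ⟨(hst k).mpr (by rw [hk2 _ h1O, hσ.1 _ (by simp)]), σ, hσ, e⟩, e⟩)
    inf_le_right (fun k hk => orb_inv k hk.1)
    (fun k hk hk' x hx => hK₃ k (h2.le hk.1) (fun c hc => by
      by_cases hc' : c = ((1 : G) : G ⧸ L₂)
      · rw [hc']; exact (hst k).mp hk.1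
      · exact hk' c ⟨hc, hc'⟩) x (orb_mono h2.le _ hx)) (by omega)
  obtain ⟨a, ha, b, hb, z, hz, h4⟩ := hI.comm (by omega) (orb_mono h12 _) orb_inv
  refine h4 (h3 _ ⟨L₂.mul_mem (L₂.mul_mem (L₂.mul_mem ha hb) (L₂.inv_mem ha)) (L₂.inv_mem hb),
    Ev.comm (A := L₂) (β := O \ {((1 : G) : G ⧸ L₂)}) (fun g hg c hc => ?_) ha hb⟩
    z (orb_mono h12 _ hz))
  exact ⟨hOi g (h2.le hg) c hc.1, fun h => hc.2
    (smul_left_cancel g (Eq.trans h ((hst g).mp hg).symm))⟩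

theorem local_struct {q₀ K q : ℕ} (hP : PrimHyp q₀)
    (hK : ∀ m, K < m → 2 * q₀ ^ m < (m - 1).factorial) (h5 : 5 ≤ K) (hq : q₀ ≤ q) (hKq : K ≤ q)
    (hR : ¬ R1 V G q) (x₀ : V) (hx : stabilizer G x₀ ≠ ⊤) :
    ∃ L : Subgroup G, stabilizer G x₀ ≤ L ∧ K < (orbit L x₀).ncard ∧
      Ind (⊤ : Subgroup G) (orbit L x₀) (orbit (⊤ : Subgroup G) x₀) := by
  obtain ⟨L₁, h1, -⟩ := exists_covBy_le_of_lt (lt_top_iff_ne_top.mpr hx)
  rcases prim_dich hP hq hKq x₀ L₁ h1 with ⟨M, hM, hrig⟩ | ⟨hβ, hI⟩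
  · exact absurd (transport h1.lt le_rfl M hM fun g hg hgM x hx _ => hrig g hg hgM x hx) hR
  refine ⟨L₁, h1.le, hβ, ?_⟩
  by_contra hc
  obtain ⟨L', ⟨h2, h3⟩, hmin⟩ := (wellFounded_lt (α := Subgroup G)).has_min
    {L' | L₁ ≤ L' ∧ ¬ Ind L' (orbit L₁ x₀) (orbit L' x₀)} ⟨⊤, le_top, hc⟩
  obtain ⟨L₂, h4, h6⟩ := exists_le_covBy_of_lt (lt_of_le_of_ne h2 fun h => h3 (h ▸ hI))
  have h7 : Ind L₂ (orbit L₁ x₀) (orbit L₂ x₀) := by
    by_contra h8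
    exact hmin L₂ ⟨h4, h8⟩ h6.lt
  apply hR
  by_cases hk : ∀ k ∈ ClsFx (rel_cong h1.le) L' (orbit L' x₀), ∀ z ∈ orbit L' x₀, k • z = z
  · exact case_triv hP h5 hq hKq h1.lt h4 h6 hβ h7 hk
  · push Not at hk
    exact case_nontriv hP hK h5 (by omega) h1.lt h2 hβ hI h3 hk

end Pool.Agent.MP_88b4a2_lc
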