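import Pool.Agent.MP_88b4a2_lc.Local
import Pool.Agent.MP_88b4a2_lc.Jobs.TwoTrans
import Pool.Agent.MP_88b4a2_lc.Jobs.UniPrim

/-! Existence of tame colourings with a bounded number of colours. -/

namespace Pool.Agent.MP_88b4a2_lc

open Equiv Equiv.Perm MulAction

variable {V : Type} [Fintype V] [DecidableEq V] {G : Type} [Group G] [Finite G] [MulAction G V]

omit [Fintype V] [DecidableEq V] [Finite G] in
theorem mem_orb_top {x y : V} : y ∈ orbit (⊤ : Subgroup G) x ↔ ∃ g : G, g • x = y := by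
  simp [mem_orb]

theorem exists_global {q₀ K q : ℕ} (hP : PrimHyp q₀)
    (hK : ∀ m, K < m → 2 * q₀ ^ m < (m - 1).factorial) (h5 : 5 ≤ K) (hq : q₀ ≤ q) (hKq : K ≤ q)
    (hR : ¬ R1 V G q) : ∃ r : V → V → Prop, IsCong G r ∧ (∀ x y, r x y → ∃ g : G, g • x = y) ∧
      ∀ x, (∃ g : G, g • x ≠ x) → K < {y | r x y}.ncard ∧
        Ind (⊤ : Subgroup G) {y | r x y} (orbit (⊤ : Subgroup G) x) := by
  have h1 : ∀ x₀ : V, ∃ L : Subgroup G, stabilizer G x₀ ≤ L ∧ (stabilizer G x₀ ≠ ⊤ →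
      K < (orbit L x₀).ncard ∧ Ind (⊤ : Subgroup G) (orbit L x₀) (orbit (⊤ : Subgroup G) x₀)) := by
    intro x₀
    by_cases h : stabilizer G x₀ = ⊤
    · exact ⟨⊤, le_top, fun h' => absurd h h'⟩
    · obtain ⟨L, h1, h2⟩ := local_struct hP hK h5 hq hKq hR x₀ h
      exact ⟨L, h1, fun _ => h2⟩
  choose L hL1 hL2 using h1
  let ρ : V → V := fun x => (Quotient.mk (orbitRel G V) x).out
  have hρ1 : ∀ x, ∃ g : G, g • ρ x = x := fun x =>
    (orbitRel G V).symm (Quotient.mk_out (s := orbitRel G V) x)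
  have hρ2 : ∀ (g : G) x, ρ (g • x) = ρ x := fun g x => by
    have : Quotient.mk (orbitRel G V) (g • x) = Quotient.mk (orbitRel G V) x :=
      Quotient.sound ⟨g, rfl⟩
    simp only [ρ, this]
  have horb : ∀ x y, rel (ρ x) (L (ρ x)) x y → ∃ g : G, g • x = y := by
    rintro x y (rfl | ⟨g, h, h1, h2, -⟩)
    · exact ⟨1, one_smul _ _⟩
    · exact ⟨h * g⁻¹, by rw [mul_smul, h2, smul_left_cancel_iff, inv_smul_eq_iff]; exact h1⟩
  have hρ3 : ∀ x y, rel (ρ x) (L (ρ x)) x y → ρ y = ρ x := fun x y h => by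
    obtain ⟨g, rfl⟩ := horb x y h
    exact hρ2 g x
  refine ⟨fun x y => rel (ρ x) (L (ρ x)) x y, ⟨fun x => Or.inl rfl, fun {x y} h => ?_,
    fun {x y z} h h' => ?_, fun g x y h => ?_⟩, horb, fun x hx => ?_⟩
  · rw [hρ3 x y h]; exact (rel_cong (hL1 _)).symm h
  · rw [hρ3 x y h] at h'; exact (rel_cong (hL1 _)).trans h h'
  · rw [hρ2]; exact (rel_cong (hL1 _)).smul g h
  · obtain ⟨g, hg⟩ := hρ1 x
    obtain ⟨k, hk⟩ := hx
    obtain ⟨h2, h3⟩ := hL2 (ρ x) fun h => hk (by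
      have : g⁻¹ * k * g ∈ stabilizer G (ρ x) := h ▸ Subgroup.mem_top _
      rwa [mem_stabilizer_iff, mul_smul, mul_smul, inv_smul_eq_iff, hg] at this)
    have e : {y | rel (ρ x) (L (ρ x)) x y} = (fun x => g • x) '' orbit (L (ρ x)) (ρ x) := by
      rw [← rel_class (hL1 _), hg]
    beta_reduce
    rw [e, Set.ncard_image_of_injective _ (MulAction.injective g)]
    refine ⟨h2, (h3.conj g fun _ _ => Subgroup.mem_top _).mono le_rfl fun y hy => ?_⟩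
    obtain ⟨a, rfl⟩ := mem_orb_top.mp hy
    exact ⟨(g⁻¹ * a * g) • ρ x, mem_orb_top.mpr ⟨_, rfl⟩, by simp [mul_smul, hg]⟩

omit [Finite G] in
theorem r3_of_ind (hPS : PStar V G) {r : V → V → Prop} (hr : IsCong G r) {z : V}
    (h5 : 5 ≤ {y | r z y}.ncard) (h : ∀ σ ∈ AltOn {y | r z y}, ∃ g : G, ∀ x, g • x = σ x) :
    R3 V G := by
  classical
  have key : ∀ (g : G) (σ : Perm {y | r z y}), (∀ x, g • x = Perm.ofSubtype σ x) ↔
      Realz (fun p : {y | r z y} × Unit => p.1.1) g σ := by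
    intro g σ
    constructor
    · intro h1
      refine ⟨fun i _ => by rw [h1, Perm.ofSubtype_apply_coe], fun x hx => ?_⟩
      rw [h1, Perm.ofSubtype_apply_of_not_mem _ fun hc => hx ⟨(⟨x, hc⟩, ()), rfl⟩]
    · rintro ⟨h1, h2⟩ x
      by_cases hx : x ∈ {y | r z y}
      · rw [Perm.ofSubtype_apply_of_mem _ hx]; exact h1 ⟨x, hx⟩ ()
      · rw [Perm.ofSubtype_apply_of_not_mem _ hx]
        exact h2 x (by rintro ⟨p, rfl⟩; exact hx p.1.2)
  have h1 := hPS {y | r z y} Unit (fun p => p.1.1) (fun p p' hp => Prod.ext (Subtype.ext hp) rfl)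
    (by rwa [← Nat.card_eq_fintype_card, Nat.card_coe_set_eq]) (fun σ hσ => by
      obtain ⟨g, hg⟩ := h (Perm.ofSubtype σ)
        ⟨fun x hx => Perm.ofSubtype_apply_of_not_mem _ hx, by rw [Perm.sign_ofSubtype]; exact hσ⟩
      exact ⟨g, (key g σ).mp hg⟩)
  have h2 : ∀ (g : G) x y, r (g • z) x → r (g • z) y →
      swap x y ∈ (MulAction.toPermHom G V).range := by
    intro g x y hx hy
    have hx' := hr.smul g⁻¹ hx
    have hy' := hr.smul g⁻¹ hy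
    rw [inv_smul_smul] at hx' hy'
    obtain ⟨k, hk⟩ := h1 (swap ⟨_, hx'⟩ ⟨_, hy'⟩)
    have h3 := (key _ _).mpr hk
    rw [Perm.ofSubtype_swap_eq] at h3
    have h4 : MulAction.toPermHom G V k = swap (g⁻¹ • x) (g⁻¹ • y) := Equiv.ext h3
    refine ⟨g * k * g⁻¹, ?_⟩
    rw [map_mul, map_mul, map_inv, h4, ← swap_apply_apply]
    simp
  obtain ⟨w, hw, hw'⟩ := exists_not_mem_of_ncard (β := {y | r z y}) {z} (by simp; omega)
  refine ⟨fun x y => x = y ∨ ((∃ g : G, r (g • z) x) ∧ r x y), ⟨fun _ => Or.inl rfl, ?_, ?_, ?_⟩,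
    ⟨z, w, Or.inr ⟨⟨1, by rw [one_smul]; exact hr.refl z⟩, hw⟩, by simpa [eq_comm] using hw'⟩,
    fun s hs => ?_⟩
  · rintro x y (rfl | ⟨⟨g, hg⟩, h3⟩)
    · exact Or.inl rfl
    · exact Or.inr ⟨⟨g, hr.trans hg h3⟩, hr.symm h3⟩
  · rintro x y u (rfl | ⟨h3, h4⟩) h6
    · exact h6
    · rcases h6 with rfl | ⟨-, h6⟩
      · exact Or.inr ⟨h3, h4⟩
      · exact Or.inr ⟨h3, hr.trans h4 h6⟩
  · rintro g x y (rfl | ⟨⟨k, hk⟩, h3⟩)
    · exact Or.inl rfl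
    · exact Or.inr ⟨⟨g * k, by rw [mul_smul]; exact hr.smul g hk⟩, hr.smul g h3⟩
  · have h3 : s ∈ Subgroup.closure
        {f : Perm V | f.IsSwap ∧ f ∈ (MulAction.toPermHom G V).range} := by
      refine (mem_closure_isSwap fun f hf => hf.1).mpr ⟨Set.toFinite _, fun x => ?_⟩
      by_cases hx : x = s x
      · rw [← hx]; exact mem_orbit_self x
      · rcases hs x with h4 | ⟨⟨g, hg⟩, h4⟩
        · exact absurd h4 hx
        · exact ⟨⟨swap x (s x), Subgroup.subset_closure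
            ⟨⟨_, _, hx, rfl⟩, h2 g _ _ hg (hr.trans hg h4)⟩⟩, swap_apply_left _ _⟩
    obtain ⟨g, hg⟩ := (Subgroup.closure_le (MulAction.toPermHom G V).range).mpr
      (fun f hf => hf.2) h3
    exact ⟨g, fun x => by rw [← hg]; rfl⟩

theorem global {q₀ K q : ℕ} (hP : PrimHyp q₀)
    (hK : ∀ m, K < m → 2 * q₀ ^ m < (m - 1).factorial) (h5 : 5 ≤ K) (hq : q₀ ≤ q) (hKq : K ≤ q)
    (hPS : PStar V G) (hR : ¬ R1 V G q) (hnt : ∃ (g : G) (x : V), g • x ≠ x) : R3 V G := by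
  classical
  obtain ⟨r, hr, horb, hI⟩ := exists_global hP hK h5 hq hKq hR
  have hmv : ∀ (x : V) (a : G), (∃ g : G, g • a • x ≠ a • x) ↔ ∃ g : G, g • x ≠ x := fun x a =>
    ⟨fun ⟨g, hg⟩ => ⟨a⁻¹ * g * a, by simpa [mul_smul, inv_smul_eq_iff] using hg⟩,
      fun ⟨g, hg⟩ => ⟨a * g * a⁻¹, by simpa [mul_smul] using hg⟩⟩
  obtain ⟨b, z₀, hb⟩ := hnt
  obtain ⟨k, -, hk1, z, -, hk2⟩ := chain hr (P := ⊤) (fun a => orbit (⊤ : Subgroup G) a)
    (fun _ => ⊤) Set.univ (Finset.univ.filter fun a => ∃ g : G, g • a ≠ a) (fun _ _ => le_rfl)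
    (fun _ _ _ _ _ _ => Subgroup.mem_top _) (fun _ _ => orb_inv) (fun _ _ => Set.subset_univ _)
    (fun a ha x hx => by
      obtain ⟨g, rfl⟩ := mem_orb_top.mp hx
      obtain ⟨h1, h2⟩ := hI _ ((hmv a g).mpr (by simpa using ha))
      exact ⟨by omega, orbit_eq_iff.mpr hx ▸ h2⟩)
    ⟨b, Subgroup.mem_top _, z₀, trivial, hb⟩
  set N := ClsFx hr (⊤ : Subgroup G) Set.univ with hN
  have hNn : ∀ a ∈ (⊤ : Subgroup G), ∀ b ∈ N, a * b * a⁻¹ ∈ N :=
    ClsFx_normal hr fun _ _ _ _ => trivial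
  have hkN : k ∈ N := ⟨Subgroup.mem_top _, fun x _ => by
    by_cases hx : k • x = x
    · rw [hx]; exact hr.refl x
    · exact hk1 x (by simp only [Finset.mem_filter, Finset.mem_univ, true_and]; exact ⟨k, hx⟩) x
        (mem_orbit_self x)⟩
  set P := EvSub r N Set.univ with hPdef
  have hPn : ∀ a ∈ (⊤ : Subgroup G), ∀ b ∈ P, a * b * a⁻¹ ∈ P :=
    EvSub_normal hr hNn fun _ _ _ _ => trivial
  have hsub : ∀ x, {y | r x y} ⊆ orbit (⊤ : Subgroup G) x := fun x y hy =>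
    mem_orb_top.mpr (horb x y hy)
  have hA : ∀ x y, r x y → ∀ k ∈ N, k • y ≠ y →
      K < {y | r x y}.ncard ∧ Ind P {y | r x y} (orbit (⊤ : Subgroup G) x) := by
    intro x y hxy k hk hky
    obtain ⟨a, rfl⟩ := horb x y hxy
    obtain ⟨h1, h2⟩ := hI x ((hmv x a).mp ⟨k, hky⟩)
    exact ⟨h1, ev_ind hr (fun k hk => hk.2) (fun _ _ _ _ => trivial) (by omega)
      (h2.sub (by omega) le_top hNn orb_inv hk hxy hky (hr.block k x)) (hsub x)
      (fun g _ => orb_inv g trivial) fun g hg y hy => hr.trans (hg.2 x trivial) (hr.smul g hy)⟩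
  obtain ⟨h1, h2⟩ := hA z z (hr.refl z) k hkN hk2
  rcases dich hP hK h5 (r := r) (P := P) (S := Set.univ) (fun k hk => hk.2) (z := z) trivial
    (by omega) (h2.mono le_rfl (hsub z)) (fun x _ => by
      by_cases h : ∀ k ∈ P, ∀ y, r x y → k • y = y
      · exact Or.inl h
      · push Not at h
        obtain ⟨k, hk, y, hy, h⟩ := h
        obtain ⟨h3, h4⟩ := hA x y hy k hk.1 h
        exact Or.inr ⟨h3, h4.mono le_rfl (hsub x)⟩)
    with h | ⟨x, -, h3, u, v, hu, hv, hmov, huv⟩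
  · refine r3_of_ind hPS hr (z := z) (by omega) fun σ hσ => ?_
    obtain ⟨g, hg, h3⟩ := h σ hσ
    refine ⟨g, fun y => ?_⟩
    by_cases hy : r z y
    · exact h3 y hy
    · rw [hg.2 y ⟨y, trivial, hy, hr.refl y⟩, hσ.1 y hy]
  · refine absurd ⟨fun a b => a = b ∨ ((∃ k ∈ P, k • a ≠ a) ∧ ∀ k ∈ P, k • a = a ↔ k • b = b),
      fun _ => 0, ⟨fun _ => Or.inl rfl, ?_, ?_, ?_⟩,
      ⟨v, u, Or.inr ⟨hmov, huv⟩, fun h => h3 (hr.trans hu (h ▸ hr.symm hv))⟩,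
      fun _ => show 0 < q by omega, fun _ _ => rfl, ?_⟩ hR
    · rintro a b (rfl | ⟨⟨k, hk, h4⟩, h6⟩)
      · exact Or.inl rfl
      · exact Or.inr ⟨⟨k, hk, fun h => h4 ((h6 k hk).mpr h)⟩, fun k hk => (h6 k hk).symm⟩
    · rintro a b c (rfl | ⟨h4, h6⟩) h7
      · exact h7
      · rcases h7 with rfl | ⟨-, h7⟩
        · exact Or.inr ⟨h4, h6⟩
        · exact Or.inr ⟨h4, fun k hk => (h6 k hk).trans (h7 k hk)⟩
    · rintro g a b (rfl | ⟨⟨k, hk, h4⟩, h6⟩)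
      · exact Or.inl rfl
      · exact Or.inr ⟨⟨_, hPn g trivial k hk, by simpa [mul_smul] using h4⟩,
          sim_smul hPn trivial h6⟩
    · rintro g - a (h | ⟨⟨k, hk, h4⟩, h6⟩)
      · exact h.symm
      · obtain ⟨h7, h8⟩ := hA a a (hr.refl a) k hk.1 h4
        exact h8.sep (by omega) (hsub a) (hr.refl a) (mem_orb_top.mpr ⟨g, rfl⟩)
          fun k hk => (h6 k hk).mpr

theorem primHyp : ∃ q, PrimHyp q := by
  obtain ⟨q₁, h1⟩ := rigid_two_trans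
  obtain ⟨q₂, h2⟩ := rigid_uniprimitive
  refine ⟨q₁ + q₂, fun B _ _ G hG hA => ?_⟩
  by_cases h : ∀ x y x' y' : B, x ≠ y → x' ≠ y' → ∃ g ∈ G, g x = x' ∧ g y = y'
  · obtain ⟨M, h3, h4⟩ := h1 B G h hA
    exact ⟨M, fun x => by have := h3 x; omega, h4⟩
  · obtain ⟨M, h3, h4⟩ := h2 B G hG h
    exact ⟨M, fun x => by have := h3 x; omega, h4⟩

theorem star : ∃ q, ∀ n, IH q n := by
  obtain ⟨q₀, hP⟩ := primHyp
  obtain ⟨K₀, hK₀⟩ := Filter.eventually_atTop.mp (Nat.eventually_mul_pow_lt_factorial_sub 2 q₀ 1)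
  refine ⟨q₀ + (K₀ + 5), fun n => ?_⟩
  induction n with
  | zero => intro V _ G _ _ _ h; omega
  | succ n ih =>
    intro V _ G _ _ _ h hPS
    classical
    have := Fintype.ofFinite V
    have ih' : IH (q₀ + (K₀ + 5)) (Nat.card V) := fun V _ G _ _ _ h' => ih V G (by omega)
    by_cases hR : R1 V G (q₀ + (K₀ + 5))
    · exact red1 ih' hPS hR
    by_cases hnt : ∃ (g : G) (x : V), g • x ≠ x
    · exact red3 ih' hPS (global hP (K := K₀ + 5) (fun m hm => hK₀ m (by omega)) (by omega)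
        (by omega) (by omega) hPS hR hnt)
    · push Not at hnt
      refine ⟨fun _ => (0, 0), fun _ => ⟨by simp, by simp⟩, fun r ⟨⟨b, hb⟩, h2⟩ => ⟨1, fun x => ?_⟩⟩
      obtain ⟨c, hc⟩ := h2 _ _ (hb x)
      obtain ⟨-, γ, -, h3, -⟩ := hc x
      rw [one_smul]
      have := hb x
      rwa [← h3, hnt] at this

end Pool.Agent.MP_88b4a2_lc
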