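import Pool.Agent.MP_88b4a2_lc.Tame
import Pool.Agent.MP_88b4a2_lc.SysDef

/-! The abstract theorem from the existence of tame colourings. -/

namespace Pool.Agent.MP_88b4a2_lc

open Equiv Equiv.Perm

/-- Coordinate permutations preserving a family of lattices. -/
def AutL {J : Type} (L : ℕ → AddSubgroup (J → ℤ)) : Subgroup (Perm J) where
  carrier := {g | ∀ i (v : J → ℤ), (fun j => v (g j)) ∈ L i ↔ v ∈ L i}
  one_mem' := fun _ _ => Iff.rfl
  mul_mem' := fun {a b} ha hb i v => (hb i (fun j => v (a j))).trans (ha i v)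
  inv_mem' := fun {a} ha i v => by
    rw [← ha i]; simp

theorem Realz.mul {V G I T : Type} [Group G] [MulAction G V] {e : I × T → V} {g h : G}
    {σ τ : Perm I} (h1 : Realz e g σ) (h2 : Realz e h τ) : Realz e (g * h) (σ * τ) :=
  ⟨fun i t => by rw [mul_smul, h2.1, h1.1, Perm.mul_apply],
    fun x hx => by rw [mul_smul, h2.2 x hx, h1.2 x hx]⟩

theorem pstar_autL {J : Type} (L : ℕ → AddSubgroup (J → ℤ)) : PStar J (AutL L) := by
  intro I T _ _ e he h5 hev σ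
  obtain ⟨ι⟩ : Nonempty (Fin 5 ↪ I) := Function.Embedding.nonempty_of_card_le (by simpa using h5)
  let s : Perm I := (swap (0 : Fin 5) 1).viaFintypeEmbedding ι
  have hs : ∃ g : AutL L, Realz e g s := by
    let g : Perm J := Perm.viaEmbedding (Equiv.prodCongr s (Equiv.refl T)) ⟨e, he⟩
    have hg1 : ∀ i t, g (e (i, t)) = e (s i, t) := fun i t =>
      Perm.viaEmbedding_apply _ ⟨e, he⟩ (i, t)
    have hg2 : ∀ x, x ∉ Set.range e → g x = x := fun x hx =>
      Perm.viaEmbedding_apply_of_notMem _ ⟨e, he⟩ x hx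
    have hE : ∀ π : Perm (Fin 5), sign π = 1 →
        ∃ g : AutL L, Realz e g (π.viaFintypeEmbedding ι) := fun π h =>
      hev _ (by rw [Perm.viaFintypeEmbedding_sign, h])
    obtain ⟨D, hD⟩ := hE (swap 1 3 * swap 1 2) (by decide)
    obtain ⟨E, hE'⟩ := hE (swap 0 2 * swap 0 4) (by decide)
    obtain ⟨B, hB⟩ := hE (swap 0 2 * swap 0 1) (by decide)
    obtain ⟨C, hC⟩ := hE (swap 0 1 * swap 0 3 * swap 0 2 * swap 0 4) (by decide)
    have key : ∀ i (v : J → ℤ), v ∈ L i → (fun j => v (g j)) ∈ L i := by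
      intro i v hv
      have : (fun j => v (g j)) = v + (fun j => v (B.1 j)) + (fun j => v (C.1 j))
          - (fun j => v (D.1 j)) - (fun j => v (E.1 j)) := by
        funext x
        simp only [Pi.add_apply, Pi.sub_apply]
        by_cases hx : x ∈ Set.range e
        · obtain ⟨⟨a, t⟩, rfl⟩ := hx
          rw [hg1, show B.1 (e (a, t)) = _ from hB.1 a t, show C.1 (e (a, t)) = _ from hC.1 a t,
            show D.1 (e (a, t)) = _ from hD.1 a t, show E.1 (e (a, t)) = _ from hE'.1 a t]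
          by_cases ha : a ∈ Set.range ι
          · obtain ⟨c, rfl⟩ := ha
            simp only [s, Perm.viaFintypeEmbedding_apply_image]
            fin_cases c <;> simp [swap_apply_def] <;> ring
          · simp only [s, Perm.viaFintypeEmbedding_apply_notMem_range _ _ ha]; ring
        · rw [hg2 x hx, show B.1 x = x from hB.2 x hx, show C.1 x = x from hC.2 x hx,
            show D.1 x = x from hD.2 x hx, show E.1 x = x from hE'.2 x hx]; ring
      rw [this]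
      exact (L i).sub_mem ((L i).sub_mem ((L i).add_mem ((L i).add_mem hv ((B.2 i v).mpr hv))
        ((C.2 i v).mpr hv)) ((D.2 i v).mpr hv)) ((E.2 i v).mpr hv)
    have hgg : ∀ x, g (g x) = x := fun x => by
      by_cases hx : x ∈ Set.range e
      · obtain ⟨⟨a, t⟩, rfl⟩ := hx
        rw [hg1, hg1]
        by_cases ha : a ∈ Set.range ι
        · obtain ⟨c, rfl⟩ := ha
          simp [s, Perm.viaFintypeEmbedding_apply_image]
        · simp only [s, Perm.viaFintypeEmbedding_apply_notMem_range _ _ ha]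
      · rw [hg2 x hx, hg2 x hx]
    refine ⟨⟨g, fun i v => ⟨fun h => ?_, key i v⟩⟩, hg1, hg2⟩
    simpa only [hgg] using key i _ h
  rcases Int.units_eq_one_or (sign σ) with h | h
  · exact hev σ h
  · obtain ⟨g, hg⟩ := hs
    have hss : sign s = -1 := by
      simp only [s]; rw [Perm.viaFintypeEmbedding_sign]; decide
    obtain ⟨k, hk⟩ := hev (σ * s⁻¹) (by simp [h, hss])
    exact ⟨k * g, by simpa using hk.mul hg⟩

namespace Sys

variable {J J' Ω : Type} {κ : ℕ} (S : Sys J J' Ω κ)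

def Compat (l : List Ω) (σ : J ≃ J') : Prop := ∀ j, ∃ ω, S.Pt ω j (σ j) ∧ S.W (ω :: l)

/-- The move `ω` forces the relation `P` on marked points. -/
def Forces (ω : Ω) (P : J → J' → Prop) : Prop :=
  ∀ ω' j j', S.W [ω, ω'] → S.Pt ω' j j' → P j j'

variable {S}

theorem Compat.forces {l : List Ω} {σ : J ≃ J'} (h : S.Compat l σ) {ω : Ω} (hω : ω ∈ l)
    {P : J → J' → Prop} (hP : S.Forces ω P) (j : J) : P j (σ j) := by
  obtain ⟨ω', h1, h2⟩ := h j
  exact hP ω' _ _ (S.mono _ _ (by simp [hω]) h2) h1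

theorem forces_pt {ω : Ω} {i : J} {i' : J'} (h : S.Pt ω i i') :
    S.Forces ω (fun j j' => i = j ↔ i' = j') := fun _ _ _ h1 h2 => S.pt_eq _ _ _ _ _ _ h1 h h2

theorem Compat.pt {l : List Ω} {σ : J ≃ J'} (h : S.Compat l σ) {ω : Ω} (hω : ω ∈ l)
    {i : J} {i' : J'} (hp : S.Pt ω i i') : σ i = i' :=
  ((h.forces hω (forces_pt hp) i).mp rfl).symm

theorem Compat.m_eq {l : List Ω} {σ : J ≃ J'} (h : S.Compat l σ) (j : J) :
    S.m j = S.m' (σ j) := by
  obtain ⟨ω', h1, h2⟩ := h j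
  exact S.pt_m ω' _ _ (S.mono _ _ (by simp) h2) h1

theorem Compat.mono {l l' : List Ω} {σ : J ≃ J'} (h : S.Compat l' σ) (hl : l ⊆ l') :
    S.Compat l σ := fun j => by
  obtain ⟨ω', h1, h2⟩ := h j
  exact ⟨ω', h1, S.mono _ _ (List.cons_subset_cons _ hl) h2⟩

theorem pebble_sets (cs : List (Set J)) (l : List Ω) (hl : S.W l)
    (hlen : l.length + cs.length ≤ κ) : ∃ l₀ : List Ω, l₀.length = cs.length ∧ S.W (l₀ ++ l) ∧
      ∀ A ∈ cs, ∃ ω ∈ l₀, ∃ A' : Set J', S.Forces ω (fun j j' => j ∈ A ↔ j' ∈ A') := by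
  induction cs with
  | nil => exact ⟨[], rfl, hl, by simp⟩
  | cons A cs ih =>
    simp only [List.length_cons] at hlen
    obtain ⟨l₀, h1, h2, h3⟩ := ih (by omega)
    obtain ⟨A', ω, h4, h5⟩ := S.extSet _ h2 (by simp; omega) A
    refine ⟨ω :: l₀, by simp [h1], h4, ?_⟩
    intro B hB
    rcases List.mem_cons.mp hB with rfl | hB
    · exact ⟨ω, by simp, A', h5⟩
    · obtain ⟨ω', h6, h7⟩ := h3 B hB
      exact ⟨ω', by simp [h6], h7⟩

def Iso (L : ℕ → AddSubgroup (J → ℤ)) (L' : ℕ → AddSubgroup (J' → ℤ)) (σ : J ≃ J') : Prop :=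
  ∀ i (v : J' → ℤ), (fun j => v (σ j)) ∈ L i ↔ v ∈ L' i

variable (S) in
/-- Positions of length at most `c` containing `ω₀` admit a compatible isomorphism. -/
def Good (L : ℕ → AddSubgroup (J → ℤ)) (L' : ℕ → AddSubgroup (J' → ℤ)) (ω₀ : Ω) (c : ℕ) : Prop :=
  ∀ l, S.W l → ω₀ ∈ l → l.length ≤ c → ∃ σ, Iso L L' σ ∧ S.Compat l σ

theorem lift {q : ℕ} {L : ℕ → AddSubgroup (J → ℤ)} {L' : ℕ → AddSubgroup (J' → ℤ)} {ω₀ : Ω}
    (M : J → ℕ × ℕ) (hM : Bd q M) (hT : Tame (AutL L) M) (hκ : 4 * q + 7 ≤ κ)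
    (h : S.Good L L' ω₀ (2 * q + 3)) : S.Good L L' ω₀ (2 * q + 6) := by
  intro l hl h0 hlen
  obtain ⟨l₀, h1, h2, h3⟩ := pebble_sets (S := S)
    ((List.range q).map (fun a => {x | (M x).1 = a}) ++
      (List.range q).map (fun a => {x | (M x).2 = a})) l hl (by simp; omega)
  simp only [List.length_append, List.length_map, List.length_range] at h1
  have hcol : ∀ (σ τ : J ≃ J'), S.Compat l₀ σ → S.Compat l₀ τ → ∀ z, M (τ.symm (σ z)) = M z := by
    intro σ τ hσ hτ z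
    have gen : ∀ A : Set J, (∃ ω ∈ l₀, ∃ A' : Set J', S.Forces ω (fun j j' => j ∈ A ↔ j' ∈ A')) →
        z ∈ A → τ.symm (σ z) ∈ A := by
      rintro A ⟨ω, hω, A', hA⟩ hz
      rw [hτ.forces hω hA, Equiv.apply_symm_apply, ← hσ.forces hω hA]
      exact hz
    exact Prod.ext (gen {x | (M x).1 = (M z).1} (h3 _ (List.mem_append_left _
      (List.mem_map.mpr ⟨_, List.mem_range.mpr (hM z).1, rfl⟩))) rfl)
      (gen {x | (M x).2 = (M z).2} (h3 _ (List.mem_append_right _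
      (List.mem_map.mpr ⟨_, List.mem_range.mpr (hM z).2, rfl⟩))) rfl)
  obtain ⟨τ, hτ1, hτ2⟩ := h (ω₀ :: l₀) (S.mono _ _ (by simp [h0]) h2) (by simp) (by simp; omega)
  obtain ⟨g, hg⟩ := hT (fun x y => ∃ ω, S.Pt ω x (τ y) ∧ S.W (ω :: (l₀ ++ l))) ⟨by
    obtain ⟨b, hb⟩ := S.extPt _ h2 (by simp; omega)
    exact ⟨b.trans τ.symm, fun x => by simpa using hb x⟩, by
    rintro u u' ⟨ω, h4, h5⟩
    obtain ⟨b, hb⟩ := S.extPt _ h5 (by simp; omega)
    refine ⟨b.trans τ.symm, fun x => ?_⟩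
    obtain ⟨ω', h6, h7⟩ := hb x
    refine ⟨⟨ω', by simpa using h6, S.mono _ _ (by intro a; simp; tauto) h7⟩, ?_⟩
    obtain ⟨σ, hσ1, hσ2⟩ := h (ω' :: ω :: ω₀ :: l₀) (S.mono _ _ (by
      intro a; simp only [List.mem_cons, List.mem_append]
      rintro (h | h | rfl | h) <;> simp [*]) h7) (by simp) (by simp; omega)
    refine ⟨⟨σ.trans τ.symm, fun i v => ?_⟩, fun z => hcol σ τ
      (hσ2.mono (by intro a; simp; tauto)) (hτ2.mono (by simp)) z, ?_, ?_⟩
    · have e1 := hσ1 i (fun j' => v (τ.symm j'))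
      have e2 := hτ1 i (fun j' => v (τ.symm j'))
      simp only [Equiv.symm_apply_apply] at e2
      exact e1.trans e2.symm
    · show τ.symm (σ u) = u'
      rw [hσ2.pt (by simp) h4, Equiv.symm_apply_apply]
    · show τ.symm (σ x) = τ.symm (b x)
      rw [hσ2.pt (by simp) h6]⟩
  refine ⟨g.1.trans τ, fun i v => (g.2 i (fun j => v (τ j))).trans (hτ1 i v), fun j => ?_⟩
  obtain ⟨ω, h4, h5⟩ := hg j
  exact ⟨ω, h4, S.mono _ _ (by intro a; simp; tauto) h5⟩

/-- Vectors of the lattice whose coordinates are divisible by `s`. -/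
def Lat {J : Type} (Λ : ℕ → AddSubgroup (J → ℤ)) (s : J → ℕ) (i : ℕ) : AddSubgroup (J → ℤ) where
  carrier := {v | v ∈ Λ i ∧ ∀ j, (s j : ℤ) ∣ v j}
  zero_mem' := ⟨(Λ i).zero_mem, fun _ => dvd_zero _⟩
  add_mem' := fun ha hb => ⟨(Λ i).add_mem ha.1 hb.1, fun j => dvd_add (ha.2 j) (hb.2 j)⟩
  neg_mem' := fun ha => ⟨(Λ i).neg_mem ha.1, fun j => (dvd_neg).mpr (ha.2 j)⟩

theorem extDiv (l : List Ω) (hl : S.W l) (hlen : l.length ≤ κ) (s : J → ℕ)
    (hs : ∀ j, s j ∣ S.m j) :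
    ∃ (s' : J' → ℕ) (ω : Ω), S.W (ω :: l) ∧ S.Forces ω (fun j j' => s j = s' j') := by
  obtain ⟨a', ω, h1, -, h2⟩ := S.extVec l hl hlen (fun j => s j)
  refine ⟨fun j' => Int.gcd (a' j') (S.m' j'), ω, h1, fun ω' j j' h3 h4 => ?_⟩
  have h5 := h2 ω' j j' h3 h4
  have h6 := S.pt_m ω' j j' (S.mono _ _ (by simp) h3) h4
  obtain ⟨k, hk⟩ := h5.dvd
  have : a' j' = s j + S.m j * k := by linarith
  show s j = Int.gcd (a' j') (S.m' j')
  rw [← h6, this, Int.gcd_add_mul_left_left, Int.gcd_natCast_natCast, Nat.gcd_eq_left (hs j)]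

theorem step {c : ℕ} (hκ : c + 2 ≤ κ) (s : J → ℕ) (hs : ∀ j, s j ∣ S.m j) (s' : J' → ℕ) (ω₀ : Ω)
    (h0 : S.Forces ω₀ (fun j j' => s j = s' j')) (w : J) (p : ℕ) (hp : p.Prime) (t : J → ℕ)
    (ht : ∀ j, t j ∣ S.m j) (htw : t w = s w * p) (hts : ∀ j, j ≠ w → t j = s j)
    (ih : ∀ (t' : J' → ℕ) (ω : Ω), S.Forces ω (fun j j' => t j = t' j') →
      S.Good (Lat S.Λ t) (Lat S.Λ' t') ω (c + 3)) :
    S.Good (Lat S.Λ s) (Lat S.Λ' s') ω₀ c := by
  classical
  intro l hl hl0 hlen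
  obtain ⟨b, hb⟩ := S.extPt l hl (by omega)
  obtain ⟨ωw, hw1, hw2⟩ := hb w
  have hc : ∃ c : J → ℤ, ∀ i, (∃ c ∈ Lat S.Λ s i, ¬ (t w : ℤ) ∣ c w) →
      c ∈ Lat S.Λ s i ∧ ¬ (t w : ℤ) ∣ c w := by
    by_cases h : ∃ i, ∃ c ∈ Lat S.Λ s i, ¬ (t w : ℤ) ∣ c w
    · obtain ⟨c, h1, h2⟩ := Nat.find_spec h
      exact ⟨c, fun i hi => ⟨⟨S.Λ_mono (Nat.find_min' h hi) h1.1, h1.2⟩, h2⟩⟩
    · exact ⟨0, fun i hi => absurd ⟨i, hi⟩ h⟩
  obtain ⟨c, hc⟩ := hc
  obtain ⟨c', ωc, hc1, hc2, hc3⟩ := S.extVec _ hw2 (by simp; omega) c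
  obtain ⟨t', ωt, ht1, ht2⟩ := extDiv _ hc1 (by simp; omega) t ht
  obtain ⟨σ, hσ1, hσ2⟩ := ih t' ωt ht2 _ ht1 (by simp) (by simp; omega)
  refine ⟨σ, fun i v => ?_, hσ2.mono (by intro a; simp; tauto)⟩
  have e1 : σ w = b w := hσ2.pt (by simp) hw1
  have e2 : ∀ j, s j = s' (σ j) := hσ2.forces (by simp [hl0]) h0
  have e3 : ∀ j, t j = t' (σ j) := hσ2.forces (by simp) ht2
  have e4 : ∀ j, c j ≡ c' (σ j) [ZMOD S.m j] := hσ2.forces (ω := ωc) (by simp) hc3
  have hdiv : (∀ j, (s j : ℤ) ∣ v (σ j)) ↔ ∀ j', (s' j' : ℤ) ∣ v j' :=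
    ⟨fun h j' => by simpa [e2] using h (σ.symm j'), fun h j => by rw [e2]; exact h _⟩
  have hkey : ∀ u : J' → ℤ, (∀ j, (s j : ℤ) ∣ u (σ j)) → (t w : ℤ) ∣ u (σ w) →
      ((fun j => u (σ j)) ∈ S.Λ i ↔ u ∈ S.Λ' i) := by
    intro u h1 h2
    have h3 : ∀ j, (t j : ℤ) ∣ u (σ j) := fun j => by
      by_cases hj : j = w
      · rw [hj]; exact h2
      · rw [hts j hj]; exact h1 j
    have h4 : ∀ j', (t' j' : ℤ) ∣ u j' := fun j' => by simpa [e3] using h3 (σ.symm j')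
    exact ⟨fun h => ((hσ1 i u).mp ⟨h, h3⟩).1, fun h => ((hσ1 i u).mpr ⟨h, h4⟩).1⟩
  have main : (∀ j, (s j : ℤ) ∣ v (σ j)) → ((fun j => v (σ j)) ∈ S.Λ i ↔ v ∈ S.Λ' i) := by
    intro hv
    by_cases hP : ∃ c ∈ Lat S.Λ s i, ¬ (t w : ℤ) ∣ c w
    · obtain ⟨⟨f1, f2⟩, f3⟩ := hc i hP
      obtain ⟨γ, hγ⟩ := f2 w
      obtain ⟨β, hβ⟩ := hv w
      have f4 : ¬ (p : ℤ) ∣ γ := fun h => f3 (by
        rw [hγ, htw]; push_cast; exact mul_dvd_mul_left _ h)
      obtain ⟨x, y, hxy⟩ := (Nat.prime_iff_prime_int.mp hp).coprime_iff_not_dvd.mpr f4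
      have f5 : (fun j => c' (σ j)) ∈ S.Λ i := by
        have := (S.Λ i).add_mem f1 (S.mem_Λ i (fun j => c' (σ j) - c j) (fun j => (e4 j).dvd))
        convert this using 1
        funext j; simp
      have f6 := hkey (v - (β * y) • c') (fun j => by
        refine dvd_sub (hv j) (Dvd.dvd.mul_left ?_ _)
        have := (Int.natCast_dvd_natCast.mpr (hs j)).trans (e4 j).dvd
        simpa using dvd_add this (f2 j)) (by
        have := (Int.natCast_dvd_natCast.mpr (ht w)).trans (e4 w).dvd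
        have e5 : (v - (β * y) • c') (σ w) = t w * (β * x) - β * y * (c' (σ w) - c w) := by
          simp only [Pi.sub_apply, Pi.smul_apply, smul_eq_mul]
          rw [hβ, hγ, htw]; push_cast
          linear_combination (-(s w : ℤ) * β) * hxy
        rw [e5]
        exact dvd_sub (dvd_mul_right _ _) (Dvd.dvd.mul_left this _))
      have f7 := (S.Λ' i).zsmul_mem (hc2 i f1) (β * y)
      have f8 := (S.Λ i).zsmul_mem f5 (β * y)
      refine ⟨fun h => ?_, fun h => ?_⟩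
      · simpa using (S.Λ' i).add_mem (f6.mp ((S.Λ i).sub_mem h f8)) f7
      · have := (S.Λ i).add_mem (f6.mpr ((S.Λ' i).sub_mem h f7)) f8
        convert this using 1
        funext j; simp
    · push Not at hP
      refine ⟨fun h => (hkey v hv (hP _ ⟨h, hv⟩)).mp h, fun h => (hkey v hv ?_).mpr h⟩
      obtain ⟨a, ωa, ha1, ha2, ha3⟩ := S.extVec' _ hw2 (by simp; omega) v
      obtain ⟨b', hb'⟩ := S.extPt _ ha1 (by simp; omega)
      have hb'' : S.Compat _ b' := hb'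
      have f1 := hP a ⟨ha2 i h, fun j => by
        have g1 : a j ≡ v (b' j) [ZMOD S.m j] := hb''.forces (ω := ωa) (by simp) ha3 j
        have g2 : s j = s' (b' j) := hb''.forces (by simp [hl0]) h0 j
        have g3 := (Int.natCast_dvd_natCast.mpr (hs j)).trans g1.dvd
        have g4 : (s j : ℤ) ∣ v (b' j) := by rw [g2]; exact hdiv.mp hv _
        simpa using dvd_sub g4 g3⟩
      have f2 := ha3 ωw _ _ (S.mono _ _ (by simp) ha1) hw1
      have f3 := (Int.natCast_dvd_natCast.mpr (ht w)).trans f2.dvd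
      rw [e1]
      simpa using dvd_add f3 f1
  exact ⟨fun h => ⟨(main h.2).mp h.1, hdiv.mp h.2⟩,
    fun h => ⟨(main (hdiv.mpr h.2)).mpr h.1, hdiv.mpr h.2⟩⟩

theorem good_all [Finite J] {q : ℕ} (hq : ∀ n, IH q n) (hκ : 4 * q + 7 ≤ κ) (n : ℕ) :
    ∀ (s : J → ℕ), (∀ j, s j ∣ S.m j) → ∑ᶠ j, (S.m j - s j) ≤ n → ∀ (s' : J' → ℕ) (ω₀ : Ω),
      S.Forces ω₀ (fun j j' => s j = s' j') →
      S.Good (Lat S.Λ s) (Lat S.Λ' s') ω₀ (2 * q + 6) := by
  classical
  have := Fintype.ofFinite J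
  simp only [finsum_eq_sum_of_fintype]
  induction n using Nat.strong_induction_on with
  | _ n ih =>
  intro s hs hn s' ω₀ h0
  by_cases hall : ∀ j, s j = S.m j
  · intro l hl hl0 hlen
    obtain ⟨b, hb⟩ := S.extPt l hl (by omega)
    have hb' : S.Compat l b := hb
    have e2 : ∀ j, s j = s' (b j) := hb'.forces hl0 h0
    refine ⟨b, fun i v => ⟨fun h => ?_, fun h => ?_⟩, hb'⟩
    · have h1 : ∀ j', (s' j' : ℤ) ∣ v j' := fun j' => by simpa [e2] using h.2 (b.symm j')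
      refine ⟨S.mem_Λ' i v fun j' => ?_, h1⟩
      obtain ⟨j, rfl⟩ := b.surjective j'
      rw [← hb'.m_eq, ← hall]; exact h.2 j
    · have h1 : ∀ j, (s j : ℤ) ∣ v (b j) := fun j => by rw [e2]; exact h.2 _
      exact ⟨S.mem_Λ i _ fun j => by rw [← hall]; exact h1 j, h1⟩
  · push Not at hall
    obtain ⟨w, hw⟩ := hall
    obtain ⟨k, hk⟩ := hs w
    have hk1 : k ≠ 1 := fun h => hw (by rw [hk, h, mul_one])
    have hp := Nat.minFac_prime hk1
    have hm := S.m_pos w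
    have hsw : 0 < s w := Nat.pos_of_ne_zero fun h => by rw [hk, h] at hm; simp at hm
    have ht : ∀ j, Function.update s w (s w * k.minFac) j ∣ S.m j := fun j => by
      by_cases hj : j = w
      · rw [hj, Function.update_self, hk]; exact mul_dvd_mul_left _ (Nat.minFac_dvd k)
      · rw [Function.update_of_ne hj]; exact hs j
    obtain ⟨M, hM, hT⟩ := hq _ J (AutL (Lat S.Λ s)) (Nat.lt_succ_self _) (pstar_autL _)
    refine lift M hM hT hκ (step (by omega) s hs s' ω₀ h0 w _ hp _ ht (Function.update_self ..)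
      (fun j hj => Function.update_of_ne hj ..) (ih _ ?_ _ ht le_rfl))
    refine lt_of_lt_of_le (Finset.sum_lt_sum (fun j _ => ?_) ⟨w, Finset.mem_univ _, ?_⟩) hn
    · by_cases hj : j = w
      · rw [hj, Function.update_self]
        exact Nat.sub_le_sub_left (Nat.le_mul_of_pos_right _ hp.pos) _
      · rw [Function.update_of_ne hj]
    · have h1 := Nat.le_of_dvd hm (ht w)
      rw [Function.update_self] at h1 ⊢
      have := hp.two_le
      have : s w < s w * k.minFac := by nlinarith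
      omega

end Sys

theorem sysThm {q : ℕ} (hq : ∀ n, IH q n) : SysThm (4 * q + 7) := by
  intro J J' Ω _ _ S h
  obtain ⟨s', ω₀, h1, h2⟩ := Sys.extDiv [] h (by simp) (fun _ => 1) (fun _ => one_dvd _)
  obtain ⟨σ, h3, h4⟩ := Sys.good_all hq le_rfl _ (fun _ => 1) (fun _ => one_dvd _) le_rfl s' ω₀ h2
    _ h1 (by simp) (by simp)
  have e2 : ∀ j, 1 = s' (σ j) := h4.forces (by simp) h2
  refine ⟨σ, h4.mono (List.nil_subset _), fun i v => ⟨fun hv => ((h3 i v).mp ⟨hv, by simp⟩).1,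
    fun hv => ((h3 i v).mpr ⟨hv, fun j' => ?_⟩).1⟩⟩
  obtain ⟨j, rfl⟩ := σ.surjective j'
  simp [← e2]

end Pool.Agent.MP_88b4a2_lc
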