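import Pool.Agent.MP_88b4a2_lc.Ind
import Pool.Agent.MP_88b4a2_lc.Hall

/-! Tame colourings and the two reduction steps. -/

namespace Pool.Agent.MP_88b4a2_lc

open Equiv Equiv.Perm

section defs

variable {V : Type} (G : Type) [Group G] [MulAction G V]

/-- The stabiliser of a colouring. -/
def presSub {C : Type} (M : V → C) : Subgroup G where
  carrier := {g | ∀ x, M (g • x) = M x}
  one_mem' := fun x => by rw [one_smul]
  mul_mem' := fun {a b} ha hb x => by rw [mul_smul, ha, hb]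
  inv_mem' := fun {a} ha x => by rw [← ha (a⁻¹ • x), smul_inv_smul]

/-- Relations that are equitable with respect to the orbitals of the stabiliser of `M`. -/
def Equit {C : Type} (M : V → C) (r : V → V → Prop) : Prop :=
  (∃ b : V ≃ V, ∀ x, r x (b x)) ∧
  ∀ u u', r u u' → ∃ b : V ≃ V, ∀ x, r x (b x) ∧
    ∃ γ : G, (∀ z, M (γ • z) = M z) ∧ γ • u = u' ∧ γ • x = b x

def Tame {C : Type} (M : V → C) : Prop :=
  ∀ r : V → V → Prop, Equit G M r → ∃ g : G, ∀ x, r x (g • x)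

variable {G} in
def Realz {I T : Type} (e : I × T → V) (g : G) (σ : Perm I) : Prop :=
  (∀ i t, g • e (i, t) = e (σ i, t)) ∧ ∀ x, x ∉ Set.range e → g • x = x

variable (V) in
/-- If all even column permutations of a grid are induced, then all of them are. -/
def PStar : Prop :=
  ∀ (I T : Type) [Fintype I] [DecidableEq I] (e : I × T → V), Function.Injective e →
    5 ≤ Fintype.card I → (∀ σ : Perm I, sign σ = 1 → ∃ g : G, Realz e g σ) →
    ∀ σ : Perm I, ∃ g : G, Realz e g σ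

def Bd (q : ℕ) (M : V → ℕ × ℕ) : Prop := ∀ x, (M x).1 < q ∧ (M x).2 < q

end defs

theorem exists_even_map {I : Type} [Fintype I] [DecidableEq I] (h : 4 ≤ Fintype.card I)
    (i j : I) : ∃ σ : Perm I, sign σ = 1 ∧ σ i = j := by
  obtain ⟨σ, h1, h2⟩ := exists_map (β := (Set.univ : Set I)) (by
    rw [Set.ncard_univ, Nat.card_eq_fintype_card]; exact h) (Set.mem_univ i) (Set.mem_univ j)
  exact ⟨σ, h1.2, h2⟩

variable {V : Type} {G : Type} [Group G] [MulAction G V]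

theorem pstar_pres {C : Type} (M : V → C) (h : PStar V G) : PStar V (presSub G M) := by
  intro I T _ _ e he h5 hev σ
  obtain ⟨g, hg1, hg2⟩ := h I T e he h5 (fun σ hσ => by
    obtain ⟨g, hg⟩ := hev σ hσ
    exact ⟨g.1, hg⟩) σ
  refine ⟨⟨g, fun x => ?_⟩, hg1, hg2⟩
  by_cases hx : x ∈ Set.range e
  · obtain ⟨⟨i, t⟩, rfl⟩ := hx
    obtain ⟨τ, h1, h2⟩ := exists_even_map (by omega) i (σ i)
    obtain ⟨k, hk, -⟩ := hev τ h1
    rw [hg1, ← h2, ← hk]
    exact k.2 _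
  · rw [hg2 x hx]

/-- The fixed points of an equivariant map. -/
def fixSub (π : V → V) (hπ : ∀ (g : G) x, π (g • x) = g • π x) : SubMulAction G V where
  carrier := {x | π x = x}
  smul_mem' := fun g x hx => by
    show π (g • x) = g • x
    rw [hπ, hx]

theorem pstar_lift (π : V → V) (hπ : ∀ (g : G) x, π (g • x) = g • π x) (hππ : ∀ x, π (π x) = π x)
    (hst : ∀ (g : G) x, g • π x = π x → g • x = x) (h : PStar V G) :
    PStar (fixSub π hπ) G := by
  intro I T _ _ e he h5 hev σ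
  obtain ⟨i₀⟩ : Nonempty I := Fintype.card_pos_iff.mp (by omega)
  have hex : ∀ i, ∃ g : G, ∀ t, g • (e (i₀, t)).1 = (e (i, t)).1 := fun i => by
    obtain ⟨τ, h1, h2⟩ := exists_even_map (by omega) i₀ i
    obtain ⟨k, hk, -⟩ := hev τ h1
    exact ⟨k, fun t => by rw [← h2, ← hk]; rfl⟩
  choose γ hγ using hex
  let E : I × {x : V // ∃ t, π x = (e (i₀, t)).1} → V := fun z => γ z.1 • z.2.1
  have hE : Function.Injective E := by
    rintro ⟨i, x, t, hx⟩ ⟨j, y, t', hy⟩ hxy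
    have h1 : γ i • x = γ j • y := hxy
    have h2 := congrArg π h1
    rw [hπ, hπ, hx, hy, hγ, hγ] at h2
    have h3 := congrArg Prod.fst (he (Subtype.ext h2))
    obtain rfl : i = j := h3
    obtain rfl : x = y := smul_left_cancel _ h1
    rfl
  have hup : ∀ (g : G) (τ : Perm I), Realz e g τ → Realz E g τ := by
    rintro g τ ⟨h1, h2⟩
    refine ⟨?_, fun y hy => ?_⟩
    · rintro i ⟨x, t, hx⟩
      show g • γ i • x = γ (τ i) • x
      have := hst ((γ (τ i))⁻¹ * g * γ i) x (by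
        rw [hx, mul_smul, mul_smul, hγ, inv_smul_eq_iff, hγ]
        exact congrArg Subtype.val (h1 i t))
      rwa [mul_smul, mul_smul, inv_smul_eq_iff] at this
    · apply hst
      have := h2 ⟨π y, hππ y⟩ (by
        rintro ⟨⟨i, t⟩, h3⟩
        have h4 : (e (i, t)).1 = π y := congrArg Subtype.val h3
        refine hy ⟨⟨i, (γ i)⁻¹ • y, t, ?_⟩, smul_inv_smul _ _⟩
        rw [hπ, inv_smul_eq_iff, hγ, h4])
      exact congrArg Subtype.val this
  obtain ⟨g, hg1, hg2⟩ := h I _ E hE h5 (fun τ hτ => by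
    obtain ⟨g, hg⟩ := hev τ hτ
    exact ⟨g, hup g τ hg⟩) σ
  refine ⟨g, fun i t => Subtype.ext ?_, fun y hy => Subtype.ext ?_⟩
  · have := hg1 i ⟨(e (i₀, t)).1, t, (e (i₀, t)).2⟩
    simp only [E, hγ] at this
    exact this
  · refine hg2 y.1 ?_
    rintro ⟨⟨i, x, t, hx⟩, h3⟩
    have h4 : γ i • x = y.1 := h3
    have h5' := congrArg π h4
    rw [hπ, hx, hγ, y.2] at h5'
    exact hy ⟨(i, t), Subtype.ext h5'⟩

theorem exists_select {r : V → V → Prop} (hr : IsCong G r)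
    (hrig : ∀ (h : G) x, r x (h • x) → h • x = x) (A : V → V)
    (hA1 : ∀ x, ∃ h : G, r (h • x) (A x)) :
    ∃ π : V → V, ∀ x (h : G), r (h • x) (A x) → π x = h⁻¹ • A x := by
  choose κ hκ using hA1
  refine ⟨fun x => (κ x)⁻¹ • A x, fun x h hx => ?_⟩
  have h1 := hr.smul (κ x)⁻¹ (hκ x)
  have h2 := hr.smul h⁻¹ hx
  rw [inv_smul_smul] at h1 h2
  have h3 := hr.trans (hr.symm h1) h2
  have h4 := hrig (h⁻¹ * κ x) ((κ x)⁻¹ • A x) (by rwa [mul_smul, smul_inv_smul])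
  rw [mul_smul, smul_inv_smul] at h4
  exact h4.symm

theorem exists_retract {r : V → V → Prop} (hr : IsCong G r)
    (hrig : ∀ (h : G) x, r x (h • x) → h • x = x) :
    ∃ π π₂ : V → V, (∀ x, r x (π x)) ∧ (∀ x y, r x y → π x = π y) ∧
      (∀ (g : G) x, π (g • x) = g • π x) ∧ (∀ x, r x (π₂ x)) ∧ (∀ x y, r x y → π₂ x = π₂ y) ∧
      (∀ (g : G) x, π₂ (g • x) = g • π₂ x) ∧ ∀ x y, r x y → x ≠ y → π x ≠ π₂ x := by
  classical
  let s : Setoid V := ⟨fun x y => ∃ h : G, r (h • x) y,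
    ⟨fun x => ⟨1, by rw [one_smul]; exact hr.refl x⟩,
     fun {x y} ⟨h, hh⟩ => ⟨h⁻¹, by
      have := hr.smul h⁻¹ hh
      rw [inv_smul_smul] at this; exact hr.symm this⟩,
     fun {x y z} ⟨h, hh⟩ ⟨k, hk⟩ => ⟨k * h, by
      rw [mul_smul]; exact hr.trans (hr.smul k hh) hk⟩⟩⟩
  let A : V → V := fun x => (Quotient.mk s x).out
  have hA1 : ∀ x, ∃ h : G, r (h • x) (A x) := fun x => s.symm (Quotient.mk_out (s := s) x)
  have hA2 : ∀ (h : G) x y, r (h • x) y → A x = A y := fun h x y hxy => by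
    have : Quotient.mk s x = Quotient.mk s y := Quotient.sound ⟨h, hxy⟩
    simp only [A, this]
  have hb : ∀ a, ∃ b, r a b ∧ ((∃ y, r a y ∧ a ≠ y) → a ≠ b) := fun a => by
    by_cases h : ∃ y, r a y ∧ a ≠ y
    · obtain ⟨y, h1, h2⟩ := h
      exact ⟨y, h1, fun _ => h2⟩
    · exact ⟨a, hr.refl a, fun h' => absurd h' h⟩
  choose b hb1 hb2 using hb
  have gen : ∀ (B π : V → V), (∀ x, ∃ h : G, r (h • x) (B x)) →
      (∀ (h : G) x y, r (h • x) y → B x = B y) →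
      (∀ x (h : G), r (h • x) (B x) → π x = h⁻¹ • B x) →
      (∀ x, r x (π x)) ∧ (∀ x y, r x y → π x = π y) ∧ ∀ (g : G) x, π (g • x) = g • π x := by
    intro B π h1 h2 h3
    refine ⟨fun x => ?_, fun x y hxy => ?_, fun g x => ?_⟩
    · obtain ⟨h, hh⟩ := h1 x
      have := hr.smul h⁻¹ hh
      rwa [inv_smul_smul, ← h3 x h hh] at this
    · obtain ⟨h, hh⟩ := h1 x
      have e := h2 1 x y (by rwa [one_smul])
      rw [h3 x h hh, h3 y h (e ▸ hr.trans (hr.smul h (hr.symm hxy)) hh), e]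
    · obtain ⟨h, hh⟩ := h1 (g • x)
      have e := h2 g x (g • x) (hr.refl _)
      rw [h3 _ h hh, h3 x (h * g) (by rw [mul_smul, e]; exact hh), e, mul_inv_rev, mul_smul,
        smul_inv_smul]
  have hB1 : ∀ x, ∃ h : G, r (h • x) (b (A x)) := fun x => by
    obtain ⟨h, hh⟩ := hA1 x
    exact ⟨h, hr.trans hh (hb1 _)⟩
  obtain ⟨π, hπ⟩ := exists_select hr hrig A hA1
  obtain ⟨π₂, hπ₂⟩ := exists_select hr hrig (fun x => b (A x)) hB1
  obtain ⟨a1, a2, a3⟩ := gen A π hA1 hA2 hπ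
  obtain ⟨b1, b2, b3⟩ := gen (fun x => b (A x)) π₂ hB1
    (fun h x y hxy => by simp only [hA2 h x y hxy]) hπ₂
  refine ⟨π, π₂, a1, a2, a3, b1, b2, b3, fun x y hxy hne hc => ?_⟩
  obtain ⟨h, hh⟩ := hA1 x
  rw [hπ x h hh, hπ₂ x h (hr.trans hh (hb1 _))] at hc
  refine hb2 (A x) ?_ (smul_left_cancel _ hc)
  by_cases h1 : A x = h • x
  · exact ⟨h • y, h1 ▸ hr.smul h hxy, h1 ▸ fun h2 => hne (smul_left_cancel _ h2)⟩
  · exact ⟨h • x, hr.symm hh, h1⟩

theorem IsCong.restrict {r : V → V → Prop} (hr : IsCong G r) (H : Subgroup G) : IsCong H r :=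
  ⟨hr.refl, hr.symm, hr.trans, fun g _ _ h => hr.smul g.1 h⟩

/-- The induction hypothesis. -/
def IH (q n : ℕ) : Prop :=
  ∀ (V : Type) [Finite V] (G : Type) [Group G] [Finite G] [MulAction G V], Nat.card V < n →
    PStar V G → ∃ M : V → ℕ × ℕ, Bd q M ∧ Tame G M

variable (V G) in
/-- First reduction: blocks that become rigid after a colouring. -/
def R1 (q : ℕ) : Prop :=
  ∃ (r : V → V → Prop) (M : V → ℕ), IsCong G r ∧ (∃ x y, r x y ∧ x ≠ y) ∧ (∀ x, M x < q) ∧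
    (∀ x, (∀ y, r x y → y = x) → M x = 0) ∧
    ∀ g : G, (∀ x, M (g • x) = M x) → ∀ x, r x (g • x) → g • x = x

variable (V G) in
/-- Second reduction: independent full symmetric groups on the blocks. -/
def R3 : Prop :=
  ∃ r : V → V → Prop, IsCong G r ∧ (∃ x y, r x y ∧ x ≠ y) ∧
    ∀ s : Perm V, (∀ x, r x (s x)) → ∃ g : G, ∀ x, g • x = s x

theorem card_fixSub_lt [Finite V] {r : V → V → Prop} (π : V → V)
    (hπ : ∀ (g : G) x, π (g • x) = g • π x) (h2 : ∀ x y, r x y → π x = π y)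
    (hne : ∃ x y, r x y ∧ x ≠ y) : Nat.card (fixSub π hπ) < Nat.card V := by
  obtain ⟨x, y, hxy, hne⟩ := hne
  have : ∃ z, π z ≠ z := by
    by_contra hc
    push Not at hc
    exact hne (by rw [← hc x, ← hc y]; exact h2 x y hxy)
  obtain ⟨z, hz⟩ := this
  exact Finite.card_subtype_lt (p := fun x => x ∈ fixSub π hπ) (x := z) hz

theorem red1 [Finite V] [Finite G] {q : ℕ} (ih : IH q (Nat.card V)) (hP : PStar V G)
    (h : R1 V G q) : ∃ M : V → ℕ × ℕ, Bd q M ∧ Tame G M := by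
  classical
  obtain ⟨r, M₁, hr, hne, hM₁, hM₀, hrig⟩ := h
  let H := presSub G M₁
  have hrH := hr.restrict H
  have hrigH : ∀ (h : H) x, r x (h • x) → h • x = x := fun h => hrig h.1 h.2
  obtain ⟨π, π₂, a1, a2, a3, b1, b2, b3, hππ₂⟩ := exists_retract hrH hrigH
  have hππ : ∀ x, π (π x) = π x := fun x => (a2 _ _ (a1 x)).symm
  have hst : ∀ (g : H) x, g • π x = π x → g • x = x := fun g x hg => hrigH g x (by
    have := hrH.smul g (a1 x)
    rw [hg] at this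
    exact hr.trans (a1 x) (hr.symm this))
  obtain ⟨N, hN, hT⟩ := ih (fixSub π a3) H (card_fixSub_lt π a3 a2 hne)
    (pstar_lift π a3 hππ hst (pstar_pres M₁ hP))
  let m : V → ℕ × ℕ := fun x => N ⟨π x, hππ x⟩
  let M : V → ℕ × ℕ := fun x => if ∀ y, r x y → y = x then m x else
    (M₁ x, if π₂ x = x then (m x).2 else (m x).1)
  have htriv : ∀ (g : G) x, (∀ y, r (g • x) y → y = g • x) ↔ ∀ y, r x y → y = x := fun g x =>
    ⟨fun h y hy => smul_left_cancel g (h _ (hr.smul g hy)), fun h y hy => by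
      have := hr.smul g⁻¹ hy
      rw [inv_smul_smul] at this
      rw [← h _ this, smul_inv_smul]⟩
  have hH : ∀ g : G, (∀ z, M (g • z) = M z) → g ∈ H := fun g hg x => by
    by_cases hx : ∀ y, r x y → y = x
    · rw [hM₀ x hx, hM₀ _ ((htriv g x).mpr hx)]
    · have := congrArg Prod.fst (hg x)
      simpa only [M, if_neg hx, if_neg (mt (htriv g x).mp hx)] using this
  have hN' : ∀ (g : G) (hg : ∀ z, M (g • z) = M z) (u : fixSub π a3),
      N ((⟨g, hH g hg⟩ : H) • u) = N u := by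
    intro g hg u
    have hm : ∀ x, π x = u.1 → m x = N u ∧ m (g • x) = N ((⟨g, hH g hg⟩ : H) • u) := by
      intro x hx
      refine ⟨congrArg N (Subtype.ext hx), congrArg N (Subtype.ext ?_)⟩
      have := a3 ⟨g, hH g hg⟩ x
      rw [hx] at this
      exact this
    by_cases hx : ∀ y, r u.1 y → y = u.1
    · have := hg u.1
      simp only [M, if_pos hx, if_pos ((htriv g _).mpr hx)] at this
      rw [← (hm u.1 u.2).1, ← (hm u.1 u.2).2, this]
    · have hx' := hx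
      push Not at hx'
      obtain ⟨y, hy, hy'⟩ := hx'
      have hu : π u.1 = u.1 := u.2
      have hd : π₂ u.1 ≠ u.1 := fun hc => hππ₂ _ _ hy hy'.symm (by rw [hu, hc])
      have hb3 : ∀ x, π₂ (g • x) = g • π₂ x := b3 ⟨g, hH g hg⟩
      apply Prod.ext
      · have := congrArg Prod.snd (hg u.1)
        have hd' : π₂ (g • u.1) ≠ g • u.1 := fun hc => hd (smul_left_cancel g (hb3 _ ▸ hc))
        simp only [M, if_neg hx, if_neg (mt (htriv g _).mp hx), if_neg hd, if_neg hd'] at this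
        rw [← (hm u.1 u.2).1, ← (hm u.1 u.2).2, this]
      · have e1 : π₂ (π₂ u.1) = π₂ u.1 := (b2 _ _ (b1 _)).symm
        have e2 : π (π₂ u.1) = u.1 := by rw [← a2 _ _ (b1 u.1), hu]
        have hx2 : ¬ ∀ y, r (π₂ u.1) y → y = π₂ u.1 := fun hc => hd (hc _ (hr.symm (b1 _))).symm
        have e3 : π₂ (g • π₂ u.1) = g • π₂ u.1 := by rw [hb3, e1]
        have := congrArg Prod.snd (hg (π₂ u.1))
        simp only [M, if_neg hx2, if_neg (mt (htriv g _).mp hx2), if_pos e1, if_pos e3] at this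
        rw [← (hm _ e2).1, ← (hm _ e2).2, this]
  refine ⟨M, fun x => ?_, fun ρ ⟨⟨b₀, hb₀⟩, hc⟩ => ?_⟩
  · simp only [M]
    split_ifs
    · exact hN _
    · exact ⟨hM₁ x, (hN _).2⟩
    · exact ⟨hM₁ x, (hN _).1⟩
  · have hsub : ∀ b : V ≃ V, (∀ x, ∃ γ : G, (∀ z, M (γ • z) = M z) ∧ γ • x = b x) →
        ∀ x, x ∈ fixSub π a3 ↔ b x ∈ fixSub π a3 := by
      intro b hb x
      obtain ⟨γ, h1, h2⟩ := hb x
      rw [← h2]
      exact ((fixSub π a3).smul_mem_iff' (⟨γ, hH γ h1⟩ : H)).symm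
    obtain ⟨g, hg⟩ := hT (fun u u' => ρ u.1 u'.1) ⟨⟨b₀.subtypeEquiv (hsub b₀ fun x => by
      obtain ⟨b, hb⟩ := hc _ _ (hb₀ x)
      obtain ⟨-, γ, h1, h2, -⟩ := hb x
      exact ⟨γ, h1, h2⟩), fun x => hb₀ x.1⟩, fun u u' huu' => by
      obtain ⟨b, hb⟩ := hc _ _ huu'
      refine ⟨b.subtypeEquiv (hsub b fun x => by
        obtain ⟨-, γ, h1, -, h2⟩ := hb x
        exact ⟨γ, h1, h2⟩), fun x => ?_⟩
      obtain ⟨h0, γ, h1, h2, h3⟩ := hb x.1
      exact ⟨h0, ⟨γ, hH γ h1⟩, hN' γ h1, Subtype.ext h2, Subtype.ext h3⟩⟩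
    refine ⟨g.1, fun x => ?_⟩
    obtain ⟨b, hb⟩ := hc _ _ (hg ⟨π x, hππ x⟩)
    obtain ⟨h0, γ, h1, h2, h3⟩ := hb x
    have := hst (g⁻¹ * ⟨γ, hH γ h1⟩) x (by rw [mul_smul, inv_smul_eq_iff]; exact h2)
    rw [mul_smul, inv_smul_eq_iff] at this
    have h4 : γ • x = g.1 • x := this
    rwa [← h4, h3]

theorem IsCong.ncard_smul {r : V → V → Prop} (hr : IsCong G r) (g : G) (x : V) :
    {y | r (g • x) y}.ncard = {y | r x y}.ncard := by
  rw [← Set.ncard_image_of_injective {y | r x y} (MulAction.injective g)]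
  congr 1
  ext y
  constructor
  · intro hy
    have := hr.smul g⁻¹ hy
    rw [inv_smul_smul] at this
    exact ⟨_, this, smul_inv_smul _ _⟩
  · rintro ⟨z, hz, rfl⟩; exact hr.smul g hz

theorem red3 [Finite V] [Finite G] {q : ℕ} (ih : IH q (Nat.card V)) (hP : PStar V G)
    (h : R3 V G) : ∃ M : V → ℕ × ℕ, Bd q M ∧ Tame G M := by
  classical
  obtain ⟨r, hr, hne, hall⟩ := h
  obtain ⟨ω, hω1, hω2, hω3⟩ := exists_omega (r := r) ⟨hr.refl, hr.symm, hr.trans⟩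
  let H := presSub G ω
  have hrH := hr.restrict H
  have hrigH : ∀ (h : H) x, r x (h • x) → h • x = x := fun h x hx =>
    (hω1 _ _ hx (h.2 x).symm).symm
  obtain ⟨π, -, a1, a2, a3, -⟩ := exists_retract hrH hrigH
  have hππ : ∀ x, π (π x) = π x := fun x => (a2 _ _ (a1 x)).symm
  have hst : ∀ (g : H) x, g • π x = π x → g • x = x := fun g x hg => hrigH g x (by
    have := hrH.smul g (a1 x)
    rw [hg] at this
    exact hr.trans (a1 x) (hr.symm this))
  obtain ⟨N, hN, hT⟩ := ih (fixSub π a3) H (card_fixSub_lt π a3 a2 hne)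
    (pstar_lift π a3 hππ hst (pstar_pres ω hP))
  let p : V → fixSub π a3 := fun x => ⟨π x, hππ x⟩
  have hp : Function.Surjective p := fun u => ⟨u.1, Subtype.ext u.2⟩
  have hpr : ∀ x y, p y = p x ↔ r x y := fun x y =>
    ⟨fun h => hr.trans (a1 x) (by
      have : π y = π x := congrArg Subtype.val h
      rw [← this]; exact hr.symm (a1 y)), fun h => Subtype.ext (a2 _ _ h).symm⟩
  have hcorr : ∀ γ : G, ∃ k : H, ∀ x, k • p x = p (γ • x) := by
    intro γ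
    have h1 : ∀ y, ∃ y', r y y' ∧ ω y' = ω (γ⁻¹ • y) := fun y =>
      hω3 y _ (by rw [← hr.ncard_smul γ⁻¹ y]; exact hω2 _)
    choose s hs1 hs2 using h1
    have hs : Function.Injective s := fun y y' hyy => by
      have e1 : r y y' := hr.trans (hs1 y) (hyy ▸ hr.symm (hs1 y'))
      exact smul_left_cancel γ⁻¹ (hω1 _ _ (hr.smul γ⁻¹ e1) (by rw [← hs2, ← hs2, hyy]))
    obtain ⟨g, hg⟩ := hall (Equiv.ofBijective s (Finite.injective_iff_bijective.mp hs)) hs1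
    have hg' : ∀ x, g • x = s x := hg
    refine ⟨⟨g * γ, fun x => by rw [mul_smul, hg', hs2, inv_smul_smul]⟩, fun x => Subtype.ext ?_⟩
    refine (a3 _ x).symm.trans (a2 _ _ ?_)
    show r ((g * γ) • x) (γ • x)
    rw [mul_smul, hg']; exact hr.symm (hs1 _)
  have hdesc : ∀ b : V ≃ V, (∀ x, ∃ γ : G, γ • x = b x) →
      ∃ c : fixSub π a3 ≃ fixSub π a3, ∀ u, ∃ x, p x = u ∧ p (b x) = c u := fun b hb =>
    hall_fibre p p hp hp b fun x => by
      obtain ⟨γ, hγ⟩ := hb x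
      simp only [hpr]
      rw [← hγ, hr.ncard_smul]
  refine ⟨fun x => N (p x), fun x => hN _, fun ρ ⟨⟨b₀, hb₀⟩, hc⟩ => ?_⟩
  obtain ⟨g, hg⟩ := hT (fun u u' => ∃ x x', p x = u ∧ p x' = u' ∧ ρ x x') ⟨by
    obtain ⟨c, hc'⟩ := hdesc b₀ fun x => by
      obtain ⟨b, hb⟩ := hc _ _ (hb₀ x)
      obtain ⟨-, γ, -, h2, -⟩ := hb x
      exact ⟨γ, h2⟩
    refine ⟨c, fun u => ?_⟩
    obtain ⟨x, h1, h2⟩ := hc' u
    exact ⟨x, b₀ x, h1, h2, hb₀ x⟩, by
    rintro u u' ⟨x₀, x₀', rfl, rfl, h0⟩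
    obtain ⟨b, hb⟩ := hc _ _ h0
    obtain ⟨c, hc'⟩ := hdesc b fun x => by
      obtain ⟨-, γ, -, -, h2⟩ := hb x
      exact ⟨γ, h2⟩
    refine ⟨c, fun u => ?_⟩
    obtain ⟨x, rfl, h2⟩ := hc' u
    obtain ⟨h3, γ, h4, h5, h6⟩ := hb x
    obtain ⟨k, hk⟩ := hcorr γ
    refine ⟨⟨x, b x, rfl, h2, h3⟩, k, fun z => ?_, by rw [hk, h5], by rw [hk, h6, h2]⟩
    obtain ⟨y, rfl⟩ := hp z
    rw [hk]; exact h4 y⟩
  have hB : ∀ u, ∃ b : V ≃ V, ∀ x, p x = u → ρ x (b x) ∧ r (g • x) (b x) := by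
    intro u
    obtain ⟨x₁, x₁', h1, h2, h3⟩ := hg u
    obtain ⟨b, hb⟩ := hc _ _ h3
    refine ⟨b, fun x hx => ?_⟩
    obtain ⟨h4, γ, -, h5, h6⟩ := hb x
    refine ⟨h4, ?_⟩
    have e1 : r x₁ x := (hpr _ _).mp (hx.trans h1.symm)
    have e2 := hr.smul γ e1
    rw [h5, h6] at e2
    refine hr.trans ((hpr _ _).mp ?_) e2
    rw [h2, ← hx]; exact Subtype.ext (a3 g x).symm
  choose B hB using hB
  have hs1 : ∀ x, r x (g⁻¹ • B (p x) x) := fun x => by
    have := hrH.smul g⁻¹ (hB _ x rfl).2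
    rwa [inv_smul_smul] at this
  have hs : Function.Injective (fun x => g⁻¹ • B (p x) x) := fun x y hxy => by
    have e0 : g⁻¹ • B (p x) x = g⁻¹ • B (p y) y := hxy
    have e1 : r x y := hr.trans (hs1 x) (e0 ▸ hr.symm (hs1 y))
    have e2 := smul_left_cancel _ e0
    rw [(hpr _ _).mpr e1] at e2
    exact (B _).injective e2
  obtain ⟨k, hk⟩ := hall (Equiv.ofBijective _ (Finite.injective_iff_bijective.mp hs)) hs1
  refine ⟨g.1 * k, fun x => ?_⟩
  have hk' : k • x = g⁻¹ • B (p x) x := hk x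
  have : (g.1 * k) • x = B (p x) x := by
    rw [mul_smul, hk']; exact smul_inv_smul g _
  rw [this]; exact (hB _ x rfl).1

end Pool.Agent.MP_88b4a2_lc
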